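import Mathlib

/-!
# Core : verified fixed point arithmetic in the kernel

The end points of an interval are natural numbers in units `10^-18` (only nonnegative reals occur). Only `Nat`
operations with kernel support are used. The operations are in continuation passing style; `fN` forces a number to
a literal (the style of `H15/IA/Core.lean`).
-/

set_option autoImplicit false

open Real

namespace Pool.Agent.H27.XZ

/-- interval -/
structure Iv where
  lo : Nat
  hi : Nat

/-- `x` lies in the interval `a` -/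
def Iv.mem (a : Iv) (x : ℝ) : Prop :=
  (a.lo : ℝ) ≤ x * 1000000000000000000 ∧ x * 1000000000000000000 ≤ a.hi

/-- force a natural number -/
@[inline] def fN (x : Nat) (k : Nat → Bool) : Bool := Nat.casesOn x (k 0) fun n => k (Nat.succ n)

theorem fN_eq (x : Nat) (k : Nat → Bool) : fN x k = k x := by
  cases x <;> rfl

/-- if then else, `Bool` valued -/
@[macro_inline] def br (c t e : Bool) : Bool := Bool.casesOn c e t

theorem br_f {c t : Bool} (h : br c t false = true) : c = true ∧ t = true := by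
  cases c <;> simp_all [br]

theorem ble_true {a b : Nat} (h : Nat.ble a b = true) : a ≤ b := by rwa [Nat.ble_eq] at h

/-! ### casts -/

theorem add_cast (a b : Nat) : ((Nat.add a b : Nat) : ℝ) = (a : ℝ) + b := by
  rw [show Nat.add a b = a + b from rfl, Nat.cast_add]

theorem mul_cast (a b : Nat) : ((Nat.mul a b : Nat) : ℝ) = (a : ℝ) * b := by
  rw [show Nat.mul a b = a * b from rfl, Nat.cast_mul]

theorem succ_cast (a : Nat) : ((Nat.succ a : Nat) : ℝ) = (a : ℝ) + 1 := by
  rw [Nat.cast_succ]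

theorem sub_cast_ge (a b : Nat) : (a : ℝ) - b ≤ ((Nat.sub a b : Nat) : ℝ) := by
  rcases le_total b a with h | h
  · rw [show Nat.sub a b = a - b from rfl, Nat.cast_sub h]
  · have h1 : (a : ℝ) ≤ b := by exact_mod_cast h
    have h2 : (0 : ℝ) ≤ ((Nat.sub a b : Nat) : ℝ) := Nat.cast_nonneg _
    linarith

/-- truncated subtraction, from above by a nonnegative number -/
theorem sub_cast_le {a b : Nat} {z : ℝ} (h0 : 0 ≤ z) (h : (a : ℝ) - b ≤ z) :
    ((Nat.sub a b : Nat) : ℝ) ≤ z := by
  rcases le_total b a with h1 | h1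
  · rw [show Nat.sub a b = a - b from rfl, Nat.cast_sub h1]
    exact h
  · rw [show Nat.sub a b = a - b from rfl, Nat.sub_eq_zero_of_le h1, Nat.cast_zero]
    exact h0

theorem div_cast_le (a : Nat) (b : Nat) : ((Nat.div a b : Nat) : ℝ) ≤ (a : ℝ) / b := by
  rw [show Nat.div a b = a / b from rfl]
  exact Nat.cast_div_le

theorem le_div_cast (a : Nat) {b : Nat} (hb : 0 < b) :
    (a : ℝ) / b ≤ ((Nat.div a b : Nat) : ℝ) + 1 := by
  rw [show Nat.div a b = a / b from rfl]
  have h : a < (a / b + 1) * b := by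
    have := Nat.lt_div_mul_add hb (a := a)
    nlinarith
  have h1 : (a : ℝ) ≤ (((a / b : Nat) : ℝ) + 1) * b := by exact_mod_cast h.le
  have hb' : (0 : ℝ) < b := by exact_mod_cast hb
  rw [div_le_iff₀ hb']
  exact h1

/-- quotient from below -/
theorem div_lo {a b : Nat} {z : ℝ} (h : (a : ℝ) / b ≤ z) : ((Nat.div a b : Nat) : ℝ) ≤ z :=
  (div_cast_le a b).trans h

/-- quotient from above -/
theorem div_hi {a b : Nat} {z : ℝ} (hb : 0 < b) (h : z ≤ (a : ℝ) / b) :
    z ≤ ((Nat.succ (Nat.div a b) : Nat) : ℝ) := by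
  rw [succ_cast]
  exact h.trans (le_div_cast a hb)

/-! ### operations -/

def addK (a b : Iv) (k : Iv → Bool) : Bool :=
  fN (Nat.add a.lo b.lo) fun l => fN (Nat.add a.hi b.hi) fun h => k (Iv.mk l h)

def subK (a b : Iv) (k : Iv → Bool) : Bool :=
  fN (Nat.sub a.lo b.hi) fun l => fN (Nat.sub a.hi b.lo) fun h => k (Iv.mk l h)

def mulK (a b : Iv) (k : Iv → Bool) : Bool :=
  fN (Nat.div (Nat.mul a.lo b.lo) 1000000000000000000) fun l =>
    fN (Nat.succ (Nat.div (Nat.mul a.hi b.hi) 1000000000000000000)) fun h => k (Iv.mk l h)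

/-- multiplication by `n / d` -/
def scK (n d : Nat) (a : Iv) (k : Iv → Bool) : Bool :=
  fN (Nat.div (Nat.mul a.lo n) d) fun l =>
    fN (Nat.succ (Nat.div (Nat.mul a.hi n) d)) fun h => k (Iv.mk l h)

/-- reciprocal -/
def invK (a : Iv) (k : Iv → Bool) : Bool :=
  br (Nat.ble 1 a.lo)
    (fN (Nat.div 1000000000000000000000000000000000000 a.hi) fun l =>
      fN (Nat.succ (Nat.div 1000000000000000000000000000000000000 a.lo)) fun h => k (Iv.mk l h)) false

theorem mem_nonneg {a : Iv} {x : ℝ} (_hx : 0 ≤ x) (ha : a.mem x) : (0 : ℝ) ≤ a.hi := by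
  have := ha.2
  positivity

theorem addK_sound {a b : Iv} {k : Iv → Bool} {x y : ℝ} (ha : a.mem x) (hb : b.mem y)
    (h : addK a b k = true) : ∃ c : Iv, c.mem (x + y) ∧ k c = true := by
  unfold addK at h
  simp only [fN_eq] at h
  obtain ⟨h1, h2⟩ := ha
  obtain ⟨h3, h4⟩ := hb
  refine ⟨_, ⟨?_, ?_⟩, h⟩
  · dsimp only
    rw [add_cast]
    linarith
  · dsimp only
    rw [add_cast]
    linarith

theorem subK_sound {a b : Iv} {k : Iv → Bool} {x y : ℝ} (ha : a.mem x) (hb : b.mem y) (hxy : y ≤ x)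
    (h : subK a b k = true) : ∃ c : Iv, c.mem (x - y) ∧ k c = true := by
  unfold subK at h
  simp only [fN_eq] at h
  obtain ⟨h1, h2⟩ := ha
  obtain ⟨h3, h4⟩ := hb
  refine ⟨_, ⟨?_, ?_⟩, h⟩
  · dsimp only
    apply sub_cast_le
    · nlinarith
    · linarith
  · dsimp only
    refine le_trans ?_ (sub_cast_ge _ _)
    linarith

theorem mulK_sound {a b : Iv} {k : Iv → Bool} {x y : ℝ} (hx : 0 ≤ x) (hy : 0 ≤ y) (ha : a.mem x)
    (hb : b.mem y) (h : mulK a b k = true) : ∃ c : Iv, c.mem (x * y) ∧ k c = true := by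
  unfold mulK at h
  simp only [fN_eq] at h
  obtain ⟨h1, h2⟩ := ha
  obtain ⟨h3, h4⟩ := hb
  have e1 : (0 : ℝ) ≤ a.lo := Nat.cast_nonneg _
  have e2 : (0 : ℝ) ≤ b.lo := Nat.cast_nonneg _
  have hX : 0 ≤ x * 1000000000000000000 := by positivity
  have hY : 0 ≤ y * 1000000000000000000 := by positivity
  refine ⟨_, ⟨?_, ?_⟩, h⟩
  · dsimp only
    apply div_lo
    rw [mul_cast, Nat.cast_ofNat, div_le_iff₀ (by norm_num)]
    have := mul_le_mul h1 h3 e2 hX
    calc (a.lo : ℝ) * b.lo ≤ x * 1000000000000000000 * (y * 1000000000000000000) := this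
      _ = x * y * 1000000000000000000 * 1000000000000000000 := by ring
  · dsimp only
    apply div_hi (by norm_num)
    rw [mul_cast, Nat.cast_ofNat, le_div_iff₀ (by norm_num)]
    have := mul_le_mul h2 h4 hY (le_trans hX h2)
    calc x * y * 1000000000000000000 * 1000000000000000000
        = x * 1000000000000000000 * (y * 1000000000000000000) := by ring
      _ ≤ (a.hi : ℝ) * b.hi := this

theorem scK_sound {n d : Nat} {a : Iv} {k : Iv → Bool} {x : ℝ} (hd : 0 < d) (ha : a.mem x)
    (h : scK n d a k = true) : ∃ c : Iv, c.mem (x * ((n : ℝ) / d)) ∧ k c = true := by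
  unfold scK at h
  simp only [fN_eq] at h
  obtain ⟨h1, h2⟩ := ha
  have hd' : (0 : ℝ) < d := by exact_mod_cast hd
  have hn : (0 : ℝ) ≤ n := Nat.cast_nonneg _
  refine ⟨_, ⟨?_, ?_⟩, h⟩
  · dsimp only
    apply div_lo
    rw [mul_cast, div_le_iff₀ hd']
    calc (a.lo : ℝ) * n ≤ x * 1000000000000000000 * n := mul_le_mul_of_nonneg_right h1 hn
      _ = x * ((n : ℝ) / d) * 1000000000000000000 * d := by field_simp
  · dsimp only
    apply div_hi hd
    rw [mul_cast, le_div_iff₀ hd']
    calc x * ((n : ℝ) / d) * 1000000000000000000 * d = x * 1000000000000000000 * n := by field_simp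
      _ ≤ (a.hi : ℝ) * n := mul_le_mul_of_nonneg_right h2 hn

theorem invK_sound {a : Iv} {k : Iv → Bool} {x : ℝ} (ha : a.mem x)
    (h : invK a k = true) : ∃ c : Iv, c.mem (x⁻¹) ∧ k c = true ∧ 0 < x := by
  unfold invK at h
  obtain ⟨hc, h⟩ := br_f h
  simp only [fN_eq] at h
  obtain ⟨h1, h2⟩ := ha
  have h3 : (1 : ℝ) ≤ a.lo := by exact_mod_cast ble_true hc
  have hx : 0 < x := by
    by_contra hx
    push Not at hx
    nlinarith
  have h4 : (0 : ℝ) < a.hi := by nlinarith
  refine ⟨_, ⟨?_, ?_⟩, h, hx⟩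
  · dsimp only
    apply div_lo
    rw [Nat.cast_ofNat, div_le_iff₀ h4]
    calc (1000000000000000000000000000000000000 : ℝ)
        = x⁻¹ * 1000000000000000000 * (x * 1000000000000000000) := by field_simp; norm_num
      _ ≤ x⁻¹ * 1000000000000000000 * a.hi := mul_le_mul_of_nonneg_left h2 (by positivity)
  · dsimp only
    apply div_hi (by exact_mod_cast (by linarith : (0 : ℝ) < a.lo))
    rw [Nat.cast_ofNat, le_div_iff₀ (by linarith)]
    calc x⁻¹ * 1000000000000000000 * a.lo
        ≤ x⁻¹ * 1000000000000000000 * (x * 1000000000000000000) :=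
          mul_le_mul_of_nonneg_left h1 (by positivity)
      _ = (1000000000000000000000000000000000000 : ℝ) := by field_simp; norm_num

/-! ### the exponential function -/

/-- Horner scheme from below: `c ↦ 1 + v c / n` for `n, n-1, .., 1` -/
def hrL (v : Nat) : Nat → Nat → (Nat → Bool) → Bool
  | 0, c, k => k c
  | n + 1, c, k =>
    fN (Nat.add 1000000000000000000 (Nat.div (Nat.mul v c) (Nat.mul (Nat.succ n) 1000000000000000000)))
      fun d => hrL v n d k

/-- Horner scheme from above -/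
def hrU (v : Nat) : Nat → Nat → (Nat → Bool) → Bool
  | 0, c, k => k c
  | n + 1, c, k =>
    fN (Nat.add 1000000000000000001 (Nat.div (Nat.mul v c) (Nat.mul (Nat.succ n) 1000000000000000000)))
      fun d => hrU v n d k

/-- squares from below -/
def sqL : Nat → Nat → (Nat → Bool) → Bool
  | 0, c, k => k c
  | n + 1, c, k => fN (Nat.div (Nat.mul c c) 1000000000000000000) fun d => sqL n d k

/-- squares from above -/
def sqU : Nat → Nat → (Nat → Bool) → Bool
  | 0, c, k => k c
  | n + 1, c, k => fN (Nat.succ (Nat.div (Nat.mul c c) 1000000000000000000)) fun d => sqU n d k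

/-- lower bound for `e^(-y)`, `y ≤ Y / 10^18` -/
def expL (Y : Nat) (k : Nat → Bool) : Bool :=
  fN (Nat.succ (Nat.div Y 16)) fun v => br (Nat.ble v 1000000000000000000)
    (hrU v 16 2000000000000000000 fun s =>
      fN (Nat.div 1000000000000000000000000000000000000 s) fun r => sqL 4 r k) false

/-- upper bound for `e^(-y)`, `Y / 10^18 ≤ y` -/
def expU (Y : Nat) (k : Nat → Bool) : Bool :=
  fN (Nat.div Y 16) fun v => hrL v 16 1000000000000000000 fun s =>
    fN (Nat.succ (Nat.div 1000000000000000000000000000000000000 s)) fun r => sqU 4 r k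

/-- the interval for `e^(-x)` -/
def expK (a : Iv) (k : Iv → Bool) : Bool :=
  expL a.hi fun l => expU a.lo fun h => k (Iv.mk l h)

/-- real Horner scheme -/
noncomputable def HR (v : ℝ) : ℕ → ℝ → ℝ
  | 0, c => c
  | n + 1, c => HR v n (1 + v * c / (n + 1))

theorem HR_eq (v : ℝ) : ∀ (n : ℕ) (c : ℝ),
    HR v n c = ∑ m ∈ Finset.range n, v ^ m / m.factorial + c * v ^ n / n.factorial
  | 0, c => by simp [HR]
  | n + 1, c => by
    rw [HR, HR_eq v n, Finset.sum_range_succ, Nat.factorial_succ]
    push_cast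
    have h1 : ((n : ℝ) + 1) ≠ 0 := by positivity
    have h2 : ((n.factorial : ℕ) : ℝ) ≠ 0 := by positivity
    field_simp
    ring

theorem HR_mono {v w : ℝ} (hv : 0 ≤ v) (hvw : v ≤ w) : ∀ (n : ℕ) {c d : ℝ}, 0 ≤ c → c ≤ d →
    HR v n c ≤ HR w n d
  | 0, _, _, _, h => h
  | n + 1, c, d, h0, h => by
    rw [HR, HR]
    apply HR_mono hv hvw n
    · positivity
    · have : v * c ≤ w * d := mul_le_mul hvw h h0 (hv.trans hvw)
      gcongr

theorem hrL_sound {v : Nat} : ∀ {n c : Nat} {k : Nat → Bool}, hrL v n c k = true →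
    ∃ s : Nat, (s : ℝ) / 1000000000000000000 ≤
      HR ((v : ℝ) / 1000000000000000000) n ((c : ℝ) / 1000000000000000000) ∧
      (1 : ℝ) * (if n = 0 then (c : ℝ) else 1000000000000000000) ≤ s ∧ k s = true
  | 0, c, k, h => ⟨c, le_rfl, by simp, h⟩
  | n + 1, c, k, h => by
    unfold hrL at h
    rw [fN_eq] at h
    obtain ⟨s, h1, h2, h3⟩ := hrL_sound h
    refine ⟨s, h1.trans ?_, ?_, h3⟩
    · rw [HR]
      apply HR_mono (by positivity) le_rfl n (by positivity)
      rw [add_cast, Nat.cast_ofNat]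
      have h4 := div_cast_le (Nat.mul v c) (Nat.mul (Nat.succ n) 1000000000000000000)
      rw [mul_cast, mul_cast, succ_cast, Nat.cast_ofNat] at h4
      have h5 : (v : ℝ) / 1000000000000000000 * ((c : ℝ) / 1000000000000000000) / (n + 1) =
          (v : ℝ) * c / ((n + 1) * 1000000000000000000) / 1000000000000000000 := by
        field_simp
      rw [h5, div_le_iff₀ (by norm_num), add_mul, div_mul_cancel₀ _ (by norm_num)]
      linarith
    · simp only [Nat.add_eq_zero_iff, one_ne_zero, and_false, if_false]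
      split_ifs at h2 with h6
      · rw [add_cast, Nat.cast_ofNat] at h2
        have : (0 : ℝ) ≤ ((Nat.div (Nat.mul v c) (Nat.mul (Nat.succ n) 1000000000000000000) : Nat) : ℝ) :=
          Nat.cast_nonneg _
        linarith
      · exact h2

theorem hrU_sound {v : Nat} : ∀ {n c : Nat} {k : Nat → Bool}, hrU v n c k = true →
    ∃ s : Nat, HR ((v : ℝ) / 1000000000000000000) n ((c : ℝ) / 1000000000000000000) ≤
      (s : ℝ) / 1000000000000000000 ∧ k s = true
  | 0, c, k, h => ⟨c, le_rfl, h⟩
  | n + 1, c, k, h => by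
    unfold hrU at h
    rw [fN_eq] at h
    obtain ⟨s, h1, h3⟩ := hrU_sound h
    refine ⟨s, le_trans ?_ h1, h3⟩
    rw [HR]
    apply HR_mono (by positivity) le_rfl n (by positivity)
    rw [add_cast, Nat.cast_ofNat]
    have h4 := le_div_cast (Nat.mul v c) (b := Nat.mul (Nat.succ n) 1000000000000000000)
      (by rw [show Nat.mul (Nat.succ n) 1000000000000000000 = (n + 1) * 1000000000000000000 from rfl]
          positivity)
    rw [mul_cast, mul_cast, succ_cast, Nat.cast_ofNat] at h4
    have h5 : (v : ℝ) / 1000000000000000000 * ((c : ℝ) / 1000000000000000000) / (n + 1) =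
        (v : ℝ) * c / ((n + 1) * 1000000000000000000) / 1000000000000000000 := by
      field_simp
    rw [h5, le_div_iff₀ (by norm_num), add_mul, div_mul_cancel₀ _ (by norm_num)]
    linarith

theorem sqL_sound : ∀ {n c : Nat} {k : Nat → Bool} {y : ℝ}, 0 ≤ y → (c : ℝ) / 1000000000000000000 ≤ y →
    sqL n c k = true → ∃ s : Nat, (s : ℝ) / 1000000000000000000 ≤ y ^ 2 ^ n ∧ k s = true
  | 0, c, k, y, _, hy, h => ⟨c, by simpa using hy, h⟩
  | n + 1, c, k, y, h0, hy, h => by
    unfold sqL at h
    rw [fN_eq] at h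
    have h1 : ((Nat.div (Nat.mul c c) 1000000000000000000 : Nat) : ℝ) / 1000000000000000000 ≤ y ^ 2 := by
      have h2 := div_cast_le (Nat.mul c c) 1000000000000000000
      rw [mul_cast, Nat.cast_ofNat] at h2
      have h3 : (0 : ℝ) ≤ (c : ℝ) / 1000000000000000000 := by positivity
      calc ((Nat.div (Nat.mul c c) 1000000000000000000 : Nat) : ℝ) / 1000000000000000000
          ≤ (c : ℝ) * c / 1000000000000000000 / 1000000000000000000 := by gcongr
        _ = ((c : ℝ) / 1000000000000000000) ^ 2 := by ring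
        _ ≤ y ^ 2 := by gcongr
    obtain ⟨s, h4, h5⟩ := sqL_sound (sq_nonneg y) h1 h
    refine ⟨s, ?_, h5⟩
    rw [pow_succ, mul_comm, pow_mul]
    exact h4

theorem sqU_sound : ∀ {n c : Nat} {k : Nat → Bool} {y : ℝ}, 0 ≤ y → y ≤ (c : ℝ) / 1000000000000000000 →
    sqU n c k = true → ∃ s : Nat, y ^ 2 ^ n ≤ (s : ℝ) / 1000000000000000000 ∧ k s = true
  | 0, c, k, y, _, hy, h => ⟨c, by simpa using hy, h⟩
  | n + 1, c, k, y, h0, hy, h => by
    unfold sqU at h
    rw [fN_eq] at h
    have h1 : y ^ 2 ≤ ((Nat.succ (Nat.div (Nat.mul c c) 1000000000000000000) : Nat) : ℝ) /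
        1000000000000000000 := by
      have h2 := le_div_cast (Nat.mul c c) (b := 1000000000000000000) (by norm_num)
      rw [mul_cast, Nat.cast_ofNat] at h2
      calc y ^ 2 ≤ ((c : ℝ) / 1000000000000000000) ^ 2 := by gcongr
        _ = (c : ℝ) * c / 1000000000000000000 / 1000000000000000000 := by ring
        _ ≤ ((Nat.succ (Nat.div (Nat.mul c c) 1000000000000000000) : Nat) : ℝ) /
            1000000000000000000 := by
          rw [succ_cast]
          gcongr
    obtain ⟨s, h4, h5⟩ := sqU_sound (sq_nonneg y) h1 h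
    refine ⟨s, ?_, h5⟩
    rw [pow_succ, mul_comm, pow_mul]
    exact h4

theorem expL_sound {Y : Nat} {k : Nat → Bool} {y : ℝ} (hy : y * 1000000000000000000 ≤ Y)
    (h : expL Y k = true) : ∃ s : Nat, (s : ℝ) ≤ Real.exp (-y) * 1000000000000000000 ∧ k s = true := by
  unfold expL at h
  rw [fN_eq] at h
  obtain ⟨hc, h⟩ := br_f h
  obtain ⟨s, h1, h2⟩ := hrU_sound h
  rw [fN_eq] at h2
  have hv1 : ((Nat.succ (Nat.div Y 16) : Nat) : ℝ) / 1000000000000000000 ≤ 1 := by
    rw [div_le_one (by norm_num)]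
    exact_mod_cast ble_true hc
  set v : ℝ := ((Nat.succ (Nat.div Y 16) : Nat) : ℝ) / 1000000000000000000 with hv
  have hv0 : 0 ≤ v := by positivity
  have hvy : y / 16 ≤ v := by
    rw [hv, le_div_iff₀ (by norm_num), succ_cast]
    have h3 := le_div_cast Y (b := 16) (by norm_num)
    rw [Nat.cast_ofNat] at h3
    linarith
  have hexp : Real.exp v ≤ (s : ℝ) / 1000000000000000000 := by
    refine le_trans ?_ h1
    rw [HR_eq]
    have h3 := Real.exp_bound' hv0 hv1 (n := 16) (by norm_num)
    refine h3.trans ?_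
    have h4 : (0 : ℝ) ≤ v ^ 16 := by positivity
    have h5 : ((Nat.factorial 16 : ℕ) : ℝ) = 20922789888000 := by
      norm_num [Nat.factorial]
    rw [h5]
    have h6 : v ^ 16 * (16 + 1) / (20922789888000 * 16) ≤
        2000000000000000000 / 1000000000000000000 * v ^ 16 / 20922789888000 := by
      linarith
    push_cast
    push_cast at h6
    linarith
  have hs0 : (0 : ℝ) < (s : ℝ) / 1000000000000000000 := lt_of_lt_of_le (Real.exp_pos v) hexp
  have hs : (0 : ℝ) < s := by
    by_contra hc2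
    push Not at hc2
    have : (s : ℝ) / 1000000000000000000 ≤ 0 := div_nonpos_of_nonpos_of_nonneg hc2 (by norm_num)
    linarith
  have hr : ((Nat.div 1000000000000000000000000000000000000 s : Nat) : ℝ) / 1000000000000000000 ≤
      Real.exp (-v) := by
    have h3 := div_cast_le 1000000000000000000000000000000000000 s
    rw [Nat.cast_ofNat] at h3
    rw [Real.exp_neg]
    calc ((Nat.div 1000000000000000000000000000000000000 s : Nat) : ℝ) / 1000000000000000000
        ≤ 1000000000000000000000000000000000000 / (s : ℝ) / 1000000000000000000 := by gcongr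
      _ = ((s : ℝ) / 1000000000000000000)⁻¹ := by
          field_simp
          norm_num
      _ ≤ (Real.exp v)⁻¹ := inv_anti₀ (Real.exp_pos v) hexp
  obtain ⟨t, h7, h8⟩ := sqL_sound (Real.exp_pos (-v)).le hr h2
  refine ⟨t, ?_, h8⟩
  rw [div_le_iff₀ (by norm_num)] at h7
  refine h7.trans ?_
  apply mul_le_mul_of_nonneg_right _ (by norm_num)
  rw [← Real.exp_nat_mul]
  apply Real.exp_le_exp.2
  push_cast
  linarith

theorem expU_sound {Y : Nat} {k : Nat → Bool} {y : ℝ} (hy : (Y : ℝ) ≤ y * 1000000000000000000)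
    (h : expU Y k = true) : ∃ s : Nat, Real.exp (-y) * 1000000000000000000 ≤ (s : ℝ) ∧ k s = true := by
  unfold expU at h
  rw [fN_eq] at h
  obtain ⟨s, h1, h0, h2⟩ := hrL_sound h
  rw [fN_eq] at h2
  set v : ℝ := ((Nat.div Y 16 : Nat) : ℝ) / 1000000000000000000 with hv
  have hv0 : 0 ≤ v := by positivity
  have hvy : v ≤ y / 16 := by
    rw [hv, div_le_iff₀ (by norm_num)]
    have h3 := div_cast_le Y 16
    rw [Nat.cast_ofNat] at h3
    linarith
  have hexp : (s : ℝ) / 1000000000000000000 ≤ Real.exp v := by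
    refine h1.trans ?_
    rw [HR_eq]
    have h3 := Real.sum_le_exp_of_nonneg hv0 17
    rw [Finset.sum_range_succ] at h3
    have h4 : ((1000000000000000000 : Nat) : ℝ) / 1000000000000000000 = 1 := by norm_num
    rw [h4, one_mul]
    exact h3
  have hs : (1000000000000000000 : ℝ) ≤ s := by simpa using h0
  have hr : Real.exp (-v) ≤ ((Nat.succ (Nat.div 1000000000000000000000000000000000000 s) : Nat) : ℝ) /
      1000000000000000000 := by
    have h3 := le_div_cast 1000000000000000000000000000000000000 (b := s)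
      (by exact_mod_cast (by linarith : (0 : ℝ) < s))
    rw [Nat.cast_ofNat] at h3
    rw [Real.exp_neg]
    have hs0 : (0 : ℝ) < s := by linarith
    calc (Real.exp v)⁻¹ ≤ ((s : ℝ) / 1000000000000000000)⁻¹ := inv_anti₀ (by positivity) hexp
      _ = 1000000000000000000000000000000000000 / (s : ℝ) / 1000000000000000000 := by
          field_simp
          norm_num
      _ ≤ ((Nat.succ (Nat.div 1000000000000000000000000000000000000 s) : Nat) : ℝ) /
          1000000000000000000 := by
          rw [succ_cast]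
          gcongr
  obtain ⟨t, h7, h8⟩ := sqU_sound (Real.exp_pos (-v)).le hr h2
  refine ⟨t, ?_, h8⟩
  rw [le_div_iff₀ (by norm_num)] at h7
  refine le_trans ?_ h7
  apply mul_le_mul_of_nonneg_right _ (by norm_num)
  rw [← Real.exp_nat_mul]
  apply Real.exp_le_exp.2
  push_cast
  linarith

theorem expK_sound {a : Iv} {k : Iv → Bool} {x : ℝ} (ha : a.mem x) (h : expK a k = true) :
    ∃ c : Iv, c.mem (Real.exp (-x)) ∧ k c = true := by
  unfold expK at h
  obtain ⟨l, h1, h2⟩ := expL_sound ha.2 h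
  obtain ⟨u, h3, h4⟩ := expU_sound ha.1 h2
  exact ⟨_, ⟨h1, h3⟩, h4⟩

end Pool.Agent.H27.XZ
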