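import Mathlib
import Pool.Agent.H40.PRT

/-!
# Numerical bounds for `T(x)` (MP_13978b, InfThreshold): definitions

`TR x = ∑_p 1/(p (log p + x))` (`H40.PR.TR`). For `p ≥ z` the weight is `(1/p) (1/l)` with
`l = log p + x`, and `1/l` is compared with finite sums `∑ w e^{-l t}` (quadrature for
`1/l = ∫ e^{-l t} dt`, with error of one sign). So `T(x)` is compared with the values
`PZ z (1+t) = ∑_{p ≥ z} p^{-1-t}`, and these with `log ζ(1+t)` and `log ζ(2+2t)`.
-/

set_option autoImplicit false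

namespace Pool.Agent.H27.XZ

/-- the zeta function as a real sum (the term `n = 0` vanishes for `s ≠ 0`) -/
noncomputable def Zt (s : ℝ) : ℝ := ∑' n : ℕ, (n : ℝ) ^ (-s)

/-- the terms of the prime zeta function from `z` on -/
noncomputable def pz (z : ℕ) (s : ℝ) (n : ℕ) : ℝ := if n.Prime ∧ z ≤ n then (n : ℝ) ^ (-s) else 0

/-- the prime zeta function from `z` on -/
noncomputable def PZ (z : ℕ) (s : ℝ) : ℝ := ∑' n, pz z s n

/-- zeta without the Euler factors of the primes below `z` -/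
noncomputable def Gz (z : ℕ) (s : ℝ) : ℝ := Zt s * ∏ p ∈ z.primesBelow, (1 - (p : ℝ) ^ (-s))

/-- Euler-Maclaurin approximation of zeta -/
noncomputable def EMu (N : ℕ) (s : ℝ) : ℝ :=
  ∑ n ∈ Finset.range N, (n : ℝ) ^ (-s) + (N : ℝ) ^ (1 - s) / (s - 1) + (N : ℝ) ^ (-s) / 2 +
    s * (N : ℝ) ^ (-s - 1) / 12

/-- its error -/
noncomputable def EMe (N : ℕ) (s : ℝ) : ℝ :=
  s * (s + 1) * (s + 2) / 720 * ((N : ℝ) ^ (-s - 3) * (1 + (s + 3) / N))

/-! ### nodes

A rule is a list of pairs `(c, w)`: on `[m - h, m + h]` the nodes `m ± (c/10^9) h` with weights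
`(w/10^9) h`. A mesh is a list of numbers `A`, standing for the points `2 A / 10^9`. -/

/-- the nodes `(T, W)` of one interval: node `T / 10^18`, weight `W / 10^18` -/
def iv2 (r : List (ℕ × ℕ)) (A B : ℕ) : List (ℕ × ℕ) :=
  match r with
  | [] => []
  | p :: l => ((A + B) * 1000000000 + p.1 * (B - A), p.2 * (B - A)) ::
      ((A + B) * 1000000000 - p.1 * (B - A), p.2 * (B - A)) :: iv2 l A B

/-- the nodes of a mesh -/
def nds (r : List (ℕ × ℕ)) : List ℕ → List (ℕ × ℕ)
  | [] => []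
  | [_] => []
  | a :: b :: l => iv2 r a b ++ nds r (b :: l)

/-- `∑ w c^(2k)` -/
def mom (k : ℕ) : List (ℕ × ℕ) → ℕ
  | [] => 0
  | p :: l => p.2 * p.1 ^ (2 * k) + mom k l

/-- lower rule: `∑ w a^(2k) ≤ 1/(2k+1)` for all `k`, checked for `k ≤ K`; the rest follows from
`a^2 (2K+3) ≤ 2K+1` -/
def okLo (K : ℕ) (r : List (ℕ × ℕ)) : Bool :=
  (List.range (K + 1)).all (fun k => (2 * k + 1) * mom k r ≤ 1000000000 * 1000000000 ^ (2 * k)) &&
    r.all (fun p => p.1 ^ 2 * (2 * K + 3) ≤ (2 * K + 1) * 1000000000 ^ 2)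

/-- upper rule: `∑ w a^(2k) ≥ 1/(2k+1)` for all `k`, checked for `k ≤ K`; the first entry is the
end point `a = 1` with weight at least `1/(2K+1)` -/
def okUp (K : ℕ) (r : List (ℕ × ℕ)) : Bool :=
  (List.range (K + 1)).all (fun k => 1000000000 * 1000000000 ^ (2 * k) ≤ (2 * k + 1) * mom k r) &&
    r.all (fun p => p.1 ≤ 1000000000) &&
    (match r with
      | [] => false
      | p :: _ => (p.1 == 1000000000) && decide (1000000000 ≤ p.2 * (2 * K + 1)))

/-- strictly increasing -/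
def incr : List ℕ → Bool
  | [] => true
  | [_] => true
  | a :: b :: l => decide (a < b) && incr (b :: l)

/-- the value of an exponential sum -/
noncomputable def es (l : List (ℕ × ℕ)) (y : ℝ) : ℝ :=
  (l.map fun p => (p.2 : ℝ) / 10 ^ 18 * Real.exp (-(y * ((p.1 : ℝ) / 10 ^ 18)))).sum

end Pool.Agent.H27.XZ
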