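import Pool.Agent.H27.XZ.Defs

/-!
# EmA : Euler-Maclaurin, upper bound for zeta

PROOF. Let `f u = u^(-s)`, `F u = u^(1-s)/(s-1)` (`F' = -f`), `g u = F u + f u / 2 - f' u / 12`, i.e.
`g n = n^(1-s)/(s-1) + n^(-s)/2 + s n^(-s-1)/12`. CLAIM `step_le`: `f n ≤ g n - g (n+1)` for `n ≥ 1`. Then for `M ≥ N`
`∑_{N ≤ n < M} f n ≤ g N - g M ≤ g N`, so `Zt s ≤ ∑_{n<N} f n + g N` (`tsum_le_of_sum_range_le` or similar).
CLAIM: put `φ h = F n - F (n+h) - h (f n + f (n+h))/2 + h^2 (f' (n+h) - f' n)/12` (`= ∫_n^{n+h} f - trapezoid + correction`) for `0 ≤ h ≤ 1`. Then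
`φ 0 = 0`, `φ' h = f (n+h) - (f n + f (n+h))/2 - h f' (n+h)/2 + h (f' (n+h) - f' n)/6 + h^2 f'' (n+h)/12 =: ψ h`, `ψ 0 = 0`,
`ψ' h = (f' (n+h) - f' n)/6 - h f'' (n+h)/6 + h^2 f''' (n+h)/12 =: χ h`, `χ 0 = 0`, `χ' h = h^2 f'''' (n+h)/12 ≥ 0`, as
`f'''' u = s(s+1)(s+2)(s+3) u^(-s-4) ≥ 0`. So `χ ≥ 0`, `ψ ≥ 0`, `φ ≥ 0` on `[0, 1]` (`monotoneOn_of_deriv_nonneg` three times), and
`φ 1 = g n - g (n+1) - f n`. (`phi_ge` gives `0 ≤ φ 1`; the same file proves `φ 1 ≤ f'''' n / 720` from `f'''' (n+h) ≤ f'''' n`: then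
`χ h ≤ h^3 c/36`, `ψ h ≤ h^4 c/144`, `φ h ≤ h^5 c/720`, `c = f'''' n`.)
-/

set_option autoImplicit false

open Real

namespace Pool.Agent.H27.XZ

/-- `g n` of the header -/
noncomputable def gem (s u : ℝ) : ℝ := u ^ (1 - s) / (s - 1) + u ^ (-s) / 2 + s * u ^ (-s - 1) / 12

private theorem em_nn {G G' : ℝ → ℝ} (h0 : G 0 = 0)
    (hd : ∀ h ∈ Set.Icc (0 : ℝ) 1, HasDerivAt G (G' h) h) (hn : ∀ h ∈ Set.Icc (0 : ℝ) 1, 0 ≤ G' h) :
    ∀ h ∈ Set.Icc (0 : ℝ) 1, 0 ≤ G h := by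
  intro h hh
  have hm : MonotoneOn G (Set.Icc 0 1) :=
    monotoneOn_of_deriv_nonneg (convex_Icc 0 1)
      (fun x hx => (hd x hx).continuousAt.continuousWithinAt)
      (fun x hx => (hd x (interior_subset hx)).differentiableAt.differentiableWithinAt)
      (fun x hx => by
        rw [(hd x (interior_subset hx)).deriv]
        exact hn x (interior_subset hx))
  have h1 := hm (Set.left_mem_Icc.2 zero_le_one) hh hh.1
  rwa [h0] at h1

private theorem em_aux {F f0 f1 f2 f3 f4 : ℝ → ℝ} {c : ℝ}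
    (dF : ∀ h ∈ Set.Icc (0 : ℝ) 1, HasDerivAt F (-f0 h) h)
    (d0 : ∀ h ∈ Set.Icc (0 : ℝ) 1, HasDerivAt f0 (f1 h) h)
    (d1 : ∀ h ∈ Set.Icc (0 : ℝ) 1, HasDerivAt f1 (f2 h) h)
    (d2 : ∀ h ∈ Set.Icc (0 : ℝ) 1, HasDerivAt f2 (f3 h) h)
    (d3 : ∀ h ∈ Set.Icc (0 : ℝ) 1, HasDerivAt f3 (f4 h) h)
    (l : ∀ h ∈ Set.Icc (0 : ℝ) 1, 0 ≤ f4 h) (r : ∀ h ∈ Set.Icc (0 : ℝ) 1, f4 h ≤ c) :
    0 ≤ F 0 - F 1 - (f0 0 + f0 1) / 2 + (f1 1 - f1 0) / 12 ∧
      F 0 - F 1 - (f0 0 + f0 1) / 2 + (f1 1 - f1 0) / 12 ≤ c / 720 := by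
  have dχ : ∀ h ∈ Set.Icc (0 : ℝ) 1, HasDerivAt
      (fun h => (f1 h - f1 0) / 6 - h * f2 h / 6 + h ^ 2 * f3 h / 12) (h ^ 2 * f4 h / 12) h := by
    intro h hh
    have e := ((((d1 h hh).sub_const (f1 0)).div_const 6).sub
      (((hasDerivAt_id h).mul (d2 h hh)).div_const 6)).add
      ((((hasDerivAt_id h).pow 2).mul (d3 h hh)).div_const 12)
    refine (e.congr_deriv ?_)
    simp only [id, Pi.pow_apply]
    ring
  have dψ : ∀ h ∈ Set.Icc (0 : ℝ) 1, HasDerivAt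
      (fun h => f0 h - (f0 0 + f0 h) / 2 - h * f1 h / 2 + h * (f1 h - f1 0) / 6 + h ^ 2 * f2 h / 12)
      ((f1 h - f1 0) / 6 - h * f2 h / 6 + h ^ 2 * f3 h / 12) h := by
    intro h hh
    have e := (((((d0 h hh).sub (((d0 h hh).const_add (f0 0)).div_const 2)).sub
      (((hasDerivAt_id h).mul (d1 h hh)).div_const 2)).add
      (((hasDerivAt_id h).mul ((d1 h hh).sub_const (f1 0))).div_const 6))).add
      ((((hasDerivAt_id h).pow 2).mul (d2 h hh)).div_const 12)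
    refine (e.congr_deriv ?_)
    simp only [id, Pi.pow_apply]
    ring
  have dφ : ∀ h ∈ Set.Icc (0 : ℝ) 1, HasDerivAt
      (fun h => F 0 - F h - h * (f0 0 + f0 h) / 2 + h ^ 2 * (f1 h - f1 0) / 12)
      (f0 h - (f0 0 + f0 h) / 2 - h * f1 h / 2 + h * (f1 h - f1 0) / 6 + h ^ 2 * f2 h / 12) h := by
    intro h hh
    have e := (((dF h hh).const_sub (F 0)).sub
      (((hasDerivAt_id h).mul ((d0 h hh).const_add (f0 0))).div_const 2)).add
      ((((hasDerivAt_id h).pow 2).mul ((d1 h hh).sub_const (f1 0))).div_const 12)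
    refine (e.congr_deriv ?_)
    simp only [id, Pi.pow_apply]
    ring
  have m1 : (1 : ℝ) ∈ Set.Icc (0 : ℝ) 1 := Set.right_mem_Icc.2 zero_le_one
  constructor
  · have hχ := em_nn (by simp) dχ (fun h hh => by
      have := l h hh
      positivity)
    have hψ := em_nn (by simp) dψ hχ
    have hφ := em_nn (by simp) dφ hψ 1 m1
    linarith
  · have dχ' : ∀ h ∈ Set.Icc (0 : ℝ) 1, HasDerivAt
        (fun h => c * h ^ 3 / 36 - ((f1 h - f1 0) / 6 - h * f2 h / 6 + h ^ 2 * f3 h / 12))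
        (c * h ^ 2 / 12 - h ^ 2 * f4 h / 12) h := by
      intro h hh
      refine ((((((hasDerivAt_id h).pow 3).const_mul c).div_const 36).sub (dχ h hh)).congr_deriv ?_)
      simp only [id]
      ring
    have dψ' : ∀ h ∈ Set.Icc (0 : ℝ) 1, HasDerivAt
        (fun h => c * h ^ 4 / 144 -
          (f0 h - (f0 0 + f0 h) / 2 - h * f1 h / 2 + h * (f1 h - f1 0) / 6 + h ^ 2 * f2 h / 12))
        (c * h ^ 3 / 36 - ((f1 h - f1 0) / 6 - h * f2 h / 6 + h ^ 2 * f3 h / 12)) h := by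
      intro h hh
      refine ((((((hasDerivAt_id h).pow 4).const_mul c).div_const 144).sub (dψ h hh)).congr_deriv ?_)
      simp only [id]
      ring
    have dφ' : ∀ h ∈ Set.Icc (0 : ℝ) 1, HasDerivAt
        (fun h => c * h ^ 5 / 720 - (F 0 - F h - h * (f0 0 + f0 h) / 2 + h ^ 2 * (f1 h - f1 0) / 12))
        (c * h ^ 4 / 144 -
          (f0 h - (f0 0 + f0 h) / 2 - h * f1 h / 2 + h * (f1 h - f1 0) / 6 + h ^ 2 * f2 h / 12)) h := by
      intro h hh
      refine ((((((hasDerivAt_id h).pow 5).const_mul c).div_const 720).sub (dφ h hh)).congr_deriv ?_)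
      simp only [id]
      ring
    have hχ := em_nn (by simp) dχ' (fun h hh => by
      have h1 := r h hh
      have h2 : 0 ≤ h ^ 2 * (c - f4 h) := mul_nonneg (sq_nonneg h) (sub_nonneg.2 h1)
      linarith)
    have hψ := em_nn (by simp) dψ' hχ
    have hφ := em_nn (by simp) dφ' hψ 1 m1
    linarith

private theorem em_rp (u p : ℝ) (hu : 1 ≤ u) (h : ℝ) (hh : h ∈ Set.Icc (0 : ℝ) 1) :
    HasDerivAt (fun h => (u + h) ^ p) (p * (u + h) ^ (p - 1)) h := by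
  have h1 : u + h ≠ 0 := by
    have := hh.1
    linarith
  have h2 := (Real.hasDerivAt_rpow_const (x := u + h) (p := p) (Or.inl h1))
  exact h2.comp_const_add u h

private theorem em_both {s : ℝ} (hs : 1 < s) {u : ℝ} (hu : 1 ≤ u) :
    0 ≤ gem s u - gem s (u + 1) - u ^ (-s) ∧
      gem s u - gem s (u + 1) - u ^ (-s) ≤ s * (s + 1) * (s + 2) * (s + 3) * u ^ (-s - 4) / 720 := by
  have hs1 : s - 1 ≠ 0 := by linarith
  have key := em_aux (F := fun h => (u + h) ^ (1 - s) / (s - 1)) (f0 := fun h => (u + h) ^ (-s))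
    (f1 := fun h => -s * (u + h) ^ (-s - 1)) (f2 := fun h => s * (s + 1) * (u + h) ^ (-s - 2))
    (f3 := fun h => -(s * (s + 1) * (s + 2)) * (u + h) ^ (-s - 3))
    (f4 := fun h => s * (s + 1) * (s + 2) * (s + 3) * (u + h) ^ (-s - 4))
    (c := s * (s + 1) * (s + 2) * (s + 3) * u ^ (-s - 4))
    (fun h hh => by
      refine (((em_rp u (1 - s) hu h hh).div_const (s - 1)).congr_deriv ?_)
      have e : 1 - s - 1 = -s := by ring
      rw [e]
      field_simp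
      ring)
    (fun h hh => by
      refine ((em_rp u (-s) hu h hh).congr_deriv ?_)
      rfl)
    (fun h hh => by
      refine (((em_rp u (-s - 1) hu h hh).const_mul (-s)).congr_deriv ?_)
      have e : -s - 1 - 1 = -s - 2 := by ring
      rw [e]
      ring)
    (fun h hh => by
      refine (((em_rp u (-s - 2) hu h hh).const_mul (s * (s + 1))).congr_deriv ?_)
      have e : -s - 2 - 1 = -s - 3 := by ring
      rw [e]
      ring)
    (fun h hh => by
      refine (((em_rp u (-s - 3) hu h hh).const_mul (-(s * (s + 1) * (s + 2)))).congr_deriv ?_)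
      have e : -s - 3 - 1 = -s - 4 := by ring
      rw [e]
      ring)
    (fun h hh => by
      have h1 : 0 ≤ (u + h) ^ (-s - 4) := Real.rpow_nonneg (by linarith [hh.1]) _
      have h2 : 0 ≤ s * (s + 1) * (s + 2) * (s + 3) := by positivity
      exact mul_nonneg h2 h1)
    (fun h hh => by
      have h1 : (u + h) ^ (-s - 4) ≤ u ^ (-s - 4) :=
        Real.rpow_le_rpow_of_nonpos (by linarith) (by linarith [hh.1]) (by linarith)
      have h2 : 0 ≤ s * (s + 1) * (s + 2) * (s + 3) := by positivity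
      exact mul_le_mul_of_nonneg_left h1 h2)
  simp only [add_zero] at key
  unfold gem
  constructor
  · have h1 := key.1
    linarith
  · have h1 := key.2
    linarith

theorem step_le {s : ℝ} (hs : 1 < s) {u : ℝ} (hu : 1 ≤ u) :
    u ^ (-s) ≤ gem s u - gem s (u + 1) := by
  have h1 := (em_both hs hu).1
  linarith

theorem step_ge {s : ℝ} (hs : 1 < s) {u : ℝ} (hu : 1 ≤ u) :
    gem s u - gem s (u + 1) - s * (s + 1) * (s + 2) * (s + 3) * u ^ (-s - 4) / 720 ≤ u ^ (-s) := by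
  have h1 := (em_both hs hu).2
  linarith

end Pool.Agent.H27.XZ
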