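import Pool.Agent.H27.XZ.EmA

/-!
# EmB : Euler-Maclaurin for zeta

PROOF. `EMu N s = ∑_{n<N} n^(-s) + gem s N`. `summable_pow`: the p-series. Upper bound: sum `step_le` over `N ≤ n < M`, `gem s M ≥ 0`.
Lower bound: sum `step_ge`; `gem s M → 0` for `M → ∞`; and `∑_{N ≤ n < M} n^(-s-4) ≤ N^(-s-4) + N^(-s-3)/(s+3)` (compare with the
integral; or: `n^(-s-4) ≤ (n-1)^(-s-3)/(s+3) - n^(-s-3)/(s+3)` for `n ≥ 2` by the mean value theorem). So the error is at most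
`s(s+1)(s+2)(s+3)/720 (N^(-s-4) + N^(-s-3)/(s+3)) = EMe N s`. `Zt_one_add`: `N = 1` in the integral test, `Zt s ≤ 1 + 1/(s-1)`
(`n^(-s) ≤ ((n-1)^(1-s) - n^(1-s))/(s-1)` for `n ≥ 2`).
-/

set_option autoImplicit false

open Real

namespace Pool.Agent.H27.XZ

private theorem emB_gem_nonneg {s : ℝ} (hs : 1 < s) {u : ℝ} (hu : 0 ≤ u) : 0 ≤ gem s u := by
  unfold gem
  have h1 : 0 ≤ u ^ (1 - s) := rpow_nonneg hu _
  have h2 : 0 ≤ u ^ (-s) := rpow_nonneg hu _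
  have h3 : 0 ≤ u ^ (-s - 1) := rpow_nonneg hu _
  have h4 : 0 < s - 1 := by linarith
  positivity

private theorem emB_EMu (N : ℕ) (s : ℝ) :
    EMu N s = ∑ n ∈ Finset.range N, (n : ℝ) ^ (-s) + gem s N := by
  unfold EMu gem
  ring

/-- one step of the comparison with the integral -/
private theorem emB_step {q : ℝ} (hq : 0 < q) {u : ℝ} (hu : 0 < u) :
    (u + 1) ^ (-q - 1) ≤ (u ^ (-q) - (u + 1) ^ (-q)) / q := by
  have hu1 : 0 < u + 1 := by linarith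
  have ht : 0 < u / (u + 1) := by positivity
  have h1 : (u / (u + 1)) ^ (-q) = u ^ (-q) / (u + 1) ^ (-q) := div_rpow hu.le hu1.le _
  have h2 : 0 < (u + 1) ^ (-q) := rpow_pos_of_pos hu1 _
  have h3 : 1 + q / (u + 1) ≤ (u / (u + 1)) ^ (-q) := by
    rw [rpow_def_of_pos ht]
    have h4 := add_one_le_exp (log (u / (u + 1)) * -q)
    have h5 := log_le_sub_one_of_pos ht
    have h6 : u / (u + 1) - 1 = -(1 / (u + 1)) := by
      field_simp
      ring
    rw [h6] at h5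
    have h7 : log (u / (u + 1)) * q ≤ -(1 / (u + 1)) * q := mul_le_mul_of_nonneg_right h5 hq.le
    have h8 : -(1 / (u + 1)) * q = -(q / (u + 1)) := by ring
    rw [h8] at h7
    linarith
  rw [h1, le_div_iff₀ h2] at h3
  rw [le_div_iff₀ hq, rpow_sub_one hu1.ne']
  have h9 : (1 + q / (u + 1)) * (u + 1) ^ (-q) = (u + 1) ^ (-q) + (u + 1) ^ (-q) / (u + 1) * q := by
    field_simp
  linarith

/-- tails -/
private theorem emB_tail {q : ℝ} (hq : 0 < q) {N : ℕ} (hN : 1 ≤ N) (M : ℕ) :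
    ∑ i ∈ Finset.range (M + 1), ((N + i : ℕ) : ℝ) ^ (-q - 1) ≤
      (N : ℝ) ^ (-q - 1) + ((N : ℝ) ^ (-q) - ((N + M : ℕ) : ℝ) ^ (-q)) / q := by
  induction M with
  | zero => simp
  | succ M ih =>
    rw [Finset.sum_range_succ]
    have hu : (0 : ℝ) < ((N + M : ℕ) : ℝ) := by
      have : 0 < N + M := by omega
      exact_mod_cast this
    have h1 := emB_step hq hu
    have h2 : ((N + (M + 1) : ℕ) : ℝ) = ((N + M : ℕ) : ℝ) + 1 := by push_cast; ring
    rw [h2]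
    have h3 : ((N : ℝ) ^ (-q) - (((N + M : ℕ) : ℝ) + 1) ^ (-q)) / q =
        ((N : ℝ) ^ (-q) - ((N + M : ℕ) : ℝ) ^ (-q)) / q +
          (((N + M : ℕ) : ℝ) ^ (-q) - (((N + M : ℕ) : ℝ) + 1) ^ (-q)) / q := by ring
    rw [h3]
    linarith

private theorem emB_tail' {q : ℝ} (hq : 0 < q) {N : ℕ} (hN : 1 ≤ N) (M : ℕ) :
    ∑ i ∈ Finset.range M, ((N + i : ℕ) : ℝ) ^ (-q - 1) ≤
      (N : ℝ) ^ (-q - 1) + (N : ℝ) ^ (-q) / q := by
  have h1 := emB_tail hq hN M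
  rw [Finset.sum_range_succ] at h1
  have h2 : 0 ≤ ((N + M : ℕ) : ℝ) ^ (-q - 1) := rpow_nonneg (Nat.cast_nonneg _) _
  have h3 : 0 ≤ ((N + M : ℕ) : ℝ) ^ (-q) := rpow_nonneg (Nat.cast_nonneg _) _
  have h4 : ((N : ℝ) ^ (-q) - ((N + M : ℕ) : ℝ) ^ (-q)) / q ≤ (N : ℝ) ^ (-q) / q := by
    gcongr
    linarith
  linarith

theorem summable_pow {s : ℝ} (hs : 1 < s) : Summable (fun n : ℕ => (n : ℝ) ^ (-s)) :=
  Real.summable_nat_rpow.2 (by linarith)

private theorem emB_up {N : ℕ} (hN : 1 ≤ N) {s : ℝ} (hs : 1 < s) (M : ℕ) :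
    ∑ n ∈ Finset.range (N + M), (n : ℝ) ^ (-s) ≤
      ∑ n ∈ Finset.range N, (n : ℝ) ^ (-s) + gem s N - gem s ((N + M : ℕ) : ℝ) := by
  induction M with
  | zero => simp
  | succ M ih =>
    rw [← add_assoc, Finset.sum_range_succ]
    have hu : (1 : ℝ) ≤ ((N + M : ℕ) : ℝ) := by
      have : 1 ≤ N + M := by omega
      exact_mod_cast this
    have h1 := step_le hs hu
    have h2 : ((N + M + 1 : ℕ) : ℝ) = ((N + M : ℕ) : ℝ) + 1 := by push_cast; ring
    rw [h2]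
    linarith

private theorem emB_lo {N : ℕ} (hN : 1 ≤ N) {s : ℝ} (hs : 1 < s) (M : ℕ) :
    ∑ n ∈ Finset.range N, (n : ℝ) ^ (-s) + gem s N - gem s ((N + M : ℕ) : ℝ) -
      s * (s + 1) * (s + 2) * (s + 3) / 720 * ∑ i ∈ Finset.range M, ((N + i : ℕ) : ℝ) ^ (-s - 4) ≤
      ∑ n ∈ Finset.range (N + M), (n : ℝ) ^ (-s) := by
  induction M with
  | zero => simp
  | succ M ih =>
    rw [← add_assoc, Finset.sum_range_succ _ (N + M), Finset.sum_range_succ _ M]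
    have hu : (1 : ℝ) ≤ ((N + M : ℕ) : ℝ) := by
      have : 1 ≤ N + M := by omega
      exact_mod_cast this
    have h1 := step_ge hs hu
    have h2 : ((N + M + 1 : ℕ) : ℝ) = ((N + M : ℕ) : ℝ) + 1 := by push_cast; ring
    rw [h2, mul_add]
    have h3 : s * (s + 1) * (s + 2) * (s + 3) * ((N + M : ℕ) : ℝ) ^ (-s - 4) / 720 =
        s * (s + 1) * (s + 2) * (s + 3) / 720 * ((N + M : ℕ) : ℝ) ^ (-s - 4) := by ring
    rw [h3] at h1
    linarith

theorem Zt_le {N : ℕ} (hN : 1 ≤ N) {s : ℝ} (hs : 1 < s) : Zt s ≤ EMu N s := by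
  rw [emB_EMu]
  unfold Zt
  refine (summable_pow hs).tsum_le_of_sum_range_le fun M => ?_
  have h1 := emB_up hN hs M
  have h2 : 0 ≤ gem s ((N + M : ℕ) : ℝ) := emB_gem_nonneg hs (Nat.cast_nonneg _)
  have h3 : ∑ n ∈ Finset.range M, (n : ℝ) ^ (-s) ≤ ∑ n ∈ Finset.range (N + M), (n : ℝ) ^ (-s) := by
    refine Finset.sum_le_sum_of_subset_of_nonneg ?_ fun n _ _ => rpow_nonneg (Nat.cast_nonneg _) _
    intro n hn
    rw [Finset.mem_range] at hn ⊢
    omega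
  linarith

private theorem emB_gem_tendsto {s : ℝ} (hs : 1 < s) (N : ℕ) :
    Filter.Tendsto (fun M : ℕ => gem s ((N + M : ℕ) : ℝ)) Filter.atTop (nhds 0) := by
  have hc : Filter.Tendsto (fun M : ℕ => ((N + M : ℕ) : ℝ)) Filter.atTop Filter.atTop := by
    refine tendsto_natCast_atTop_atTop.comp ?_
    exact Filter.tendsto_atTop_mono (fun M => Nat.le_add_left M N) Filter.tendsto_id
  have h1 : Filter.Tendsto (fun u : ℝ => u ^ (1 - s)) Filter.atTop (nhds 0) := by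
    have := tendsto_rpow_neg_atTop (y := s - 1) (by linarith)
    simpa using this
  have h2 : Filter.Tendsto (fun u : ℝ => u ^ (-s)) Filter.atTop (nhds 0) :=
    tendsto_rpow_neg_atTop (by linarith)
  have h3 : Filter.Tendsto (fun u : ℝ => u ^ (-s - 1)) Filter.atTop (nhds 0) := by
    have := tendsto_rpow_neg_atTop (y := s + 1) (by linarith)
    have e : -(s + 1) = -s - 1 := by ring
    rwa [e] at this
  have h4 : Filter.Tendsto (gem s) Filter.atTop (nhds 0) := by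
    have h5 := ((h1.div_const (s - 1)).add (h2.div_const 2)).add ((h3.const_mul s).div_const 12)
    have e : (0 : ℝ) / (s - 1) + 0 / 2 + s * 0 / 12 = 0 := by simp
    rw [e] at h5
    exact h5
  exact h4.comp hc

theorem Zt_ge {N : ℕ} (hN : 1 ≤ N) {s : ℝ} (hs : 1 < s) : EMu N s - EMe N s ≤ Zt s := by
  have hN0 : (0 : ℝ) < N := by exact_mod_cast hN
  have hC : 0 ≤ s * (s + 1) * (s + 2) * (s + 3) / 720 := by positivity
  have hE : EMe N s = s * (s + 1) * (s + 2) * (s + 3) / 720 *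
      ((N : ℝ) ^ (-(s + 3) - 1) + (N : ℝ) ^ (-(s + 3)) / (s + 3)) := by
    unfold EMe
    have e1 : -s - 3 = -(s + 3) := by ring
    have e2 : s + 3 ≠ 0 := by linarith
    rw [e1, rpow_sub_one hN0.ne']
    field_simp
    ring
  have key : ∀ M : ℕ, EMu N s - EMe N s - gem s ((N + M : ℕ) : ℝ) ≤ Zt s := by
    intro M
    have h1 := emB_lo hN hs M
    have h2 := emB_tail' (q := s + 3) (by linarith) hN M
    have e1 : -(s + 3) - 1 = -s - 4 := by ring
    have h3 : s * (s + 1) * (s + 2) * (s + 3) / 720 *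
        ∑ i ∈ Finset.range M, ((N + i : ℕ) : ℝ) ^ (-s - 4) ≤ EMe N s := by
      rw [hE]
      refine mul_le_mul_of_nonneg_left ?_ hC
      rw [← e1]
      exact h2
    have h4 : ∑ n ∈ Finset.range (N + M), (n : ℝ) ^ (-s) ≤ Zt s :=
      (summable_pow hs).sum_le_tsum _ fun n _ => rpow_nonneg (Nat.cast_nonneg _) _
    rw [emB_EMu]
    linarith
  have h5 := (emB_gem_tendsto hs N).const_sub (EMu N s - EMe N s)
  rw [sub_zero] at h5
  exact le_of_tendsto' h5 key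

theorem Zt_simple {t : ℝ} (ht : 0 < t) : Zt (1 + t) ≤ 1 + 1 / t := by
  unfold Zt
  refine (summable_pow (by linarith : 1 < 1 + t)).tsum_le_of_sum_range_le fun M => ?_
  have h1 := emB_tail' ht (le_refl 1) M
  have h2 : ∑ n ∈ Finset.range M, (n : ℝ) ^ (-(1 + t)) ≤
      ∑ n ∈ Finset.range (M + 1), (n : ℝ) ^ (-(1 + t)) := by
    rw [Finset.sum_range_succ]
    have : 0 ≤ (M : ℝ) ^ (-(1 + t)) := rpow_nonneg (Nat.cast_nonneg _) _
    linarith
  have h3 : ∑ n ∈ Finset.range (M + 1), (n : ℝ) ^ (-(1 + t)) =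
      ∑ i ∈ Finset.range M, ((1 + i : ℕ) : ℝ) ^ (-t - 1) := by
    rw [Finset.sum_range_succ']
    have e0 : ((0 : ℕ) : ℝ) ^ (-(1 + t)) = 0 := by
      rw [Nat.cast_zero, zero_rpow (by linarith)]
    rw [e0, add_zero]
    refine Finset.sum_congr rfl fun i _ => ?_
    have e1 : -(1 + t) = -t - 1 := by ring
    rw [e1, add_comm i 1]
  rw [h3] at h2
  refine h2.trans (h1.trans ?_)
  simp

end Pool.Agent.H27.XZ
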