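import Pool.Agent.H27.XZ.Defs

/-!
# EulA : upper bound for the prime zeta function

PROOF. For `s > 1` the function `n ↦ n^(-s)` is completely multiplicative and summable, so (Mathlib:
`EulerProduct.eulerProduct_completely_multiplicative_hasProd` or `..._tendsto`, over `ℝ`; the file
`H40/PROdd.lean` has an example) `∏_{p < N} (1 - p^(-s))⁻¹ → Zt s`, and after taking logarithms
`∑_{p ≥ z} - log (1 - p^(-s)) = log (Gz z s)` (`hasSum_log`; `Gz z s > 0`, all factors are positive).
For `0 ≤ y < 1`: `y ≤ - log (1 - y) + 1/2 log (1 - y^2)` (the right side is `artanh y`; derivative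
`1/(1-y^2) ≥ 1`, value `0` at `0`; Mathlib also has `Real.hasSum_log_sub_log_of_abs_lt_one`), and
`p^(-2s) = (p^(-s))^2`. `PZ_le_log`: `y ≤ - log (1 - y)`.
-/

set_option autoImplicit false

open Real

namespace Pool.Agent.H27.XZ

private noncomputable def ff (s : ℝ) (hs : 1 < s) : ℕ →*₀ ℝ where
  toFun n := (n : ℝ) ^ (-s)
  map_zero' := by
    have h : (-s) ≠ 0 := by linarith
    simp [Real.zero_rpow h]
  map_one' := by simp
  map_mul' m n := by
    push_cast
    exact Real.mul_rpow (Nat.cast_nonneg _) (Nat.cast_nonneg _)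

private theorem sum_rpow {s : ℝ} (hs : 1 < s) : Summable (fun n : ℕ => (n : ℝ) ^ (-s)) :=
  Real.summable_nat_rpow.2 (by linarith)

private theorem rp_nonneg (n : ℕ) (s : ℝ) : 0 ≤ (n : ℝ) ^ (-s) :=
  Real.rpow_nonneg (Nat.cast_nonneg n) _

private theorem rp_lt {n : ℕ} (hn : n.Prime) {s : ℝ} (hs : 1 < s) : (n : ℝ) ^ (-s) < 1 := by
  apply Real.rpow_lt_one_of_one_lt_of_neg
  · exact_mod_cast hn.one_lt
  · linarith

private theorem Zt_pos {s : ℝ} (hs : 1 < s) : 0 < Zt s := by
  unfold Zt
  refine (sum_rpow hs).tsum_pos (fun n => rp_nonneg n s) 1 ?_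
  simp

theorem summable_pz (z : ℕ) {s : ℝ} (hs : 1 < s) : Summable (pz z s) := by
  refine Summable.of_nonneg_of_le (fun n => ?_) (fun n => ?_) (sum_rpow hs)
  · unfold pz
    split_ifs
    · exact rp_nonneg n s
    · exact le_rfl
  · unfold pz
    split_ifs
    · exact le_rfl
    · exact rp_nonneg n s

private theorem prod_pos' (z : ℕ) {s : ℝ} (hs : 1 < s) :
    0 < ∏ p ∈ z.primesBelow, (1 - (p : ℝ) ^ (-s)) := by
  refine Finset.prod_pos fun p hp => ?_
  have := rp_lt (Nat.prime_of_mem_primesBelow hp) hs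
  linarith

theorem Gz_pos (z : ℕ) {s : ℝ} (hs : 1 < s) : 0 < Gz z s :=
  mul_pos (Zt_pos hs) (prod_pos' z hs)

private noncomputable def LL (s : ℝ) (n : ℕ) : ℝ :=
  if n.Prime then -Real.log (1 - (n : ℝ) ^ (-s)) else 0

private theorem LL_nonneg {s : ℝ} (hs : 1 < s) (n : ℕ) : 0 ≤ LL s n := by
  unfold LL
  split_ifs with h
  · have h1 := rp_lt h hs
    have h2 := rp_nonneg n s
    have := Real.log_nonpos (x := 1 - (n : ℝ) ^ (-s)) (by linarith) (by linarith)
    linarith
  · exact le_rfl

private theorem LL_range {s : ℝ} (hs : 1 < s) (N : ℕ) :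
    ∑ n ∈ Finset.range N, LL s n = Real.log (∏ p ∈ N.primesBelow, (1 - (ff s hs) p)⁻¹) := by
  rw [Real.log_prod]
  · unfold LL Nat.primesBelow
    rw [Finset.sum_filter]
    refine Finset.sum_congr rfl fun n _ => ?_
    split_ifs with h
    · rw [Real.log_inv]
      rfl
    · rfl
  · intro p hp
    have := rp_lt (Nat.prime_of_mem_primesBelow hp) hs
    have h2 : (ff s hs) p = (p : ℝ) ^ (-s) := rfl
    rw [h2]
    apply inv_ne_zero
    linarith

private theorem LL_hasSum {s : ℝ} (hs : 1 < s) : HasSum (LL s) (Real.log (Zt s)) := by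
  rw [hasSum_iff_tendsto_nat_of_nonneg (LL_nonneg hs)]
  have h1 : Summable (fun n => ‖(ff s hs) n‖) := by
    have : (fun n => ‖(ff s hs) n‖) = fun n : ℕ => (n : ℝ) ^ (-s) := by
      funext n
      exact Real.norm_of_nonneg (rp_nonneg n s)
    rw [this]
    exact sum_rpow hs
  have h2 := EulerProduct.eulerProduct_completely_multiplicative h1
  have h3 : (∑' n, (ff s hs) n) = Zt s := rfl
  rw [h3] at h2
  have h4 := (Real.continuousAt_log (Zt_pos hs).ne').tendsto.comp h2
  refine h4.congr fun N => ?_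
  exact (LL_range hs N).symm

/-- the logarithm of the Euler product -/
theorem hasSum_log (z : ℕ) {s : ℝ} (hs : 1 < s) :
    HasSum (fun n : ℕ => if n.Prime ∧ z ≤ n then -Real.log (1 - (n : ℝ) ^ (-s)) else 0)
      (Real.log (Gz z s)) := by
  have h1 := LL_hasSum hs
  have h2 : HasSum (fun n : ℕ => if n ∈ Finset.range z then LL s n else 0)
      (∑ n ∈ Finset.range z, (if n ∈ Finset.range z then LL s n else 0)) := by
    apply hasSum_sum_of_ne_finset_zero
    intro b hb
    exact if_neg hb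
  have h3 := h1.sub h2
  have e1 : (∑ n ∈ Finset.range z, (if n ∈ Finset.range z then LL s n else 0))
      = -Real.log (∏ p ∈ z.primesBelow, (1 - (p : ℝ) ^ (-s))) := by
    rw [Finset.sum_congr rfl (g := LL s) (fun n hn => if_pos hn)]
    rw [Real.log_prod]
    · unfold LL Nat.primesBelow
      rw [Finset.sum_filter, ← Finset.sum_neg_distrib]
      refine Finset.sum_congr rfl fun n _ => ?_
      split_ifs <;> simp
    · intro p hp
      have := rp_lt (Nat.prime_of_mem_primesBelow hp) hs
      linarith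
  have e2 : Real.log (Gz z s) = Real.log (Zt s) -
      (∑ n ∈ Finset.range z, (if n ∈ Finset.range z then LL s n else 0)) := by
    rw [e1, Gz, Real.log_mul (Zt_pos hs).ne' (prod_pos' z hs).ne']
    ring
  rw [e2]
  have e3 : (fun n : ℕ => if n.Prime ∧ z ≤ n then -Real.log (1 - (n : ℝ) ^ (-s)) else 0)
      = fun n : ℕ => LL s n - (if n ∈ Finset.range z then LL s n else 0) := by
    funext n
    by_cases hz : n < z
    · have h5 : ¬ z ≤ n := not_le.2 hz
      simp [LL, h5, hz]
    · have h5 : z ≤ n := not_lt.1 hz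
      simp [LL, h5, hz]
  rw [e3]
  exact h3

private theorem art {y : ℝ} (h0 : 0 ≤ y) (h1 : y < 1) :
    y ≤ -Real.log (1 - y) + Real.log (1 - y ^ 2) / 2 := by
  have hs := Real.hasSum_log_sub_log_of_abs_lt_one (x := y) (by rw [abs_of_nonneg h0]; exact h1)
  have h2 := hs.tsum_eq
  have h3 := sum_le_hasSum {0} (fun i _ => by positivity) hs
  have h4 : Real.log (1 - y ^ 2) = Real.log (1 + y) + Real.log (1 - y) := by
    rw [← Real.log_mul (by linarith) (by linarith)]
    congr 1
    ring
  rw [h4]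
  simp at h3
  linarith

theorem PZ_le (z : ℕ) {s : ℝ} (hs : 1 < s) :
    PZ z s ≤ Real.log (Gz z s) - Real.log (Gz z (2 * s)) / 2 := by
  have h1 := hasSum_log z hs
  have h2 := (hasSum_log z (s := 2 * s) (by linarith)).div_const 2
  refine hasSum_le (fun n => ?_) (summable_pz z hs).hasSum (h1.sub h2)
  unfold pz
  by_cases h : n.Prime ∧ z ≤ n
  · simp only [if_pos h]
    have e : (n : ℝ) ^ (-(2 * s)) = ((n : ℝ) ^ (-s)) ^ 2 := by
      rw [← Real.rpow_natCast, ← Real.rpow_mul (Nat.cast_nonneg n)]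
      congr 1
      push_cast
      ring
    rw [e]
    have := art (rp_nonneg n s) (rp_lt h.1 hs)
    linarith
  · simp only [if_neg h]
    norm_num

theorem PZ_le_log (z : ℕ) {s : ℝ} (hs : 1 < s) : PZ z s ≤ Real.log (Gz z s) := by
  refine hasSum_le (fun n => ?_) (summable_pz z hs).hasSum (hasSum_log z hs)
  unfold pz
  by_cases h : n.Prime ∧ z ≤ n
  · simp only [if_pos h]
    have h1 := rp_lt h.1 hs
    have := Real.log_le_sub_one_of_pos (x := 1 - (n : ℝ) ^ (-s)) (by linarith)
    linarith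
  · simp only [if_neg h]
    norm_num

theorem PZ_nonneg (z : ℕ) (s : ℝ) : 0 ≤ PZ z s := by
  refine tsum_nonneg fun n => ?_
  unfold pz
  split_ifs
  · exact rp_nonneg n s
  · exact le_rfl

end Pool.Agent.H27.XZ
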