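import Pool.Agent.H27.XZ.EulA

/-!
# EulB : lower bound for the prime zeta function

PROOF. With `s = 1 + t`, `y = p^(-s)`: `- log (1 - y) + 1/2 log (1 - y^2) = artanh y ≤ y + y^3/(3(1-y^2))`
(`0 ≤ y < 1`: the difference `y + y^3/(3(1-y^2)) - artanh y` vanishes at `0` and has derivative
`1 + (3y^2 - y^4)/(3(1-y^2)^2) - 1/(1-y^2) = 2 y^4/(3(1-y^2)^2) ≥ 0`; or use the series). For a prime `p ≥ z`: `y^2 ≤ z^(-2)`, so
`1/(1-y^2) ≤ z^2/(z^2-1)`, and `y^3 = p^(-3) (p^(-t))^3 ≤ p^(-3) (z^(-t))^3`. A prime `p ≥ z ≥ 4` is odd and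
`p ≥ z+1`; `1/n^3 ≤ 1/4 (1/(n-1)^2 - 1/(n+1)^2)`, and the sum of the right side over all odd `n ≥ z+1` is `1/(4 z^2)`
(telescoping; sum over the odd numbers `n = z + 1 + 2 j`). Sum up with `hasSum_log` for `s` and for `2 s`.
-/

set_option autoImplicit false

open Real

namespace Pool.Agent.H27.XZ

theorem artanh_le {y : ℝ} (h0 : 0 ≤ y) (h1 : y < 1) :
    -Real.log (1 - y) + Real.log (1 - y ^ 2) / 2 ≤ y + y ^ 3 / (3 * (1 - y ^ 2)) := by
  have hy2 : y ^ 2 < 1 := by nlinarith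
  have e1 : Real.log (1 - y ^ 2) = Real.log (1 + y) + Real.log (1 - y) := by
    rw [← Real.log_mul (by linarith) (by linarith)]
    congr 1
    ring
  have h2 := Real.hasSum_log_sub_log_of_abs_lt_one (x := y) (by rw [abs_of_nonneg h0]; exact h1)
  have h3 : HasSum (fun k : ℕ => 2 / 3 * y * (y ^ 2) ^ k + if k = 0 then 4 / 3 * y else 0)
      (2 / 3 * y * (1 - y ^ 2)⁻¹ + 4 / 3 * y) :=
    ((hasSum_geometric_of_lt_one (by positivity) hy2).mul_left (2 / 3 * y)).add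
      (hasSum_ite_eq 0 (4 / 3 * y))
  have h4 : Real.log (1 + y) - Real.log (1 - y) ≤ 2 / 3 * y * (1 - y ^ 2)⁻¹ + 4 / 3 * y := by
    refine hasSum_le (fun k => ?_) h2 h3
    have e2 : y ^ (2 * k + 1) = y * (y ^ 2) ^ k := by
      rw [pow_succ, pow_mul, mul_comm]
    rw [e2]
    by_cases hk : k = 0
    · subst hk
      norm_num
      linarith
    · rw [if_neg hk, add_zero]
      have h5 : (1 : ℝ) ≤ k := by exact_mod_cast Nat.one_le_iff_ne_zero.2 hk
      have h6 : 1 / (2 * (k : ℝ) + 1) ≤ 1 / 3 := one_div_le_one_div_of_le (by norm_num) (by linarith)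
      have h7 : 0 ≤ y * (y ^ 2) ^ k := by positivity
      calc 2 * (1 / (2 * (k : ℝ) + 1)) * (y * (y ^ 2) ^ k) ≤ 2 * (1 / 3) * (y * (y ^ 2) ^ k) :=
            mul_le_mul_of_nonneg_right (by linarith) h7
        _ = 2 / 3 * y * (y ^ 2) ^ k := by ring
  have h5 : y + y ^ 3 / (3 * (1 - y ^ 2)) = (2 / 3 * y * (1 - y ^ 2)⁻¹ + 4 / 3 * y) / 2 := by
    have h6 : (1 - y ^ 2) ≠ 0 := by linarith
    field_simp
    ring
  rw [h5, e1]
  linarith

private theorem cube_le {n : ℝ} (hn : 1 < n) : 1 / n ^ 3 ≤ (1 / (n - 1) ^ 2 - 1 / (n + 1) ^ 2) / 4 := by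
  have h1 : 0 < n - 1 := by linarith
  have e : (1 / (n - 1) ^ 2 - 1 / (n + 1) ^ 2) / 4 = n / ((n - 1) * (n + 1)) ^ 2 := by
    field_simp
    ring
  rw [e, div_le_div_iff₀ (by positivity) (by positivity)]
  have h2 : ((n - 1) * (n + 1)) ^ 2 ≤ n ^ 4 := by
    have h3 : 0 ≤ (n - 1) * (n + 1) := by positivity
    have h4 : (n - 1) * (n + 1) ≤ n ^ 2 := by nlinarith
    calc ((n - 1) * (n + 1)) ^ 2 ≤ (n ^ 2) ^ 2 := pow_le_pow_left₀ h3 h4 2
      _ = n ^ 4 := by ring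
  nlinarith

/-- the sum of `p^(-3)` over the primes `p ≥ z` -/
theorem cube_sum {z : ℕ} (hz : 4 ≤ z) (he : Even z) :
    Summable (fun n : ℕ => if n.Prime ∧ z ≤ n then 1 / (n : ℝ) ^ 3 else 0) ∧
      ∑' n : ℕ, (if n.Prime ∧ z ≤ n then 1 / (n : ℝ) ^ 3 else 0) ≤ 1 / (4 * (z : ℝ) ^ 2) := by
  set f : ℕ → ℝ := fun n => if n.Prime ∧ z ≤ n then 1 / (n : ℝ) ^ 3 else 0 with hf
  have hf0 : ∀ n, 0 ≤ f n := by
    intro n
    simp only [hf]
    split_ifs
    · positivity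
    · exact le_refl _
  have hf1 : ∀ n, f n ≤ 1 / (n : ℝ) ^ 3 := by
    intro n
    simp only [hf]
    split_ifs
    · exact le_refl _
    · positivity
  have hsum : Summable f :=
    Summable.of_nonneg_of_le hf0 hf1 (Real.summable_one_div_nat_pow.2 (by norm_num))
  refine ⟨hsum, ?_⟩
  have heven : ∀ n, Even n → f n = 0 := by
    intro n hn
    simp only [hf]
    rw [if_neg]
    rintro ⟨h1, h2⟩
    rcases h1.eq_two_or_odd' with h3 | h3
    · omega
    · exact (Nat.not_even_iff_odd.2 h3) hn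
  have key : ∀ j : ℕ, ∑ n ∈ Finset.range (z + 1 + 2 * j), f n ≤
      1 / (4 * (z : ℝ) ^ 2) - 1 / (4 * ((z : ℝ) + 2 * j) ^ 2) := by
    intro j
    induction j with
    | zero =>
      have h1 : ∑ n ∈ Finset.range (z + 1 + 2 * 0), f n = 0 := by
        refine Finset.sum_eq_zero fun n hn => ?_
        rw [Finset.mem_range] at hn
        rcases Nat.lt_or_ge n z with h2 | h2
        · simp only [hf]
          rw [if_neg]
          omega
        · have : n = z := by omega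
          rw [this]
          exact heven z he
      rw [h1]
      simp
    | succ j ih =>
      have h1 : z + 1 + 2 * (j + 1) = (z + 1 + 2 * j) + 1 + 1 := by ring
      rw [h1, Finset.sum_range_succ, Finset.sum_range_succ]
      have h2 : f (z + 1 + 2 * j + 1) = 0 := by
        refine heven _ ?_
        obtain ⟨k, hk⟩ := he
        exact ⟨k + j + 1, by omega⟩
      have h3 : f (z + 1 + 2 * j) ≤ (1 / (((z : ℝ) + 2 * j)) ^ 2 - 1 / ((z : ℝ) + 2 * (j + 1)) ^ 2) / 4 := by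
        refine (hf1 _).trans ?_
        have hz' : (4 : ℝ) ≤ z := by exact_mod_cast hz
        have hj : (0 : ℝ) ≤ j := Nat.cast_nonneg j
        have h4 := cube_le (n := (z : ℝ) + 1 + 2 * j) (by linarith)
        have e1 : (((z + 1 + 2 * j : ℕ)) : ℝ) = (z : ℝ) + 1 + 2 * j := by push_cast; ring
        rw [e1]
        have e2 : (z : ℝ) + 1 + 2 * j - 1 = z + 2 * j := by ring
        have e3 : (z : ℝ) + 1 + 2 * j + 1 = z + 2 * (j + 1) := by ring
        rw [e2, e3] at h4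
        exact h4
      have h5 : ∀ x : ℝ, 1 / (4 * x) = 1 / x / 4 := fun x => by rw [div_div, mul_comm]
      rw [h2, add_zero, h5, h5]
      rw [h5, h5] at ih
      push_cast
      linarith
  refine Real.tsum_le_of_sum_range_le hf0 fun n => ?_
  have h1 : ∑ i ∈ Finset.range n, f i ≤ ∑ i ∈ Finset.range (z + 1 + 2 * n), f i :=
    Finset.sum_le_sum_of_subset_of_nonneg (Finset.range_mono (by omega)) fun i _ _ => hf0 i
  have h2 : 0 ≤ 1 / (4 * ((z : ℝ) + 2 * n) ^ 2) := by positivity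
  linarith [key n]

theorem PZ_ge {z : ℕ} (hz : 4 ≤ z) (he : Even z) {t : ℝ} (ht : 0 < t) :
    Real.log (Gz z (1 + t)) - Real.log (Gz z (2 * (1 + t))) / 2 -
      ((z : ℝ) ^ (-t)) ^ 3 / (12 * ((z : ℝ) ^ 2 - 1)) ≤ PZ z (1 + t) := by
  have hz' : (4 : ℝ) ≤ z := by exact_mod_cast hz
  have hzz : 0 < (z : ℝ) ^ 2 - 1 := by nlinarith
  have h1 := hasSum_log z (s := 1 + t) (by linarith)
  have h2 := hasSum_log z (s := 2 * (1 + t)) (by linarith)
  have h3 := (summable_pz z (s := 1 + t) (by linarith)).hasSum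
  obtain ⟨h4, h5⟩ := cube_sum hz he
  let c : ℝ := ((z : ℝ) ^ (-t)) ^ 3 * ((z : ℝ) ^ 2 / (3 * ((z : ℝ) ^ 2 - 1)))
  have hc : 0 ≤ c := by positivity
  have h6 := h3.add (h4.hasSum.mul_left c)
  have h7 := h1.sub (h2.div_const 2)
  have h8 := hasSum_le (fun n => ?_) h7 h6
  · have h9 : c * ∑' n : ℕ, (if n.Prime ∧ z ≤ n then 1 / (n : ℝ) ^ 3 else 0) ≤
        ((z : ℝ) ^ (-t)) ^ 3 / (12 * ((z : ℝ) ^ 2 - 1)) := by
      calc c * ∑' n : ℕ, (if n.Prime ∧ z ≤ n then 1 / (n : ℝ) ^ 3 else 0) ≤ c * (1 / (4 * (z : ℝ) ^ 2)) :=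
            mul_le_mul_of_nonneg_left h5 hc
        _ = ((z : ℝ) ^ (-t)) ^ 3 / (12 * ((z : ℝ) ^ 2 - 1)) := by
            have h10 : (z : ℝ) ≠ 0 := by linarith
            have h11 : (z : ℝ) ^ 2 - 1 ≠ 0 := hzz.ne'
            simp only [c]
            field_simp
            ring
    have h10 : ∑' n, pz z (1 + t) n = PZ z (1 + t) := rfl
    rw [h10] at h8
    linarith
  · simp only [pz]
    by_cases hn : n.Prime ∧ z ≤ n
    · simp only [if_pos hn]
      have hn1 : (z : ℝ) ≤ n := by exact_mod_cast hn.2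
      have hn0 : (0 : ℝ) < n := by linarith
      set y : ℝ := (n : ℝ) ^ (-(1 + t)) with hy
      have hy0 : 0 ≤ y := by positivity
      have hyt : y = (n : ℝ)⁻¹ * (n : ℝ) ^ (-t) := by
        rw [hy, neg_add, Real.rpow_add hn0, Real.rpow_neg_one]
      have hnt : (n : ℝ) ^ (-t) ≤ (z : ℝ) ^ (-t) :=
        Real.rpow_le_rpow_of_nonpos (by linarith) hn1 (by linarith)
      have hnt1 : (n : ℝ) ^ (-t) ≤ 1 := Real.rpow_le_one_of_one_le_of_nonpos (by linarith) (by linarith)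
      have hyn : y ≤ (n : ℝ)⁻¹ := by
        rw [hyt]
        exact mul_le_of_le_one_right (by positivity) hnt1
      have hyz : y ≤ (z : ℝ)⁻¹ := hyn.trans (inv_anti₀ (by linarith) hn1)
      have hy1 : y < 1 := lt_of_le_of_lt hyz (inv_lt_one_of_one_lt₀ (by linarith))
      have hy2 : y ^ 2 ≤ ((z : ℝ) ^ 2)⁻¹ := by
        rw [← inv_pow]
        exact pow_le_pow_left₀ hy0 hyz 2
      have e1 : (n : ℝ) ^ (-(2 * (1 + t))) = y ^ 2 := by
        rw [hy, ← Real.rpow_natCast, ← Real.rpow_mul hn0.le]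
        congr 1
        push_cast
        ring
      rw [e1]
      have h9 := artanh_le hy0 hy1
      have h10 : y ^ 3 / (3 * (1 - y ^ 2)) ≤ c * (1 / (n : ℝ) ^ 3) := by
        have h11 : 1 - ((z : ℝ) ^ 2)⁻¹ ≤ 1 - y ^ 2 := by linarith
        have h12 : 1 - ((z : ℝ) ^ 2)⁻¹ = ((z : ℝ) ^ 2 - 1) / (z : ℝ) ^ 2 := by
          have h10 : (z : ℝ) ≠ 0 := by linarith
          field_simp
        have h13 : 0 < 1 - ((z : ℝ) ^ 2)⁻¹ := by
          rw [h12]
          positivity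
        have h14 : y ^ 3 ≤ ((z : ℝ) ^ (-t)) ^ 3 * (1 / (n : ℝ) ^ 3) := by
          rw [hyt, mul_pow, mul_comm, inv_pow, one_div]
          exact mul_le_mul_of_nonneg_right (pow_le_pow_left₀ (by positivity) hnt 3) (by positivity)
        calc y ^ 3 / (3 * (1 - y ^ 2)) ≤ (((z : ℝ) ^ (-t)) ^ 3 * (1 / (n : ℝ) ^ 3)) / (3 * (1 - ((z : ℝ) ^ 2)⁻¹)) :=
              div_le_div₀ (by positivity) h14 (by positivity) (by linarith)
          _ = c * (1 / (n : ℝ) ^ 3) := by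
              rw [h12]
              simp only [c]
              have h15 : (z : ℝ) ≠ 0 := by linarith
              have h16 : (z : ℝ) ^ 2 - 1 ≠ 0 := hzz.ne'
              field_simp
      linarith
    · simp only [if_neg hn]
      simp

end Pool.Agent.H27.XZ
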