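import Pool.Agent.H27.XZ.EulA

/-!
# LowT : lower bound for `T(x)`

PROOF. For a prime `n ≥ z` put `y = log n + x`: `fx x n = (1/n) (1/y) ≥ (1/n) es l y`, and
`(1/n) e^(-y t) = e^(-x t) n^(-(1+t))` for `t = T/10^18`. So `∑_{n ≥ z} tp x n ≥ ∑ W/10^18 e^(-x t) PZ z (1+t)`
(`summable_pz`, `H40.PR.summable_tp`; the finite sum over the list and the series are exchanged by induction on the list),
and the terms below `z` are the finite sum (`H40.PR.tp`, `H40.PR.fx`).
-/

set_option autoImplicit false

open Real H40.PR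

namespace Pool.Agent.H27.XZ

/-- the contribution of the nodes -/
noncomputable def ct (z : ℕ) (x : ℝ) (l : List (ℕ × ℕ)) : ℝ :=
  (l.map fun p => (p.2 : ℝ) / 10 ^ 18 * Real.exp (-(x * ((p.1 : ℝ) / 10 ^ 18))) *
    PZ z (1 + (p.1 : ℝ) / 10 ^ 18)).sum

/-- a finite form: the sum of `(1/n) es l (log n + x)` over the primes `n ≥ z` -/
theorem hasSum_ct (z : ℕ) (x : ℝ) (l : List (ℕ × ℕ)) (hl : ∀ p ∈ l, 0 < p.1) :
    HasSum (fun n : ℕ => if n.Prime ∧ z ≤ n then 1 / (n : ℝ) * es l (Real.log n + x) else 0)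
      (ct z x l) := by
  induction l with
  | nil =>
    have h0 : (fun n : ℕ => if n.Prime ∧ z ≤ n then 1 / (n : ℝ) * es [] (Real.log n + x) else 0) =
        fun _ => (0 : ℝ) := by
      funext n
      simp [es]
    have h1 : ct z x [] = 0 := by simp [ct]
    rw [h0, h1]
    exact hasSum_zero
  | cons p l ih =>
    have hp : 0 < p.1 := hl p (by simp)
    have ih' := ih (fun q hq => hl q (by simp [hq]))
    set t : ℝ := (p.1 : ℝ) / 10 ^ 18 with ht
    have htpos : 0 < t := by
      have : (0 : ℝ) < p.1 := by exact_mod_cast hp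
      positivity
    have hs : HasSum (fun n => (p.2 : ℝ) / 10 ^ 18 * Real.exp (-(x * t)) * pz z (1 + t) n)
        ((p.2 : ℝ) / 10 ^ 18 * Real.exp (-(x * t)) * PZ z (1 + t)) :=
      (summable_pz z (by linarith)).hasSum.mul_left _
    have hc : ct z x (p :: l) =
        (p.2 : ℝ) / 10 ^ 18 * Real.exp (-(x * t)) * PZ z (1 + t) + ct z x l := by
      simp [ct, ht]
    rw [hc]
    have hf : (fun n : ℕ => if n.Prime ∧ z ≤ n then 1 / (n : ℝ) * es (p :: l) (Real.log n + x)
        else 0) = fun n : ℕ =>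
        (p.2 : ℝ) / 10 ^ 18 * Real.exp (-(x * t)) * pz z (1 + t) n +
          (if n.Prime ∧ z ≤ n then 1 / (n : ℝ) * es l (Real.log n + x) else 0) := by
      funext n
      unfold pz
      by_cases hn : n.Prime ∧ z ≤ n
      · rw [if_pos hn, if_pos hn, if_pos hn]
        have hn0 : (0 : ℝ) < n := by exact_mod_cast hn.1.pos
        have he : es (p :: l) (Real.log n + x) =
            (p.2 : ℝ) / 10 ^ 18 * Real.exp (-((Real.log n + x) * t)) + es l (Real.log n + x) := by
          simp [es, ht]
        have hk : 1 / (n : ℝ) * Real.exp (-((Real.log n + x) * t)) =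
            Real.exp (-(x * t)) * (n : ℝ) ^ (-(1 + t)) := by
          have h1 : 1 / (n : ℝ) = Real.exp (-Real.log n) := by
            rw [Real.exp_neg, Real.exp_log hn0, one_div]
          rw [h1, Real.rpow_def_of_pos hn0, ← Real.exp_add, ← Real.exp_add]
          congr 1
          ring
        rw [he, mul_add]
        congr 1
        calc 1 / (n : ℝ) * ((p.2 : ℝ) / 10 ^ 18 * Real.exp (-((Real.log n + x) * t))) =
            (p.2 : ℝ) / 10 ^ 18 * (1 / (n : ℝ) * Real.exp (-((Real.log n + x) * t))) := by ring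
          _ = _ := by rw [hk]; ring
      · rw [if_neg hn, if_neg hn, if_neg hn]
        ring
    rw [hf]
    exact hs.add ih'

theorem TR_ge {z : ℕ} (hz : 2 ≤ z) {x : ℝ} (hx : 0 ≤ x) (l : List (ℕ × ℕ)) (hl : ∀ p ∈ l, 0 < p.1)
    (h : ∀ y : ℝ, Real.log z + x ≤ y → es l y ≤ 1 / y) :
    ∑ p ∈ z.primesBelow, fx x p + ct z x l ≤ TR x := by
  have h1 : HasSum (fun n : ℕ => if n ∈ z.primesBelow then fx x n else 0)
      (∑ p ∈ z.primesBelow, fx x p) := by
    have h : HasSum (fun n : ℕ => if n ∈ z.primesBelow then fx x n else 0)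
        (∑ n ∈ z.primesBelow, (if n ∈ z.primesBelow then fx x n else 0)) :=
      hasSum_sum_of_ne_finset_zero (fun n hn => if_neg hn)
    have h' : ∑ n ∈ z.primesBelow, (if n ∈ z.primesBelow then fx x n else 0) =
        ∑ p ∈ z.primesBelow, fx x p := by
      apply Finset.sum_congr rfl
      intro n hn
      rw [if_pos hn]
    rwa [h'] at h
  have h2 := hasSum_ct z x l hl
  have h3 : HasSum (tp x) (TR x) := (summable_tp hx).hasSum
  refine hasSum_le ?_ (h1.add h2) h3
  intro n
  show (if n ∈ z.primesBelow then fx x n else 0) +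
    (if n.Prime ∧ z ≤ n then 1 / (n : ℝ) * es l (Real.log n + x) else 0) ≤ tp x n
  unfold tp
  by_cases hn : n.Prime
  · rw [if_pos hn]
    by_cases hz' : z ≤ n
    · have hnb : n ∉ z.primesBelow := by
        rw [Nat.mem_primesBelow]
        omega
      rw [if_neg hnb, if_pos ⟨hn, hz'⟩, zero_add]
      have hn0 : (0 : ℝ) < n := by exact_mod_cast hn.pos
      have hz0 : (0 : ℝ) < z := by
        have : 0 < z := by omega
        exact_mod_cast this
      have hlog : Real.log z ≤ Real.log n := Real.log_le_log hz0 (by exact_mod_cast hz')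
      have hes := h (Real.log n + x) (by linarith)
      have hfx : fx x n = 1 / (n : ℝ) * (1 / (Real.log n + x)) := by
        unfold fx
        rw [one_div_mul_one_div]
      rw [hfx]
      exact mul_le_mul_of_nonneg_left hes (by positivity)
    · have hnb : n ∈ z.primesBelow := by
        rw [Nat.mem_primesBelow]
        exact ⟨by omega, hn⟩
      rw [if_pos hnb, if_neg (fun hh => hz' hh.2), add_zero]
  · have hnb : n ∉ z.primesBelow := by
      rw [Nat.mem_primesBelow]
      exact fun hh => hn hh.2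
    rw [if_neg hn, if_neg hnb, if_neg (fun hh => hn hh.1), add_zero]

end Pool.Agent.H27.XZ
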