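import Pool.Agent.H27.XZ.Core
import Pool.Agent.H27.XZ.EmB
import Pool.Agent.H27.XZ.EulB

/-!
# Node : evaluation of `Gz z (1+t)` and `Gz z (2(1+t))` in fixed point arithmetic

`t = T / 10^18`. The tables `ns` (numbers `2, .., N-1`) and `ps` (primes below `z`) contain intervals for the
logarithms.
-/

set_option autoImplicit false

open Real

namespace Pool.Agent.H27.XZ

/-- the number `T / 10^18` -/
noncomputable def tt (T : ℕ) : ℝ := (T : ℝ) / 1000000000000000000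

theorem tt_eq (T : ℕ) : (T : ℝ) / 10 ^ 18 = tt T := by
  unfold tt
  norm_num

theorem tt_nonneg (T : ℕ) : 0 ≤ tt T := by
  unfold tt
  positivity

theorem tt_pos {T : ℕ} (h : 0 < T) : 0 < tt T := by
  have : (0 : ℝ) < T := by exact_mod_cast h
  unfold tt
  positivity

/-- a table of logarithms -/
def LogTab (l : List (Nat × Iv)) : Prop := ∀ p ∈ l, 2 ≤ p.1 ∧ p.2.mem (Real.log p.1)

/-- check of a table -/
def chkTab : List (Nat × Iv) → Bool
  | [] => true
  | p :: l => br (Nat.ble 2 p.1)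
      (expL p.2.lo fun e => br (Nat.ble 1000000000000000000 (Nat.mul e p.1))
        (expU p.2.hi fun f => br (Nat.ble (Nat.mul f p.1) 1000000000000000000) (chkTab l) false) false) false

theorem tab_mem {n : Nat} {a : Iv} {e f : Nat} (hn : 2 ≤ n)
    (he : (e : ℝ) ≤ Real.exp (-((a.lo : ℝ) / 1000000000000000000)) * 1000000000000000000)
    (hf : Real.exp (-((a.hi : ℝ) / 1000000000000000000)) * 1000000000000000000 ≤ (f : ℝ))
    (h1 : (1000000000000000000 : ℝ) ≤ e * n) (h2 : (f : ℝ) * n ≤ 1000000000000000000) :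
    a.mem (Real.log n) := by
  have hn0 : (0 : ℝ) < n := by
    have : (2 : ℝ) ≤ n := by exact_mod_cast hn
    linarith
  constructor
  · have h3 : Real.exp ((a.lo : ℝ) / 1000000000000000000) ≤ n := by
      have h4 : 1 ≤ Real.exp (-((a.lo : ℝ) / 1000000000000000000)) * n := by
        have h5 := mul_le_mul_of_nonneg_right he hn0.le
        nlinarith
      rw [Real.exp_neg, inv_mul_eq_div, le_div_iff₀ (Real.exp_pos _), one_mul] at h4
      exact h4
    have h4 : (a.lo : ℝ) / 1000000000000000000 ≤ Real.log n := by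
      rw [Real.le_log_iff_exp_le hn0]
      exact h3
    rw [div_le_iff₀ (by norm_num)] at h4
    exact h4
  · have h3 : (n : ℝ) ≤ Real.exp ((a.hi : ℝ) / 1000000000000000000) := by
      have h4 : Real.exp (-((a.hi : ℝ) / 1000000000000000000)) * n ≤ 1 := by
        have h5 := mul_le_mul_of_nonneg_right hf hn0.le
        nlinarith
      rw [Real.exp_neg, inv_mul_eq_div, div_le_iff₀ (Real.exp_pos _), one_mul] at h4
      exact h4
    have h4 : Real.log n ≤ (a.hi : ℝ) / 1000000000000000000 := by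
      rw [Real.log_le_iff_le_exp hn0]
      exact h3
    rw [le_div_iff₀ (by norm_num)] at h4
    exact h4

theorem chkTab_sound : ∀ {l : List (Nat × Iv)}, chkTab l = true → LogTab l
  | [], _ => by simp [LogTab]
  | p :: l, h => by
    unfold chkTab at h
    obtain ⟨h0, h⟩ := br_f h
    obtain ⟨e, he, h⟩ := expL_sound (y := (p.2.lo : ℝ) / 1000000000000000000) (by
      rw [div_mul_cancel₀ _ (by norm_num)]) h
    obtain ⟨h1, h⟩ := br_f h
    obtain ⟨f, hf, h⟩ := expU_sound (y := (p.2.hi : ℝ) / 1000000000000000000) (by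
      rw [div_mul_cancel₀ _ (by norm_num)]) h
    obtain ⟨h2, h⟩ := br_f h
    have ih := chkTab_sound h
    intro q hq
    rcases List.mem_cons.1 hq with rfl | hq
    · refine ⟨ble_true h0, tab_mem (ble_true h0) he hf ?_ ?_⟩
      · have h3 : (1000000000000000000 : ℕ) ≤ Nat.mul e q.1 := ble_true h1
        have h4 : ((1000000000000000000 : ℕ) : ℝ) ≤ ((Nat.mul e q.1 : ℕ) : ℝ) := by exact_mod_cast h3
        rw [mul_cast, Nat.cast_ofNat] at h4
        exact h4
      · have h3 : Nat.mul f q.1 ≤ (1000000000000000000 : ℕ) := ble_true h2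
        have h4 : ((Nat.mul f q.1 : ℕ) : ℝ) ≤ ((1000000000000000000 : ℕ) : ℝ) := by exact_mod_cast h3
        rw [mul_cast, Nat.cast_ofNat] at h4
        exact h4
    · exact ih q hq

/-- the interval for `n^(-t)` -/
def powK (T : Nat) (lg : Iv) (k : Iv → Bool) : Bool :=
  scK T 1000000000000000000 lg fun y => expK y k

theorem powK_sound {T n : Nat} {lg : Iv} {k : Iv → Bool} (hn : 2 ≤ n) (hlg : lg.mem (Real.log n))
    (h : powK T lg k = true) : ∃ c : Iv, c.mem ((n : ℝ) ^ (-tt T)) ∧ k c = true := by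
  unfold powK at h
  obtain ⟨c, hc, h⟩ := scK_sound (by norm_num) hlg h
  obtain ⟨d, hd, h⟩ := expK_sound hc h
  refine ⟨d, ?_, h⟩
  have hn0 : (0 : ℝ) < n := by
    have : (2 : ℝ) ≤ n := by exact_mod_cast hn
    linarith
  rw [Real.rpow_def_of_pos hn0]
  have e : Real.log n * -tt T = -(Real.log n * ((T : ℝ) / ((1000000000000000000 : ℕ) : ℝ))) := by
    unfold tt
    rw [Nat.cast_ofNat]
    ring
  rw [e]
  exact hd

/-- `n^(-(1+t))` -/
theorem pow_one {n : ℕ} (hn : 2 ≤ n) (t : ℝ) :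
    (n : ℝ) ^ (-t) * (((1 : ℕ) : ℝ) / n) = (n : ℝ) ^ (-(1 + t)) := by
  have hn0 : (0 : ℝ) < n := by
    have : (2 : ℝ) ≤ n := by exact_mod_cast hn
    linarith
  rw [show -(1 + t) = -t + (-1 : ℝ) by ring, Real.rpow_add hn0, Real.rpow_neg_one, Nat.cast_one,
    one_div]

/-- `n^(-2(1+t))` -/
theorem pow_two' {n : ℕ} (t : ℝ) : (n : ℝ) ^ (-(1 + t)) * (n : ℝ) ^ (-(1 + t)) =
    (n : ℝ) ^ (-(2 * (1 + t))) := by
  rw [← sq, ← Real.rpow_natCast, ← Real.rpow_mul (Nat.cast_nonneg n)]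
  congr 1
  push_cast
  ring

theorem powK2_sound {T n : Nat} {lg : Iv} {k : Iv → Iv → Bool} (hn : 2 ≤ n)
    (hlg : lg.mem (Real.log n))
    (h : (powK T lg fun q => scK 1 n q fun r => mulK r r fun r2 => k r r2) = true) :
    ∃ c d : Iv, c.mem ((n : ℝ) ^ (-(1 + tt T))) ∧ d.mem ((n : ℝ) ^ (-(2 * (1 + tt T)))) ∧
      k c d = true := by
  obtain ⟨q, hq, h⟩ := powK_sound hn hlg h
  obtain ⟨r, hr, h⟩ := scK_sound (by omega) hq h
  rw [pow_one hn] at hr
  have h0 : 0 ≤ (n : ℝ) ^ (-(1 + tt T)) := Real.rpow_nonneg (Nat.cast_nonneg n) _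
  obtain ⟨r2, hr2, h⟩ := mulK_sound h0 h0 hr hr h
  rw [pow_two'] at hr2
  exact ⟨r, r2, hr, hr2, h⟩

/-- sums over a table -/
def sumK (T : Nat) : List (Nat × Iv) → Iv → Iv → (Iv → Iv → Bool) → Bool
  | [], a, b, k => k a b
  | p :: l, a, b, k => powK T p.2 fun q => scK 1 p.1 q fun r => mulK r r fun r2 =>
      addK a r fun a' => addK b r2 fun b' => sumK T l a' b' k

theorem sumK_sound {T : Nat} : ∀ {l : List (Nat × Iv)} (_ : LogTab l) {a b : Iv}
    {k : Iv → Iv → Bool} {x y : ℝ}, a.mem x → b.mem y → sumK T l a b k = true →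
    ∃ c d : Iv, c.mem (x + (l.map fun p => (p.1 : ℝ) ^ (-(1 + tt T))).sum) ∧
      d.mem (y + (l.map fun p => (p.1 : ℝ) ^ (-(2 * (1 + tt T)))).sum) ∧ k c d = true
  | [], _, a, b, k, x, y, ha, hb, h => ⟨a, b, by simpa using ha, by simpa using hb, h⟩
  | p :: l, hl, a, b, k, x, y, ha, hb, h => by
    unfold sumK at h
    have hp := hl p (by simp)
    obtain ⟨r, r2, hr, hr2, h⟩ := powK2_sound hp.1 hp.2 h
    obtain ⟨a', ha', h⟩ := addK_sound ha hr h
    obtain ⟨b', hb', h⟩ := addK_sound hb hr2 h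
    obtain ⟨c, d, hc, hd, h⟩ := sumK_sound (fun q hq => hl q (by simp [hq])) ha' hb' h
    refine ⟨c, d, ?_, ?_, h⟩
    · rw [List.map_cons, List.sum_cons, ← add_assoc]
      exact hc
    · rw [List.map_cons, List.sum_cons, ← add_assoc]
      exact hd

/-- the interval of the number `1` -/
@[reducible] def one1 : Iv := ⟨1000000000000000000, 1000000000000000000⟩

theorem one1_mem : one1.mem 1 := by
  constructor <;> norm_num [one1]

theorem rpow_lt_one' {n : ℕ} (hn : 2 ≤ n) {s : ℝ} (hs : 0 < s) : (n : ℝ) ^ (-s) ≤ 1 := by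
  apply Real.rpow_le_one_of_one_le_of_nonpos
  · have : (2 : ℝ) ≤ n := by exact_mod_cast hn
    linarith
  · linarith

/-- products over a table -/
def prodK (T : Nat) : List (Nat × Iv) → Iv → Iv → (Iv → Iv → Bool) → Bool
  | [], a, b, k => k a b
  | p :: l, a, b, k => powK T p.2 fun q => scK 1 p.1 q fun r => mulK r r fun r2 =>
      subK one1 r fun u => mulK a u fun a' => subK one1 r2 fun u2 => mulK b u2 fun b' =>
        prodK T l a' b' k

theorem prodK_sound {T : Nat} : ∀ {l : List (Nat × Iv)} (_ : LogTab l) {a b : Iv}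
    {k : Iv → Iv → Bool} {x y : ℝ}, 0 ≤ x → 0 ≤ y → a.mem x → b.mem y → prodK T l a b k = true →
    ∃ c d : Iv, c.mem (x * (l.map fun p => (1 - (p.1 : ℝ) ^ (-(1 + tt T)))).prod) ∧
      d.mem (y * (l.map fun p => (1 - (p.1 : ℝ) ^ (-(2 * (1 + tt T))))).prod) ∧ k c d = true
  | [], _, a, b, k, x, y, _, _, ha, hb, h => ⟨a, b, by simpa using ha, by simpa using hb, h⟩
  | p :: l, hl, a, b, k, x, y, hx, hy, ha, hb, h => by
    unfold prodK at h
    have hp := hl p (by simp)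
    have ht := tt_nonneg T
    obtain ⟨r, r2, hr, hr2, h⟩ := powK2_sound hp.1 hp.2 h
    have h1 := rpow_lt_one' hp.1 (s := 1 + tt T) (by linarith)
    have h2 := rpow_lt_one' hp.1 (s := 2 * (1 + tt T)) (by linarith)
    obtain ⟨u, hu, h⟩ := subK_sound one1_mem hr h1 h
    obtain ⟨a', ha', h⟩ := mulK_sound hx (by linarith) ha hu h
    obtain ⟨u2, hu2, h⟩ := subK_sound one1_mem hr2 h2 h
    obtain ⟨b', hb', h⟩ := mulK_sound hy (by linarith) hb hu2 h
    obtain ⟨c, d, hc, hd, h⟩ := prodK_sound (fun q hq => hl q (by simp [hq]))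
      (mul_nonneg hx (by linarith)) (mul_nonneg hy (by linarith)) ha' hb' h
    refine ⟨c, d, ?_, ?_, h⟩
    · rw [List.map_cons, List.prod_cons, ← mul_assoc]
      exact hc
    · rw [List.map_cons, List.prod_cons, ← mul_assoc]
      exact hd

/-- lower the lower end -/
def lowr (a d : Iv) (k : Iv → Bool) : Bool := fN (Nat.sub a.lo d.hi) fun l => k ⟨l, a.hi⟩

/-- Euler-Maclaurin for both exponents -/
def zetaK (N T : Nat) (q s1 s2 : Iv) (k : Iv → Iv → Bool) : Bool :=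
  scK 1000000000000000000 T q fun A => scK 1 (2 * N) q fun B =>
  scK (1000000000000000000 + T) (12 * N * N * 1000000000000000000) q fun C =>
  scK ((1000000000000000000 + T) * (2000000000000000000 + T) * (3000000000000000000 + T) *
    ((N + 4) * 1000000000000000000 + T)) (720 * N ^ 5 * 1000000000000000000 ^ 4) q fun D =>
  addK s1 A fun z => addK z B fun z => addK z C fun z => lowr z D fun z1 =>
  mulK q q fun r =>
  scK 1000000000000000000 (N * (1000000000000000000 + 2 * T)) r fun A => scK 1 (2 * N * N) r fun B =>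
  scK (1000000000000000000 + T) (6 * N * N * N * 1000000000000000000) r fun C =>
  scK ((2000000000000000000 + 2 * T) * (3000000000000000000 + 2 * T) * (4000000000000000000 + 2 * T) *
    ((N + 5) * 1000000000000000000 + 2 * T)) (720 * N ^ 6 * 1000000000000000000 ^ 4) r fun D =>
  addK s2 A fun z => addK z B fun z => addK z C fun z => lowr z D fun z2 => k z1 z2

theorem lowr_sound {a d : Iv} {k : Iv → Bool} {x e z : ℝ} (ha : a.mem x) (hd : d.mem e)
    (h0 : 0 ≤ z) (h1 : z ≤ x) (h2 : x - e ≤ z) (h : lowr a d k = true) :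
    ∃ c : Iv, c.mem z ∧ k c = true := by
  unfold lowr at h
  rw [fN_eq] at h
  refine ⟨_, ⟨?_, ?_⟩, h⟩
  · dsimp only
    apply sub_cast_le (by positivity)
    have := ha.1
    have := hd.2
    nlinarith
  · dsimp only
    have := ha.2
    nlinarith

theorem zetaK_sound {N T : Nat} (hN : 2 ≤ N) (hT : 0 < T) {q s1 s2 : Iv} {k : Iv → Iv → Bool}
    (hq : q.mem ((N : ℝ) ^ (-tt T)))
    (h1 : s1.mem (∑ n ∈ Finset.range N, (n : ℝ) ^ (-(1 + tt T))))
    (h2 : s2.mem (∑ n ∈ Finset.range N, (n : ℝ) ^ (-(2 * (1 + tt T)))))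
    (h : zetaK N T q s1 s2 k = true) :
    ∃ c d : Iv, c.mem (Zt (1 + tt T)) ∧ d.mem (Zt (2 * (1 + tt T))) ∧ k c d = true := by
  have ht := tt_pos hT
  have hN0 : (0 : ℝ) < N := by
    have : (2 : ℝ) ≤ N := by exact_mod_cast hN
    linarith
  have hNn : (N : ℝ) ≠ 0 := hN0.ne'
  have hT0 : (0 : ℝ) < T := by exact_mod_cast hT
  have hT1 : (T : ℝ) = tt T * 1000000000000000000 := by
    unfold tt
    rw [div_mul_cancel₀ _ (by norm_num)]
  have hq0 : 0 ≤ (N : ℝ) ^ (-tt T) := Real.rpow_nonneg hN0.le _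
  set t := tt T with htd
  set Q := (N : ℝ) ^ (-t) with hQ
  unfold zetaK at h
  obtain ⟨A, hA, h⟩ := scK_sound hT hq h
  obtain ⟨B, hB, h⟩ := scK_sound (by omega) hq h
  obtain ⟨C, hC, h⟩ := scK_sound (by positivity) hq h
  obtain ⟨D, hD, h⟩ := scK_sound (by positivity) hq h
  obtain ⟨z, hz, h⟩ := addK_sound h1 hA h
  obtain ⟨z, hz, h⟩ := addK_sound hz hB h
  obtain ⟨z, hz, h⟩ := addK_sound hz hC h
  have e1 : (∑ n ∈ Finset.range N, (n : ℝ) ^ (-(1 + t))) + Q * (((1000000000000000000 : ℕ) : ℝ) / T) +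
      Q * (((1 : ℕ) : ℝ) / ((2 * N : ℕ) : ℝ)) + Q * (((1000000000000000000 + T : ℕ) : ℝ) /
        ((12 * N * N * 1000000000000000000 : ℕ) : ℝ)) = EMu N (1 + t) := by
    unfold EMu
    have p1 : (N : ℝ) ^ (1 - (1 + t)) = Q := by
      rw [hQ]; congr 1; ring
    have p2 : (N : ℝ) ^ (-(1 + t)) = Q / N := by
      rw [show -(1 + t) = -t + (-1 : ℝ) by ring, Real.rpow_add hN0, Real.rpow_neg_one, hQ]
      rfl
    have p3 : (N : ℝ) ^ (-(1 + t) - 1) = Q / N ^ 2 := by
      rw [show -(1 + t) - 1 = -t + (-2 : ℝ) by ring, Real.rpow_add hN0, Real.rpow_neg hN0.le 2,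
        Real.rpow_two, hQ]
      rfl
    rw [p1, p2, p3]
    push_cast
    rw [hT1, show 1 + t - 1 = t by ring]
    have ht' : t ≠ 0 := ht.ne'
    field_simp
  have e2 : Q * ((((1000000000000000000 + T) * (2000000000000000000 + T) * (3000000000000000000 + T) *
    ((N + 4) * 1000000000000000000 + T) : ℕ) : ℝ) / ((720 * N ^ 5 * 1000000000000000000 ^ 4 : ℕ) : ℝ)) =
      EMe N (1 + t) := by
    unfold EMe
    have p1 : (N : ℝ) ^ (-(1 + t) - 3) = Q / N ^ 4 := by
      rw [show -(1 + t) - 3 = -t - ((4 : ℕ) : ℝ) by push_cast; ring, Real.rpow_sub_natCast hNn, hQ]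
    rw [p1]
    push_cast
    rw [hT1]
    field_simp
    ring
  rw [e1] at hz
  rw [e2] at hD
  have hs1 : (1 : ℝ) < 1 + t := by linarith
  obtain ⟨z1, hz1, h⟩ := lowr_sound hz hD (z := Zt (1 + t))
    (tsum_nonneg fun n => Real.rpow_nonneg (Nat.cast_nonneg n) _) (Zt_le (by omega) hs1)
    (Zt_ge (by omega) hs1) h
  obtain ⟨r, hr, h⟩ := mulK_sound hq0 hq0 hq hq h
  obtain ⟨A, hA, h⟩ := scK_sound (by positivity) hr h
  obtain ⟨B, hB, h⟩ := scK_sound (by positivity) hr h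
  obtain ⟨C, hC, h⟩ := scK_sound (by positivity) hr h
  obtain ⟨D, hD, h⟩ := scK_sound (by positivity) hr h
  obtain ⟨z, hz, h⟩ := addK_sound h2 hA h
  obtain ⟨z, hz, h⟩ := addK_sound hz hB h
  obtain ⟨z, hz, h⟩ := addK_sound hz hC h
  have hQQ : Q * Q = (N : ℝ) ^ (-(2 * t)) := by
    rw [hQ, ← Real.rpow_add hN0]
    congr 1
    ring
  have e1 : (∑ n ∈ Finset.range N, (n : ℝ) ^ (-(2 * (1 + t)))) + Q * Q * (((1000000000000000000 : ℕ) : ℝ) /
      ((N * (1000000000000000000 + 2 * T) : ℕ) : ℝ)) +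
      Q * Q * (((1 : ℕ) : ℝ) / ((2 * N * N : ℕ) : ℝ)) + Q * Q * (((1000000000000000000 + T : ℕ) : ℝ) /
        ((6 * N * N * N * 1000000000000000000 : ℕ) : ℝ)) = EMu N (2 * (1 + t)) := by
    unfold EMu
    have p1 : (N : ℝ) ^ (1 - (2 * (1 + t))) = Q * Q / N := by
      rw [hQQ, show 1 - (2 * (1 + t)) = -(2 * t) + (-1 : ℝ) by ring, Real.rpow_add hN0,
        Real.rpow_neg_one]
      rfl
    have p2 : (N : ℝ) ^ (-(2 * (1 + t))) = Q * Q / N ^ 2 := by
      rw [hQQ, show -(2 * (1 + t)) = -(2 * t) + (-2 : ℝ) by ring, Real.rpow_add hN0,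
        Real.rpow_neg hN0.le 2, Real.rpow_two]
      rfl
    have p3 : (N : ℝ) ^ (-(2 * (1 + t)) - 1) = Q * Q / N ^ 3 := by
      rw [hQQ, show -(2 * (1 + t)) - 1 = -(2 * t) - ((3 : ℕ) : ℝ) by push_cast; ring,
        Real.rpow_sub_natCast hNn]
    rw [p1, p2, p3]
    push_cast
    rw [hT1]
    have ht' : (2 * (1 + t) - 1) ≠ 0 := by
      have : 0 < 2 * (1 + t) - 1 := by linarith
      exact this.ne'
    have ht2 : (1 + 2 * t) ≠ 0 := by
      have : 0 < 1 + 2 * t := by linarith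
      exact this.ne'
    have q1 : (N : ℝ) * (1000000000000000000 + 2 * (t * 1000000000000000000)) =
        N * 1000000000000000000 * (1 + 2 * t) := by ring
    have q2 : 2 * (1 + t) - 1 = 1 + 2 * t := by ring
    rw [q1, q2]
    field_simp
    ring
  have e2 : Q * Q * ((((2000000000000000000 + 2 * T) * (3000000000000000000 + 2 * T) *
    (4000000000000000000 + 2 * T) * ((N + 5) * 1000000000000000000 + 2 * T) : ℕ) : ℝ) /
      ((720 * N ^ 6 * 1000000000000000000 ^ 4 : ℕ) : ℝ)) = EMe N (2 * (1 + t)) := by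
    unfold EMe
    have p1 : (N : ℝ) ^ (-(2 * (1 + t)) - 3) = Q * Q / N ^ 5 := by
      rw [hQQ, show -(2 * (1 + t)) - 3 = -(2 * t) - ((5 : ℕ) : ℝ) by push_cast; ring,
        Real.rpow_sub_natCast hNn]
    rw [p1]
    push_cast
    rw [hT1]
    field_simp
    ring
  rw [e1] at hz
  rw [e2] at hD
  have hs2 : (1 : ℝ) < 2 * (1 + t) := by linarith
  obtain ⟨z2, hz2, h⟩ := lowr_sound hz hD (z := Zt (2 * (1 + t)))
    (tsum_nonneg fun n => Real.rpow_nonneg (Nat.cast_nonneg n) _) (Zt_le (by omega) hs2)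
    (Zt_ge (by omega) hs2) h
  exact ⟨z1, z2, hz1, hz2, h⟩

/-- tables for `z` and `N` -/
structure Tab (z N : ℕ) (ns ps : List (Nat × Iv)) (lgN lgz : Iv) : Prop where
  hns : LogTab ns
  hps : LogTab ps
  hN : 2 ≤ N
  hz : 4 ≤ z
  he : Even z
  nsl : List.range N = 0 :: 1 :: ns.map Prod.fst
  nd : (ps.map Prod.fst).Nodup
  psl : (ps.map Prod.fst).toFinset = z.primesBelow
  mN : lgN.mem (Real.log N)
  mz : lgz.mem (Real.log z)

theorem Tab.sum {z N : ℕ} {ns ps : List (Nat × Iv)} {lgN lgz : Iv} (h : Tab z N ns ps lgN lgz)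
    {s : ℝ} (hs : 0 < s) : 1 + (ns.map fun p => (p.1 : ℝ) ^ (-s)).sum =
      ∑ n ∈ Finset.range N, (n : ℝ) ^ (-s) := by
  have h1 : ∑ n ∈ Finset.range N, (n : ℝ) ^ (-s) = ((List.range N).map fun n : ℕ => (n : ℝ) ^ (-s)).sum := by
    rw [← List.toFinset_range, List.sum_toFinset _ List.nodup_range]
  rw [h1, h.nsl, List.map_cons, List.map_cons, List.sum_cons, List.sum_cons, List.map_map,
    Nat.cast_zero, Real.zero_rpow (by linarith), Nat.cast_one, Real.one_rpow, zero_add]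
  rfl

theorem Tab.prod {z N : ℕ} {ns ps : List (Nat × Iv)} {lgN lgz : Iv} (h : Tab z N ns ps lgN lgz)
    (f : ℕ → ℝ) : (ps.map fun p => f p.1).prod = ∏ p ∈ z.primesBelow, f p := by
  rw [← h.psl, List.prod_toFinset _ h.nd, List.map_map]
  rfl

theorem Tab.sum' {z N : ℕ} {ns ps : List (Nat × Iv)} {lgN lgz : Iv} (h : Tab z N ns ps lgN lgz)
    (f : ℕ → ℝ) : (ps.map fun p => f p.1).sum = ∑ p ∈ z.primesBelow, f p := by
  rw [← h.psl, List.sum_toFinset _ h.nd, List.map_map]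
  rfl

/-- the value at a node -/
def nodeK (N : Nat) (ns ps : List (Nat × Iv)) (lgN : Iv) (T : Nat) (k : Iv → Iv → Bool) : Bool :=
  sumK T ns one1 one1 fun s1 s2 => prodK T ps one1 one1 fun p1 p2 => powK T lgN fun q =>
    zetaK N T q s1 s2 fun z1 z2 => mulK z1 p1 fun g1 => mulK z2 p2 fun g2 => k g1 g2

theorem nodeK_sound {z N : ℕ} {ns ps : List (Nat × Iv)} {lgN lgz : Iv} (H : Tab z N ns ps lgN lgz)
    {T : Nat} (hT : 0 < T) {k : Iv → Iv → Bool} (h : nodeK N ns ps lgN T k = true) :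
    ∃ g1 g2 : Iv, g1.mem (Gz z (1 + tt T)) ∧ g2.mem (Gz z (2 * (1 + tt T))) ∧ k g1 g2 = true := by
  have ht := tt_pos hT
  unfold nodeK at h
  obtain ⟨s1, s2, hs1, hs2, h⟩ := sumK_sound H.hns one1_mem one1_mem h
  rw [H.sum (by linarith)] at hs1 hs2
  obtain ⟨p1, p2, hp1, hp2, h⟩ := prodK_sound H.hps zero_le_one zero_le_one one1_mem one1_mem h
  rw [one_mul, H.prod fun n => 1 - (n : ℝ) ^ (-(1 + tt T))] at hp1
  rw [one_mul, H.prod fun n => 1 - (n : ℝ) ^ (-(2 * (1 + tt T)))] at hp2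
  obtain ⟨q, hq, h⟩ := powK_sound H.hN H.mN h
  obtain ⟨z1, z2, hz1, hz2, h⟩ := zetaK_sound H.hN hT hq hs1 hs2 h
  have hZ : ∀ s : ℝ, 0 ≤ Zt s := fun s =>
    tsum_nonneg fun n => Real.rpow_nonneg (Nat.cast_nonneg n) _
  have hP : ∀ s : ℝ, 0 < s → 0 ≤ ∏ p ∈ z.primesBelow, (1 - (p : ℝ) ^ (-s)) := by
    intro s hs
    apply Finset.prod_nonneg
    intro p hp
    have h1 := rpow_lt_one' (Nat.prime_of_mem_primesBelow hp).two_le hs
    linarith
  obtain ⟨g1, hg1, h⟩ := mulK_sound (hZ _) (hP _ (by linarith)) hz1 hp1 h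
  obtain ⟨g2, hg2, h⟩ := mulK_sound (hZ _) (hP _ (by linarith)) hz2 hp2 h
  exact ⟨g1, g2, hg1, hg2, h⟩

end Pool.Agent.H27.XZ
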