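import Pool.Agent.H27.XZ.Defs

/-!
# QuA : one interval of a quadrature rule

PROOF. Let `m = (A+B)/10^9`, `h = (B-A)/10^9 > 0`, `a = c/10^9`, `w = w'/10^9` for `(c, w')` in the rule `r`; the nodes of
`iv2 r A B` are `m ± a h` (all natural subtractions are exact: `A < B` and `c ≤ 10^9`), so with `v = y h`
`es (iv2 r A B) y = e^(-y m) h ∑ w 2 cosh (a v)`, and `(e^(-y 2A/10^9) - e^(-y 2B/10^9))/y = e^(-y m) 2 sinh v / y = e^(-y m) h 2 sinh v / v`.
So the claim is `∑ w cosh (a v) ≤ sinh v / v`, and this follows term by term from the power series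
(`Real.hasSum_cosh`, `Real.hasSum_sinh`): `∑ w a^(2k) ≤ 1/(2k+1)`, i.e. `(2k+1) mom k r ≤ 10^9 10^(18k)` (`mom_lo`), for all `k`.
`mom_lo`: for `k ≤ K` this is checked by `okLo`; the step `k → k+1` for `k ≥ K`: `(2k+3) c^2 ≤ (2k+1) 10^18` for every entry
(it holds for `K`, and `(2k+3)/(2k+1)` decreases), so `(2k+3) mom (k+1) r ≤ 10^18 (2k+1) mom k r`.
`mom_up`: for `k ≤ K` checked; for `k ≥ K` the first entry alone gives `(2k+1) mom k r ≥ (2k+1) w 10^(18k) ≥ 10^9 10^(18k)`.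
-/

set_option autoImplicit false

open Real

namespace Pool.Agent.H27.XZ

private lemma okLo_spec {K : ℕ} {r : List (ℕ × ℕ)} (h : okLo K r = true) :
    (∀ k ≤ K, (2 * k + 1) * mom k r ≤ 1000000000 * 1000000000 ^ (2 * k)) ∧
      ∀ p ∈ r, p.1 ^ 2 * (2 * K + 3) ≤ (2 * K + 1) * 1000000000 ^ 2 := by
  unfold okLo at h
  rw [Bool.and_eq_true, List.all_eq_true, List.all_eq_true] at h
  refine ⟨fun k hk => ?_, fun p hp => ?_⟩
  · exact of_decide_eq_true (h.1 k (List.mem_range.mpr (Nat.lt_succ_of_le hk)))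
  · exact of_decide_eq_true (h.2 p hp)

private lemma okUp_spec {K : ℕ} {r : List (ℕ × ℕ)} (h : okUp K r = true) :
    (∀ k ≤ K, 1000000000 * 1000000000 ^ (2 * k) ≤ (2 * k + 1) * mom k r) ∧
      (∀ p ∈ r, p.1 ≤ 1000000000) ∧
      ∃ (w : ℕ) (l : List (ℕ × ℕ)), r = (1000000000, w) :: l ∧ 1000000000 ≤ w * (2 * K + 1) := by
  unfold okUp at h
  rw [Bool.and_eq_true, Bool.and_eq_true, List.all_eq_true, List.all_eq_true] at h
  refine ⟨fun k hk => ?_, fun p hp => ?_, ?_⟩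
  · exact of_decide_eq_true (h.1.1 k (List.mem_range.mpr (Nat.lt_succ_of_le hk)))
  · exact of_decide_eq_true (h.1.2 p hp)
  · obtain ⟨-, h3⟩ := h
    cases r with
    | nil => exact absurd h3 Bool.false_ne_true
    | cons p l =>
      have h4 : ((p.1 == 1000000000) && decide (1000000000 ≤ p.2 * (2 * K + 1))) = true := h3
      rw [Bool.and_eq_true, beq_iff_eq, decide_eq_true_iff] at h4
      obtain ⟨c, w⟩ := p
      obtain ⟨h5, h6⟩ := h4
      have h5' : c = 1000000000 := h5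
      subst h5'
      exact ⟨w, l, rfl, h6⟩

private lemma sq_step {c k : ℕ} (h : c ^ 2 * (2 * k + 3) ≤ (2 * k + 1) * 1000000000 ^ 2) :
    c ^ 2 * (2 * (k + 1) + 3) ≤ (2 * (k + 1) + 1) * 1000000000 ^ 2 := by
  have h1 : c ^ 2 ≤ 1000000000 ^ 2 := by
    by_contra hcon
    push Not at hcon
    nlinarith
  nlinarith

private lemma sq_all {c K : ℕ} (h : c ^ 2 * (2 * K + 3) ≤ (2 * K + 1) * 1000000000 ^ 2) :
    ∀ k, K ≤ k → c ^ 2 * (2 * k + 3) ≤ (2 * k + 1) * 1000000000 ^ 2 := by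
  intro k hk
  induction k, hk using Nat.le_induction with
  | base => exact h
  | succ k _ ih => exact sq_step ih

private lemma mom_step {k : ℕ} : ∀ r : List (ℕ × ℕ),
    (∀ p ∈ r, p.1 ^ 2 * (2 * k + 3) ≤ (2 * k + 1) * 1000000000 ^ 2) →
    (2 * (k + 1) + 1) * mom (k + 1) r ≤ (2 * k + 1) * mom k r * 1000000000 ^ 2
  | [], _ => by simp [mom]
  | p :: l, h => by
    have ih := mom_step l fun q hq => h q (List.mem_cons_of_mem p hq)
    have h1 := h p List.mem_cons_self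
    show (2 * (k + 1) + 1) * (p.2 * p.1 ^ (2 * (k + 1)) + mom (k + 1) l) ≤
      (2 * k + 1) * (p.2 * p.1 ^ (2 * k) + mom k l) * 1000000000 ^ 2
    have h2 : (2 * (k + 1) + 1) * (p.2 * p.1 ^ (2 * (k + 1))) ≤
        (2 * k + 1) * (p.2 * p.1 ^ (2 * k)) * 1000000000 ^ 2 := by
      have h3 := Nat.mul_le_mul_left (p.2 * p.1 ^ (2 * k)) h1
      calc (2 * (k + 1) + 1) * (p.2 * p.1 ^ (2 * (k + 1)))
          = p.2 * p.1 ^ (2 * k) * (p.1 ^ 2 * (2 * k + 3)) := by ring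
        _ ≤ p.2 * p.1 ^ (2 * k) * ((2 * k + 1) * 1000000000 ^ 2) := h3
        _ = (2 * k + 1) * (p.2 * p.1 ^ (2 * k)) * 1000000000 ^ 2 := by ring
    calc (2 * (k + 1) + 1) * (p.2 * p.1 ^ (2 * (k + 1)) + mom (k + 1) l)
        = (2 * (k + 1) + 1) * (p.2 * p.1 ^ (2 * (k + 1))) + (2 * (k + 1) + 1) * mom (k + 1) l := by
          ring
      _ ≤ (2 * k + 1) * (p.2 * p.1 ^ (2 * k)) * 1000000000 ^ 2 +
          (2 * k + 1) * mom k l * 1000000000 ^ 2 := Nat.add_le_add h2 ih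
      _ = (2 * k + 1) * (p.2 * p.1 ^ (2 * k) + mom k l) * 1000000000 ^ 2 := by ring

theorem mom_lo {K : ℕ} {r : List (ℕ × ℕ)} (h : okLo K r = true) (k : ℕ) :
    (2 * k + 1) * mom k r ≤ 1000000000 * 1000000000 ^ (2 * k) := by
  obtain ⟨h1, h2⟩ := okLo_spec h
  rcases le_total k K with hk | hk
  · exact h1 k hk
  · induction k, hk using Nat.le_induction with
    | base => exact h1 K le_rfl
    | succ k hk ih =>
      refine (mom_step r fun p hp => sq_all (h2 p hp) k hk).trans ?_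
      calc (2 * k + 1) * mom k r * 1000000000 ^ 2
          ≤ 1000000000 * 1000000000 ^ (2 * k) * 1000000000 ^ 2 := Nat.mul_le_mul_right _ ih
        _ = 1000000000 * 1000000000 ^ (2 * (k + 1)) := by ring

theorem mom_up {K : ℕ} {r : List (ℕ × ℕ)} (h : okUp K r = true) (k : ℕ) :
    1000000000 * 1000000000 ^ (2 * k) ≤ (2 * k + 1) * mom k r := by
  obtain ⟨h1, -, w, l, hr, hw⟩ := okUp_spec h
  rcases le_total k K with hk | hk
  · exact h1 k hk
  · subst hr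
    show 1000000000 * 1000000000 ^ (2 * k) ≤ (2 * k + 1) * (w * 1000000000 ^ (2 * k) + mom k l)
    calc 1000000000 * 1000000000 ^ (2 * k) ≤ w * (2 * K + 1) * 1000000000 ^ (2 * k) :=
          Nat.mul_le_mul_right _ hw
      _ ≤ w * (2 * k + 1) * 1000000000 ^ (2 * k) := by
          apply Nat.mul_le_mul_right
          apply Nat.mul_le_mul_left
          omega
      _ = (2 * k + 1) * (w * 1000000000 ^ (2 * k)) := by ring
      _ ≤ (2 * k + 1) * (w * 1000000000 ^ (2 * k) + mom k l) := by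
          apply Nat.mul_le_mul_left
          exact Nat.le_add_right _ _

theorem okLo_lt {K : ℕ} {r : List (ℕ × ℕ)} (h : okLo K r = true) : ∀ p ∈ r, p.1 < 1000000000 := by
  intro p hp
  have h1 := (okLo_spec h).2 p hp
  by_contra hcon
  push Not at hcon
  have h2 : 1000000000 ^ 2 ≤ p.1 ^ 2 := Nat.pow_le_pow_left hcon 2
  have h3 : 1000000000 ^ 2 * (2 * K + 3) ≤ p.1 ^ 2 * (2 * K + 3) := Nat.mul_le_mul_right _ h2
  have h4 : 1000000000 ^ 2 * (2 * K + 3) ≤ (2 * K + 1) * 1000000000 ^ 2 := h3.trans h1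
  omega

theorem okUp_le {K : ℕ} {r : List (ℕ × ℕ)} (h : okUp K r = true) : ∀ p ∈ r, p.1 ≤ 1000000000 :=
  (okUp_spec h).2.1

/-- the sum of hyperbolic cosines -/
private noncomputable def Sc (r : List (ℕ × ℕ)) (v : ℝ) : ℝ :=
  (r.map fun p => (p.2 : ℝ) / 10 ^ 9 * Real.cosh ((p.1 : ℝ) / 10 ^ 9 * v)).sum

private lemma Sc_cons (p : ℕ × ℕ) (l : List (ℕ × ℕ)) (v : ℝ) : Sc (p :: l) v =
    (p.2 : ℝ) / 10 ^ 9 * Real.cosh ((p.1 : ℝ) / 10 ^ 9 * v) + Sc l v := by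
  unfold Sc
  rw [List.map_cons, List.sum_cons]

private lemma es_cons (p : ℕ × ℕ) (l : List (ℕ × ℕ)) (y : ℝ) : es (p :: l) y =
    (p.2 : ℝ) / 10 ^ 18 * Real.exp (-(y * ((p.1 : ℝ) / 10 ^ 18))) + es l y := by
  unfold es
  rw [List.map_cons, List.sum_cons]

private lemma es_iv2 {A B : ℕ} (hAB : A < B) (y : ℝ) : ∀ r : List (ℕ × ℕ),
    (∀ p ∈ r, p.1 ≤ 1000000000) → es (iv2 r A B) y =
      Real.exp (-(y * (((A : ℝ) + B) / 10 ^ 9))) * (((B : ℝ) - A) / 10 ^ 9) *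
        (2 * Sc r (y * (((B : ℝ) - A) / 10 ^ 9)))
  | [], _ => by simp [iv2, es, Sc]
  | p :: l, h => by
    have ih := es_iv2 hAB y l fun q hq => h q (List.mem_cons_of_mem p hq)
    have h1 : p.1 ≤ 1000000000 := h p List.mem_cons_self
    show es (((A + B) * 1000000000 + p.1 * (B - A), p.2 * (B - A)) ::
      ((A + B) * 1000000000 - p.1 * (B - A), p.2 * (B - A)) :: iv2 l A B) y = _
    rw [es_cons, es_cons, ih, Sc_cons, Real.cosh_eq]
    have hsub : p.1 * (B - A) ≤ (A + B) * 1000000000 := by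
      calc p.1 * (B - A) ≤ 1000000000 * (B - A) := Nat.mul_le_mul_right _ h1
        _ ≤ 1000000000 * (A + B) := Nat.mul_le_mul_left _ (by omega)
        _ = (A + B) * 1000000000 := by ring
    have c1 : (((A + B) * 1000000000 - p.1 * (B - A) : ℕ) : ℝ) =
        ((A : ℝ) + B) * 10 ^ 9 - (p.1 : ℝ) * ((B : ℝ) - A) := by
      rw [Nat.cast_sub hsub]
      push_cast [Nat.cast_sub hAB.le]
      norm_num
    have c2 : (((A + B) * 1000000000 + p.1 * (B - A) : ℕ) : ℝ) =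
        ((A : ℝ) + B) * 10 ^ 9 + (p.1 : ℝ) * ((B : ℝ) - A) := by
      push_cast [Nat.cast_sub hAB.le]
      norm_num
    have c3 : ((p.2 * (B - A) : ℕ) : ℝ) = (p.2 : ℝ) * ((B : ℝ) - A) := by
      push_cast [Nat.cast_sub hAB.le]
      rfl
    have e1 : Real.exp (-(y * ((((A + B) * 1000000000 + p.1 * (B - A) : ℕ) : ℝ) / 10 ^ 18))) =
        Real.exp (-(y * (((A : ℝ) + B) / 10 ^ 9))) *
          Real.exp (-((p.1 : ℝ) / 10 ^ 9 * (y * (((B : ℝ) - A) / 10 ^ 9)))) := by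
      rw [c2, ← Real.exp_add]
      congr 1
      ring
    have e2 : Real.exp (-(y * ((((A + B) * 1000000000 - p.1 * (B - A) : ℕ) : ℝ) / 10 ^ 18))) =
        Real.exp (-(y * (((A : ℝ) + B) / 10 ^ 9))) *
          Real.exp ((p.1 : ℝ) / 10 ^ 9 * (y * (((B : ℝ) - A) / 10 ^ 9))) := by
      rw [c1, ← Real.exp_add]
      congr 1
      ring
    show (((p.2 * (B - A) : ℕ) : ℝ) / 10 ^ 18 *
        Real.exp (-(y * ((((A + B) * 1000000000 + p.1 * (B - A) : ℕ) : ℝ) / 10 ^ 18))) +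
      (((p.2 * (B - A) : ℕ) : ℝ) / 10 ^ 18 *
        Real.exp (-(y * ((((A + B) * 1000000000 - p.1 * (B - A) : ℕ) : ℝ) / 10 ^ 18))) + _)) = _
    rw [e1, e2, c3]
    ring

private lemma hasSum_Sc (v : ℝ) : ∀ r : List (ℕ × ℕ), HasSum (fun k : ℕ =>
    v ^ (2 * k) / ((2 * k).factorial : ℝ) * ((mom k r : ℝ) / (10 ^ 9 * (10 ^ 9) ^ (2 * k)))) (Sc r v)
  | [] => by
    have h1 : (fun k : ℕ => v ^ (2 * k) / ((2 * k).factorial : ℝ) *
        ((mom k [] : ℝ) / (10 ^ 9 * (10 ^ 9) ^ (2 * k)))) = fun _ => 0 := by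
      funext k
      show _ * (((0 : ℕ) : ℝ) / _) = _
      rw [Nat.cast_zero, zero_div, mul_zero]
    have h2 : Sc [] v = 0 := rfl
    rw [h1, h2]
    exact hasSum_zero
  | p :: l => by
    have ih := hasSum_Sc v l
    have h1 := (Real.hasSum_cosh ((p.1 : ℝ) / 10 ^ 9 * v)).mul_left ((p.2 : ℝ) / 10 ^ 9)
    have h2 := h1.add ih
    rw [Sc_cons]
    refine h2.congr_fun ?_
    intro k
    have h3 : (mom k (p :: l) : ℝ) = (p.2 : ℝ) * (p.1 : ℝ) ^ (2 * k) + (mom k l : ℝ) := by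
      show ((p.2 * p.1 ^ (2 * k) + mom k l : ℕ) : ℝ) = _
      push_cast
      rfl
    rw [h3, mul_pow, div_pow]
    have h4 : ((10 : ℝ) ^ 9) ^ (2 * k) ≠ 0 := by positivity
    have h5 : (((2 * k).factorial : ℕ) : ℝ) ≠ 0 := by positivity
    field_simp

private lemma coef (k : ℕ) (v : ℝ) : v ^ (2 * k + 1) / ((2 * k + 1).factorial : ℝ) =
    v * (v ^ (2 * k) / ((2 * k).factorial : ℝ) * (1 / (2 * k + 1))) := by
  rw [Nat.factorial_succ]
  push_cast
  have h5 : (((2 * k).factorial : ℕ) : ℝ) ≠ 0 := by positivity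
  field_simp
  ring

private lemma mom_le_of {k M : ℕ} (h : (2 * k + 1) * M ≤ 1000000000 * 1000000000 ^ (2 * k)) :
    (M : ℝ) / (10 ^ 9 * (10 ^ 9) ^ (2 * k)) ≤ 1 / (2 * k + 1) := by
  rw [div_le_div_iff₀ (by positivity) (by positivity)]
  have h1 : (((2 * k + 1) * M : ℕ) : ℝ) ≤ ((1000000000 * 1000000000 ^ (2 * k) : ℕ) : ℝ) :=
    Nat.cast_le.mpr h
  push_cast at h1
  norm_num
  linarith

private lemma le_mom_of {k M : ℕ} (h : 1000000000 * 1000000000 ^ (2 * k) ≤ (2 * k + 1) * M) :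
    1 / (2 * k + 1) ≤ (M : ℝ) / (10 ^ 9 * (10 ^ 9) ^ (2 * k)) := by
  rw [div_le_div_iff₀ (by positivity) (by positivity)]
  have h1 : ((1000000000 * 1000000000 ^ (2 * k) : ℕ) : ℝ) ≤ (((2 * k + 1) * M : ℕ) : ℝ) :=
    Nat.cast_le.mpr h
  push_cast at h1
  norm_num
  linarith

private lemma ends (A B : ℕ) (y : ℝ) :
    Real.exp (-(y * (2 * (A : ℝ) / 10 ^ 9))) - Real.exp (-(y * (2 * (B : ℝ) / 10 ^ 9))) =
      Real.exp (-(y * (((A : ℝ) + B) / 10 ^ 9))) * (2 * Real.sinh (y * (((B : ℝ) - A) / 10 ^ 9))) := by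
  have e1 : Real.exp (-(y * (2 * (A : ℝ) / 10 ^ 9))) =
      Real.exp (-(y * (((A : ℝ) + B) / 10 ^ 9))) * Real.exp (y * (((B : ℝ) - A) / 10 ^ 9)) := by
    rw [← Real.exp_add]
    congr 1
    ring
  have e2 : Real.exp (-(y * (2 * (B : ℝ) / 10 ^ 9))) =
      Real.exp (-(y * (((A : ℝ) + B) / 10 ^ 9))) * Real.exp (-(y * (((B : ℝ) - A) / 10 ^ 9))) := by
    rw [← Real.exp_add]
    congr 1
    ring
  rw [e1, e2, Real.sinh_eq]
  ring

theorem rule_lo {K : ℕ} {r : List (ℕ × ℕ)} (h : okLo K r = true) {A B : ℕ} (hAB : A < B) {y : ℝ}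
    (hy : 0 < y) : es (iv2 r A B) y ≤
      (Real.exp (-(y * (2 * (A : ℝ) / 10 ^ 9))) - Real.exp (-(y * (2 * (B : ℝ) / 10 ^ 9)))) / y := by
  rw [es_iv2 hAB y r fun p hp => (okLo_lt h p hp).le, ends, le_div_iff₀ hy]
  have hBA : (0 : ℝ) < (B : ℝ) - A := sub_pos.mpr (Nat.cast_lt.mpr hAB)
  set v : ℝ := y * (((B : ℝ) - A) / 10 ^ 9) with hv
  have hv0 : 0 < v := by positivity
  have key : v * Sc r v ≤ Real.sinh v := by
    refine hasSum_le (fun k => ?_) ((hasSum_Sc v r).mul_left v) (Real.hasSum_sinh v)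
    rw [coef]
    exact mul_le_mul_of_nonneg_left (mul_le_mul_of_nonneg_left (mom_le_of (mom_lo h k))
      (by positivity)) hv0.le
  calc Real.exp (-(y * (((A : ℝ) + B) / 10 ^ 9))) * (((B : ℝ) - A) / 10 ^ 9) * (2 * Sc r v) * y
      = Real.exp (-(y * (((A : ℝ) + B) / 10 ^ 9))) * (2 * (v * Sc r v)) := by rw [hv]; ring
    _ ≤ Real.exp (-(y * (((A : ℝ) + B) / 10 ^ 9))) * (2 * Real.sinh v) :=
        mul_le_mul_of_nonneg_left (by linarith) (Real.exp_pos _).le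

theorem rule_up {K : ℕ} {r : List (ℕ × ℕ)} (h : okUp K r = true) {A B : ℕ} (hAB : A < B) {y : ℝ}
    (hy : 0 < y) :
    (Real.exp (-(y * (2 * (A : ℝ) / 10 ^ 9))) - Real.exp (-(y * (2 * (B : ℝ) / 10 ^ 9)))) / y ≤
      es (iv2 r A B) y := by
  rw [es_iv2 hAB y r (okUp_le h), ends, div_le_iff₀ hy]
  have hBA : (0 : ℝ) < (B : ℝ) - A := sub_pos.mpr (Nat.cast_lt.mpr hAB)
  set v : ℝ := y * (((B : ℝ) - A) / 10 ^ 9) with hv
  have hv0 : 0 < v := by positivity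
  have key : Real.sinh v ≤ v * Sc r v := by
    refine hasSum_le (fun k => ?_) (Real.hasSum_sinh v) ((hasSum_Sc v r).mul_left v)
    rw [coef]
    exact mul_le_mul_of_nonneg_left (mul_le_mul_of_nonneg_left (le_mom_of (mom_up h k))
      (by positivity)) hv0.le
  calc Real.exp (-(y * (((A : ℝ) + B) / 10 ^ 9))) * (2 * Real.sinh v)
      ≤ Real.exp (-(y * (((A : ℝ) + B) / 10 ^ 9))) * (2 * (v * Sc r v)) :=
        mul_le_mul_of_nonneg_left (by linarith) (Real.exp_pos _).le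
    _ = Real.exp (-(y * (((A : ℝ) + B) / 10 ^ 9))) * (((B : ℝ) - A) / 10 ^ 9) * (2 * Sc r v) * y := by
        rw [hv]; ring

end Pool.Agent.H27.XZ
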