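import Pool.Agent.H27.XZ.QuA

/-!
# QuB : the quadrature rule on a mesh

PROOF. `es (l ++ l') y = es l y + es l' y`; induction on the mesh, the sums of `QuA` telescope. `nds_pos_lo`: a node is
`(A+B) 10^9 ± c (B-A)` with `A < B`, `c < 10^9`, so it is positive; `nds_pos_up`: the same with `c ≤ 10^9` and `0 < A`.
-/

set_option autoImplicit false

open Real

namespace Pool.Agent.H27.XZ

theorem es_append (l l' : List (ℕ × ℕ)) (y : ℝ) : es (l ++ l') y = es l y + es l' y := by
  unfold es
  rw [List.map_append, List.sum_append]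

private lemma es_nil (y : ℝ) : es [] y = 0 := rfl

private lemma nds_lo_aux {K : ℕ} {r : List (ℕ × ℕ)} (h : okLo K r = true) {y : ℝ} (hy : 0 < y) :
    ∀ (l : List ℕ) (a : ℕ), incr (a :: l) = true →
      es (nds r (a :: l)) y ≤ Real.exp (-(y * (2 * (a : ℝ) / 10 ^ 9))) / y := by
  intro l
  induction l with
  | nil =>
    intro a _
    show es [] y ≤ _
    rw [es_nil]
    positivity
  | cons b l ih =>
    intro a hab
    have h1 : a < b ∧ incr (b :: l) = true := by
      have : (decide (a < b) && incr (b :: l)) = true := hab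
      simpa using this
    have h2 := rule_lo h h1.1 hy
    have h3 := ih b h1.2
    show es (iv2 r a b ++ nds r (b :: l)) y ≤ _
    rw [es_append]
    rw [sub_div] at h2
    linarith

theorem nds_lo {K : ℕ} {r : List (ℕ × ℕ)} (h : okLo K r = true) {l : List ℕ} (hl : incr l = true)
    {y : ℝ} (hy : 0 < y) : es (nds r l) y ≤ 1 / y := by
  cases l with
  | nil =>
    show es [] y ≤ _
    rw [es_nil]
    positivity
  | cons a l =>
    refine (nds_lo_aux h hy l a hl).trans ?_
    refine div_le_div_of_nonneg_right ?_ hy.le
    rw [Real.exp_le_one_iff]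
    have : 0 ≤ y * (2 * (a : ℝ) / 10 ^ 9) := by positivity
    linarith

theorem nds_up {K : ℕ} {r : List (ℕ × ℕ)} (h : okUp K r = true) {a : ℕ} {l : List ℕ}
    (hl : incr (a :: l) = true) {y : ℝ} (hy : 0 < y) :
    Real.exp (-(y * (2 * (a : ℝ) / 10 ^ 9))) / y ≤ es (nds r (a :: l)) y +
      Real.exp (-(y * (2 * ((l.getLastD a : ℕ) : ℝ) / 10 ^ 9))) / y := by
  induction l generalizing a with
  | nil =>
    show _ ≤ es [] y + _
    rw [es_nil, zero_add]
    exact le_rfl
  | cons b l ih =>
    have h1 : a < b ∧ incr (b :: l) = true := by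
      have : (decide (a < b) && incr (b :: l)) = true := hl
      simpa using this
    have h2 := rule_up h h1.1 hy
    have h3 := ih h1.2
    show _ ≤ es (iv2 r a b ++ nds r (b :: l)) y + _
    rw [es_append]
    rw [sub_div] at h2
    have h4 : (b :: l).getLastD a = l.getLastD b := by
      cases l <;> rfl
    rw [h4]
    linarith

private lemma iv2_pos {A B : ℕ} : ∀ (r : List (ℕ × ℕ)),
    (∀ p ∈ r, p.1 * (B - A) < (A + B) * 1000000000) → ∀ p ∈ iv2 r A B, 0 < p.1 := by
  intro r
  induction r with
  | nil =>
    intro _ p hp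
    exact absurd hp (by simp [iv2])
  | cons q r ih =>
    intro hr p hp
    have hq := hr q (by simp)
    have hp' : p ∈ ((A + B) * 1000000000 + q.1 * (B - A), q.2 * (B - A)) ::
      ((A + B) * 1000000000 - q.1 * (B - A), q.2 * (B - A)) :: iv2 r A B := hp
    rw [List.mem_cons, List.mem_cons] at hp'
    rcases hp' with h | h | h
    · rw [h]
      show 0 < (A + B) * 1000000000 + q.1 * (B - A)
      omega
    · rw [h]
      show 0 < (A + B) * 1000000000 - q.1 * (B - A)
      omega
    · exact ih (fun p' hp' => hr p' (List.mem_cons_of_mem _ hp')) p h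

theorem nds_pos_lo {K : ℕ} {r : List (ℕ × ℕ)} (h : okLo K r = true) {l : List ℕ}
    (hl : incr l = true) : ∀ p ∈ nds r l, 0 < p.1 := by
  induction l with
  | nil =>
    intro p hp
    exact absurd hp (by simp [nds])
  | cons a l ih =>
    cases l with
    | nil =>
      intro p hp
      exact absurd hp (by simp [nds])
    | cons b l =>
      have h1 : a < b ∧ incr (b :: l) = true := by
        have : (decide (a < b) && incr (b :: l)) = true := hl
        simpa using this
      intro p hp
      have hp' : p ∈ iv2 r a b ++ nds r (b :: l) := hp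
      rw [List.mem_append] at hp'
      rcases hp' with hp' | hp'
      · refine iv2_pos r (fun q hq => ?_) p hp'
        have h2 := okLo_lt h q hq
        have h3 : 0 < b - a := by omega
        calc q.1 * (b - a) < 1000000000 * (b - a) := Nat.mul_lt_mul_of_pos_right h2 h3
          _ ≤ 1000000000 * (a + b) := Nat.mul_le_mul_left _ (by omega)
          _ = (a + b) * 1000000000 := Nat.mul_comm _ _
      · exact ih h1.2 p hp'

theorem nds_pos_up {K : ℕ} {r : List (ℕ × ℕ)} (h : okUp K r = true) {a : ℕ} {l : List ℕ}
    (ha : 0 < a) (hl : incr (a :: l) = true) : ∀ p ∈ nds r (a :: l), 0 < p.1 := by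
  induction l generalizing a with
  | nil =>
    intro p hp
    exact absurd hp (by simp [nds])
  | cons b l ih =>
    have h1 : a < b ∧ incr (b :: l) = true := by
      have : (decide (a < b) && incr (b :: l)) = true := hl
      simpa using this
    intro p hp
    have hp' : p ∈ iv2 r a b ++ nds r (b :: l) := hp
    rw [List.mem_append] at hp'
    rcases hp' with hp' | hp'
    · refine iv2_pos r (fun q hq => ?_) p hp'
      have h2 := okUp_le h q hq
      calc q.1 * (b - a) ≤ 1000000000 * (b - a) := Nat.mul_le_mul_right _ h2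
        _ < 1000000000 * (a + b) := Nat.mul_lt_mul_of_pos_left (by omega) (by norm_num)
        _ = (a + b) * 1000000000 := Nat.mul_comm _ _
    · exact ih (by omega) h1.2 p hp'

end Pool.Agent.H27.XZ
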