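import Pool.Agent.H27.XZ.LowT
import Pool.Agent.H27.XZ.EmB

/-!
# UpT : upper bound for `T(x)`

PROOF. For a prime `n ≥ z`, `y = log n + x > 0`: `1/y = (1 - e^(-y τ))/y + e^(-y τ)/y ≤ ∫_0^τ e^(-y t) dt + es l y`.
So for every `M`: `∑_{z ≤ p < M} fx x p ≤ ∫_0^τ ∑_{z ≤ p < M} p^(-(1+t)) e^(-x t) dt + ct z x l` (`hasSum_ct` bounds the second part).
For `0 < t ≤ τ`: `∑_{z ≤ p < M} p^(-(1+t)) ≤ PZ z (1+t) ≤ log (Gz z (1+t)) ≤ log (1 + 1/t) + log (∏_{p<z} (1 - p^(-(1+τ))))`
(`PZ_le_log`, `Zt_simple`, monotonicity in `t`), and `log (1 + 1/t) = log (1+t) - log t ≤ t - log t`. The left side is nonnegative,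
`e^(-x t) ≤ 1`. `∫_0^τ (t - log t) dt = τ²/2 - τ log τ + τ` (`integral_log`), so the integral is at most
`τ (1 + τ/2 + log (∏/τ))`. Then `tsum_le` over `M` (`H40.PR.summable_tp`, terms `≥ 0`).
-/

set_option autoImplicit false

open Real H40.PR

namespace Pool.Agent.H27.XZ

private theorem ut_es_nonneg (l : List (ℕ × ℕ)) (y : ℝ) : 0 ≤ es l y := by
  unfold es
  refine List.sum_nonneg fun a ha => ?_
  obtain ⟨p, _, rfl⟩ := List.mem_map.1 ha
  positivity

private theorem ut_int {y τ : ℝ} (hy : 0 < y) :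
    ∫ t in (0 : ℝ)..τ, Real.exp (-(y * t)) = (1 - Real.exp (-(y * τ))) / y := by
  have hd : ∀ t ∈ Set.uIcc (0 : ℝ) τ, HasDerivAt (fun t => -Real.exp (-(y * t)) / y)
      (Real.exp (-(y * t))) t := by
    intro t _
    have e := ((((hasDerivAt_id t).const_mul y).neg.exp).neg).div_const y
    refine e.congr_deriv ?_
    simp only [id, Pi.neg_apply]
    field_simp
  rw [intervalIntegral.integral_eq_sub_of_hasDerivAt hd
    (Continuous.intervalIntegrable (by fun_prop) _ _)]
  rw [mul_zero, neg_zero, Real.exp_zero]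
  ring

private theorem ut_bound {z : ℕ} {τ t : ℝ} (ht : 0 < t) (htτ : t ≤ τ) :
    PZ z (1 + t) ≤ t - Real.log t +
      Real.log (∏ p ∈ z.primesBelow, (1 - (p : ℝ) ^ (-(1 + τ)))) := by
  have h1 := PZ_le_log z (s := 1 + t) (by linarith)
  have hp : ∀ p ∈ z.primesBelow, 0 < 1 - (p : ℝ) ^ (-(1 + t)) ∧
      1 - (p : ℝ) ^ (-(1 + t)) ≤ 1 - (p : ℝ) ^ (-(1 + τ)) := by
    intro p hp
    have hp1 : (1 : ℝ) < p := by exact_mod_cast (Nat.prime_of_mem_primesBelow hp).one_lt
    have h2 : (p : ℝ) ^ (-(1 + t)) < 1 := Real.rpow_lt_one_of_one_lt_of_neg hp1 (by linarith)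
    have h3 : (p : ℝ) ^ (-(1 + τ)) ≤ (p : ℝ) ^ (-(1 + t)) :=
      Real.rpow_le_rpow_of_exponent_le hp1.le (by linarith)
    constructor <;> linarith
  have hP1 : 0 < ∏ p ∈ z.primesBelow, (1 - (p : ℝ) ^ (-(1 + t))) :=
    Finset.prod_pos fun p h => (hp p h).1
  have hP2 : ∏ p ∈ z.primesBelow, (1 - (p : ℝ) ^ (-(1 + t))) ≤
      ∏ p ∈ z.primesBelow, (1 - (p : ℝ) ^ (-(1 + τ))) :=
    Finset.prod_le_prod (fun p h => (hp p h).1.le) fun p h => (hp p h).2
  have h4 : Gz z (1 + t) ≤ (1 + 1 / t) * ∏ p ∈ z.primesBelow, (1 - (p : ℝ) ^ (-(1 + τ))) := by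
    unfold Gz
    exact mul_le_mul (Zt_simple ht) hP2 hP1.le (by positivity)
  have h5 := Real.log_le_log (Gz_pos z (s := 1 + t) (by linarith)) h4
  rw [Real.log_mul (by positivity) (hP1.trans_le hP2).ne'] at h5
  have h6 : (1 : ℝ) + 1 / t = (1 + t) / t := by
    field_simp
    ring
  rw [h6, Real.log_div (by linarith) ht.ne'] at h5
  have h7 := Real.log_le_sub_one_of_pos (x := 1 + t) (by linarith)
  linarith

theorem TR_le {z : ℕ} (hz : 2 ≤ z) {x : ℝ} (hx : 0 ≤ x) {τ : ℝ} (hτ : 0 < τ) (l : List (ℕ × ℕ))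
    (hl : ∀ p ∈ l, 0 < p.1)
    (h : ∀ y : ℝ, Real.log z + x ≤ y → Real.exp (-(y * τ)) / y ≤ es l y) :
    TR x ≤ ∑ p ∈ z.primesBelow, fx x p +
      τ * (1 + τ / 2 + Real.log ((∏ p ∈ z.primesBelow, (1 - (p : ℝ) ^ (-(1 + τ)))) / τ)) +
      ct z x l := by
  obtain ⟨Q, hQ⟩ : ∃ Q, Q = ∏ p ∈ z.primesBelow, (1 - (p : ℝ) ^ (-(1 + τ))) := ⟨_, rfl⟩
  have hQ0 : 0 < Q := by
    rw [hQ]
    refine Finset.prod_pos fun p hp => ?_
    have hp1 : (1 : ℝ) < p := by exact_mod_cast (Nat.prime_of_mem_primesBelow hp).one_lt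
    have h2 : (p : ℝ) ^ (-(1 + τ)) < 1 := Real.rpow_lt_one_of_one_lt_of_neg hp1 (by linarith)
    linarith
  rw [← hQ]
  have hzr : (2 : ℝ) ≤ z := by exact_mod_cast hz
  refine (summable_tp hx).tsum_le_of_sum_range_le fun M => ?_
  obtain ⟨P, hP⟩ : ∃ P, P = (Finset.range M).filter (fun n => n.Prime ∧ z ≤ n) := ⟨_, rfl⟩
  have hPm : ∀ n ∈ P, n.Prime ∧ z ≤ n := by
    intro n hn
    rw [hP, Finset.mem_filter] at hn
    exact hn.2
  have h1 : ∑ n ∈ Finset.range M, tp x n ≤ ∑ p ∈ z.primesBelow, fx x p + ∑ n ∈ P, fx x n := by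
    have e1 : ∑ n ∈ Finset.range M, tp x n = ∑ n ∈ (Finset.range M).filter Nat.Prime, fx x n := by
      unfold tp
      rw [Finset.sum_filter]
    rw [e1]
    have e2 : (Finset.range M).filter Nat.Prime ⊆ z.primesBelow ∪ P := by
      intro n hn
      rw [Finset.mem_filter] at hn
      rw [Finset.mem_union, hP, Finset.mem_filter, Nat.mem_primesBelow]
      by_cases h3 : n < z
      · exact Or.inl ⟨h3, hn.2⟩
      · exact Or.inr ⟨hn.1, hn.2, not_lt.1 h3⟩
    refine (Finset.sum_le_sum_of_subset_of_nonneg e2 fun _ _ _ => fx_nonneg hx _).trans ?_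
    rw [Finset.sum_union]
    rw [Finset.disjoint_left]
    intro n h3 h4
    rw [Nat.mem_primesBelow] at h3
    exact absurd (hPm n h4).2 (not_le.2 h3.1)
  have hy : ∀ n ∈ P, Real.log z + x ≤ Real.log n + x ∧ 0 < Real.log n + x ∧ (0 : ℝ) < n := by
    intro n hn
    have h2 : (z : ℝ) ≤ n := by exact_mod_cast (hPm n hn).2
    have h3 : Real.log z ≤ Real.log n := Real.log_le_log (by linarith) h2
    have h4 : 0 < Real.log z := Real.log_pos (by linarith)
    refine ⟨by linarith, by linarith, by linarith⟩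
  have h2 : ∀ n ∈ P, fx x n ≤ (∫ t in (0 : ℝ)..τ, 1 / (n : ℝ) * Real.exp (-((Real.log n + x) * t))) +
      1 / (n : ℝ) * es l (Real.log n + x) := by
    intro n hn
    obtain ⟨h3, h4, h5⟩ := hy n hn
    rw [intervalIntegral.integral_const_mul, ut_int h4]
    have h6 := h _ h3
    have e : fx x n = 1 / (n : ℝ) * ((1 - Real.exp (-((Real.log n + x) * τ))) / (Real.log n + x)) +
        1 / (n : ℝ) * (Real.exp (-((Real.log n + x) * τ)) / (Real.log n + x)) := by
      unfold fx
      field_simp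
      ring
    rw [e]
    have h7 : 1 / (n : ℝ) * (Real.exp (-((Real.log n + x) * τ)) / (Real.log n + x)) ≤
        1 / (n : ℝ) * es l (Real.log n + x) := mul_le_mul_of_nonneg_left h6 (by positivity)
    linarith
  have h3 : ∑ n ∈ P, 1 / (n : ℝ) * es l (Real.log n + x) ≤ ct z x l := by
    have h4 := sum_le_hasSum P (fun n _ => by
      split_ifs
      · exact mul_nonneg (by positivity) (ut_es_nonneg _ _)
      · exact le_rfl) (hasSum_ct z x l hl)
    refine le_trans (le_of_eq ?_) h4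
    refine Finset.sum_congr rfl fun n hn => ?_
    rw [if_pos (hPm n hn)]
  have hint : ∀ n ∈ P, IntervalIntegrable
      (fun t => 1 / (n : ℝ) * Real.exp (-((Real.log n + x) * t))) MeasureTheory.volume 0 τ :=
    fun n _ => Continuous.intervalIntegrable (by fun_prop) _ _
  have h4 : ∑ n ∈ P, (∫ t in (0 : ℝ)..τ, 1 / (n : ℝ) * Real.exp (-((Real.log n + x) * t))) ≤
      τ * (1 + τ / 2 + Real.log (Q / τ)) := by
    rw [← intervalIntegral.integral_finsetSum hint]
    have hid : IntervalIntegrable (fun t : ℝ => t) MeasureTheory.volume 0 τ :=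
      continuous_id.intervalIntegrable _ _
    have hi1 : IntervalIntegrable (fun t : ℝ => t - Real.log t) MeasureTheory.volume 0 τ :=
      hid.sub intervalIntegral.intervalIntegrable_log'
    have hi2 : IntervalIntegrable (fun t : ℝ => t - Real.log t + Real.log Q)
        MeasureTheory.volume 0 τ := hi1.add intervalIntegrable_const
    have h5 : ∫ t in (0 : ℝ)..τ, ∑ n ∈ P, 1 / (n : ℝ) * Real.exp (-((Real.log n + x) * t)) ≤
        ∫ t in (0 : ℝ)..τ, (t - Real.log t + Real.log Q) := by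
      refine intervalIntegral.integral_mono_on_of_le_Ioo hτ.le
        (Continuous.intervalIntegrable (by fun_prop) _ _) hi2 ?_
      intro t ht
      have h6 := ut_bound (z := z) (τ := τ) ht.1 ht.2.le
      rw [← hQ] at h6
      refine le_trans ?_ h6
      have h7 := sum_le_hasSum P (fun n _ => by
        unfold pz
        split_ifs
        · positivity
        · exact le_rfl) (summable_pz z (s := 1 + t) (by linarith [ht.1])).hasSum
      refine le_trans (Finset.sum_le_sum fun n hn => ?_) h7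
      unfold pz
      rw [if_pos (hPm n hn)]
      have hn0 := (hy n hn).2.2
      have e1 : (n : ℝ) ^ (-(1 + t)) = 1 / (n : ℝ) * Real.exp (-(Real.log n * t)) := by
        rw [neg_add, Real.rpow_add hn0, Real.rpow_neg_one, Real.rpow_def_of_pos hn0, one_div]
        congr 2
        ring
      rw [e1]
      refine mul_le_mul_of_nonneg_left (Real.exp_le_exp.2 ?_) (by positivity)
      have := mul_nonneg hx ht.1.le
      linarith
    refine h5.trans (le_of_eq ?_)
    rw [intervalIntegral.integral_add hi1 intervalIntegrable_const,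
      intervalIntegral.integral_sub hid intervalIntegral.intervalIntegrable_log',
      intervalIntegral.integral_const, integral_id,
      integral_log, Real.log_div hQ0.ne' hτ.ne']
    simp only [smul_eq_mul]
    ring
  calc ∑ n ∈ Finset.range M, tp x n ≤ ∑ p ∈ z.primesBelow, fx x p + ∑ n ∈ P, fx x n := h1
    _ ≤ ∑ p ∈ z.primesBelow, fx x p + ∑ n ∈ P,
        ((∫ t in (0 : ℝ)..τ, 1 / (n : ℝ) * Real.exp (-((Real.log n + x) * t))) +
          1 / (n : ℝ) * es l (Real.log n + x)) := by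
        gcongr with n hn
        exact h2 n hn
    _ ≤ _ := by
        rw [Finset.sum_add_distrib]
        linarith

end Pool.Agent.H27.XZ
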