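import Pool.Agent.H27.XZ.Node
import Pool.Agent.H27.XZ.LowT
import Pool.Agent.H27.XZ.UpT
import Pool.Agent.H27.XZ.QuB

/-!
# Run : the two evaluations

`lowK` adds lower bounds of the contributions of the nodes (`ct`), `upK` upper bounds. The certificate contains
for each node numbers `v1`, `v2` for `log Gz z (1+t)` and `log Gz z (2(1+t))`, checked by the exponential
function.
-/

set_option autoImplicit false

open Real H40.PR

namespace Pool.Agent.H27.XZ

/-- check `v / 10^18 ≤ log x` for `g / 10^18 ≤ x` -/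
def logL (v g : Nat) (k : Bool) : Bool :=
  expL v fun e => br (Nat.ble 1000000000000000000000000000000000000 (Nat.mul e g)) k false

/-- check `log x ≤ v / 10^18` for `x ≤ g / 10^18` -/
def logU (v g : Nat) (k : Bool) : Bool :=
  expU v fun e => br (Nat.ble (Nat.mul e g) 1000000000000000000000000000000000000) k false

theorem logL_sound {v g : Nat} {k : Bool} {x : ℝ} (hx : (g : ℝ) ≤ x * 1000000000000000000)
    (h : logL v g k = true) : (v : ℝ) ≤ Real.log x * 1000000000000000000 ∧ k = true := by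
  unfold logL at h
  obtain ⟨e, he, h⟩ := expL_sound (y := (v : ℝ) / 1000000000000000000) (by
    rw [div_mul_cancel₀ _ (by norm_num)]) h
  obtain ⟨h1, h⟩ := br_f h
  refine ⟨?_, h⟩
  have h2 : ((1000000000000000000000000000000000000 : ℕ) : ℝ) ≤ ((Nat.mul e g : ℕ) : ℝ) := by
    exact_mod_cast ble_true h1
  rw [mul_cast, Nat.cast_ofNat] at h2
  have he0 : (0 : ℝ) ≤ e := Nat.cast_nonneg e
  have hg0 : (0 : ℝ) ≤ g := Nat.cast_nonneg g
  have h3 : (e : ℝ) * g ≤ Real.exp (-((v : ℝ) / 1000000000000000000)) * 1000000000000000000 *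
      (x * 1000000000000000000) :=
    mul_le_mul he hx hg0 (by positivity)
  have h4 : 1 ≤ Real.exp (-((v : ℝ) / 1000000000000000000)) * x := by nlinarith
  have hx0 : 0 < x := by
    by_contra hc
    push Not at hc
    have := Real.exp_pos (-((v : ℝ) / 1000000000000000000))
    nlinarith
  rw [Real.exp_neg, inv_mul_eq_div, le_div_iff₀ (Real.exp_pos _), one_mul] at h4
  have h5 : (v : ℝ) / 1000000000000000000 ≤ Real.log x := by
    rw [Real.le_log_iff_exp_le hx0]
    exact h4
  rw [div_le_iff₀ (by norm_num)] at h5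
  exact h5

theorem logU_sound {v g : Nat} {k : Bool} {x : ℝ} (hx0 : 0 < x)
    (hx : x * 1000000000000000000 ≤ (g : ℝ)) (h : logU v g k = true) :
    Real.log x * 1000000000000000000 ≤ (v : ℝ) ∧ k = true := by
  unfold logU at h
  obtain ⟨e, he, h⟩ := expU_sound (y := (v : ℝ) / 1000000000000000000) (by
    rw [div_mul_cancel₀ _ (by norm_num)]) h
  obtain ⟨h1, h⟩ := br_f h
  refine ⟨?_, h⟩
  have h2 : ((Nat.mul e g : ℕ) : ℝ) ≤ ((1000000000000000000000000000000000000 : ℕ) : ℝ) := by
    exact_mod_cast ble_true h1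
  rw [mul_cast, Nat.cast_ofNat] at h2
  have he0 : (0 : ℝ) ≤ e := Nat.cast_nonneg e
  have h3 : Real.exp (-((v : ℝ) / 1000000000000000000)) * 1000000000000000000 *
      (x * 1000000000000000000) ≤ (e : ℝ) * g :=
    mul_le_mul he hx (by positivity) he0
  have h4 : Real.exp (-((v : ℝ) / 1000000000000000000)) * x ≤ 1 := by nlinarith
  rw [Real.exp_neg, inv_mul_eq_div, div_le_iff₀ (Real.exp_pos _), one_mul] at h4
  have h5 : Real.log x ≤ (v : ℝ) / 1000000000000000000 := by
    rw [Real.log_le_iff_le_exp hx0]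
    exact h4
  rw [le_div_iff₀ (by norm_num)] at h5
  exact h5

/-- as `logL`, no check for `v = 0` (for `1 ≤ x`) -/
def logL0 (v g : Nat) (k : Bool) : Bool := br (Nat.beq v 0) k (logL v g k)

theorem logL0_sound {v g : Nat} {k : Bool} {x : ℝ} (h0 : 0 ≤ Real.log x)
    (hx : (g : ℝ) ≤ x * 1000000000000000000) (h : logL0 v g k = true) :
    (v : ℝ) ≤ Real.log x * 1000000000000000000 ∧ k = true := by
  unfold logL0 at h
  by_cases hv : v = 0
  · subst hv
    refine ⟨?_, h⟩
    rw [Nat.cast_zero]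
    positivity
  · have hb : Nat.beq v 0 = false := by
      cases v with
      | zero => exact absurd rfl hv
      | succ n => rfl
    rw [hb] at h
    exact logL_sound hx h

/-- lower bound for `PZ z (1+t)` -/
def pzL (z N : Nat) (ns ps : List (Nat × Iv)) (lgN lgz : Iv) (T v1 v2 : Nat) (k : Nat → Bool) : Bool :=
  nodeK N ns ps lgN T fun g1 g2 => logL v1 g1.lo (logU v2 g2.hi
    (powK T lgz fun w => mulK w w fun w2 => mulK w2 w fun w3 =>
      fN (Nat.add (Nat.succ (Nat.div v2 2)) (Nat.succ (Nat.div w3.hi (12 * (z ^ 2 - 1))))) fun r =>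
        fN (Nat.sub v1 r) k))

theorem pzL_sound {z N : ℕ} {ns ps : List (Nat × Iv)} {lgN lgz : Iv} (H : Tab z N ns ps lgN lgz)
    {T v1 v2 : Nat} (hT : 0 < T) {k : Nat → Bool} (h : pzL z N ns ps lgN lgz T v1 v2 k = true) :
    ∃ s : ℕ, (s : ℝ) ≤ PZ z (1 + tt T) * 1000000000000000000 ∧ k s = true := by
  have ht := tt_pos hT
  unfold pzL at h
  obtain ⟨g1, g2, hg1, hg2, h⟩ := nodeK_sound H hT h
  obtain ⟨h1, h⟩ := logL_sound hg1.1 h
  obtain ⟨h2, h⟩ := logU_sound (Gz_pos z (by linarith)) hg2.2 h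
  have hz2 : 2 ≤ z := by have := H.hz; omega
  have hz0 : (0 : ℝ) < z := by
    have : (2 : ℝ) ≤ z := by exact_mod_cast hz2
    linarith
  obtain ⟨w, hw, h⟩ := powK_sound hz2 H.mz h
  have hw0 : 0 ≤ (z : ℝ) ^ (-tt T) := Real.rpow_nonneg hz0.le _
  obtain ⟨w2, hw2, h⟩ := mulK_sound hw0 hw0 hw hw h
  obtain ⟨w3, hw3, h⟩ := mulK_sound (mul_nonneg hw0 hw0) hw0 hw2 hw h
  rw [fN_eq, fN_eq] at h
  refine ⟨_, ?_, h⟩
  have hP := PZ_nonneg z (1 + tt T)
  have hge := PZ_ge H.hz H.he ht
  have hd : 0 < 12 * (z ^ 2 - 1) := by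
    have : 2 ^ 2 ≤ z ^ 2 := Nat.pow_le_pow_left hz2 2
    omega
  have hdc : ((12 * (z ^ 2 - 1) : ℕ) : ℝ) = 12 * ((z : ℝ) ^ 2 - 1) := by
    have : 1 ≤ z ^ 2 := by
      have : 2 ^ 2 ≤ z ^ 2 := Nat.pow_le_pow_left hz2 2
      omega
    push_cast [Nat.cast_sub this]
    ring
  apply sub_cast_le (by positivity)
  rw [add_cast]
  have h3 : (v2 : ℝ) / 2 ≤ ((Nat.succ (Nat.div v2 2) : ℕ) : ℝ) := by
    have := div_hi (a := v2) (b := 2) (z := (v2 : ℝ) / 2) (by norm_num) (by norm_num)
    exact this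
  have h4 : ((z : ℝ) ^ (-tt T)) ^ 3 / (12 * ((z : ℝ) ^ 2 - 1)) * 1000000000000000000 ≤
      ((Nat.succ (Nat.div w3.hi (12 * (z ^ 2 - 1))) : ℕ) : ℝ) := by
    apply div_hi hd
    rw [hdc]
    have hd' : (0 : ℝ) < 12 * ((z : ℝ) ^ 2 - 1) := by
      rw [← hdc]
      exact_mod_cast hd
    rw [le_div_iff₀ hd']
    have h5 := hw3.2
    calc ((z : ℝ) ^ (-tt T)) ^ 3 / (12 * ((z : ℝ) ^ 2 - 1)) * 1000000000000000000 *
          (12 * ((z : ℝ) ^ 2 - 1))
        = (z : ℝ) ^ (-tt T) * (z : ℝ) ^ (-tt T) * (z : ℝ) ^ (-tt T) * 1000000000000000000 := by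
          have hne : 12 * ((z : ℝ) ^ 2 - 1) ≠ 0 := hd'.ne'
          rw [mul_right_comm, div_mul_cancel₀ _ hne]
          ring
      _ ≤ w3.hi := h5
  nlinarith

/-- upper bound for `PZ z (1+t)` -/
def pzU (N : Nat) (ns ps : List (Nat × Iv)) (lgN : Iv) (T v1 v2 : Nat) (k : Nat → Bool) : Bool :=
  nodeK N ns ps lgN T fun g1 g2 => logU v1 g1.hi (logL0 v2 g2.lo
    (fN (Nat.div v2 2) fun r => fN (Nat.sub v1 r) k))

theorem pzU_sound {z N : ℕ} {ns ps : List (Nat × Iv)} {lgN lgz : Iv} (H : Tab z N ns ps lgN lgz)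
    {T v1 v2 : Nat} (hT : 0 < T) {k : Nat → Bool} (h : pzU N ns ps lgN T v1 v2 k = true) :
    ∃ s : ℕ, PZ z (1 + tt T) * 1000000000000000000 ≤ s ∧ k s = true := by
  have ht := tt_pos hT
  unfold pzU at h
  obtain ⟨g1, g2, hg1, hg2, h⟩ := nodeK_sound H hT h
  obtain ⟨h1, h⟩ := logU_sound (Gz_pos z (by linarith)) hg1.2 h
  have h0 : 0 ≤ Real.log (Gz z (2 * (1 + tt T))) :=
    (PZ_nonneg z _).trans (PZ_le_log z (by linarith))
  obtain ⟨h2, h⟩ := logL0_sound h0 hg2.1 h
  rw [fN_eq, fN_eq] at h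
  refine ⟨_, ?_, h⟩
  have hle := PZ_le z (s := 1 + tt T) (by linarith)
  refine le_trans ?_ (sub_cast_ge _ _)
  have h3 : ((Nat.div v2 2 : ℕ) : ℝ) ≤ (v2 : ℝ) / 2 := by
    have := div_cast_le v2 2
    exact_mod_cast this
  nlinarith

theorem ct_cons (z : ℕ) (x : ℝ) (p : ℕ × ℕ) (l : List (ℕ × ℕ)) :
    ct z x (p :: l) = tt p.2 * Real.exp (-(x * tt p.1)) * PZ z (1 + tt p.1) + ct z x l := by
  unfold ct
  rw [List.map_cons, List.sum_cons, tt_eq, tt_eq]

/-- contributions from below -/
def lowK (z N : Nat) (ns ps : List (Nat × Iv)) (lgN lgz : Iv) (X : Nat) :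
    List (Nat × Nat) → List (Nat × Nat) → Nat → (Nat → Bool) → Bool
  | [], _, acc, k => k acc
  | _ :: _, [], _, _ => false
  | p :: l, v :: c, acc, k => fN p.1 fun T => fN p.2 fun W =>
      pzL z N ns ps lgN lgz T v.1 v.2 fun P =>
      expL (Nat.succ (Nat.div (Nat.mul X T) 1000000000000000000)) fun e =>
      fN (Nat.div (Nat.mul (Nat.mul e W) P) 1000000000000000000000000000000000000) fun d =>
      fN (Nat.add acc d) fun acc' => lowK z N ns ps lgN lgz X l c acc' k

theorem lowK_sound {z N : ℕ} {ns ps : List (Nat × Iv)} {lgN lgz : Iv} (H : Tab z N ns ps lgN lgz)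
    {X : Nat} : ∀ {l c : List (Nat × Nat)} (_ : ∀ p ∈ l, 0 < p.1) {acc : Nat} {k : Nat → Bool},
    lowK z N ns ps lgN lgz X l c acc k = true →
    ∃ s : ℕ, (s : ℝ) ≤ acc + ct z (tt X) l * 1000000000000000000 ∧ k s = true
  | [], c, _, acc, k, h => ⟨acc, by simp [ct], by simpa [lowK] using h⟩
  | p :: l, [], _, acc, k, h => by simp [lowK] at h
  | p :: l, v :: c, hl, acc, k, h => by
    unfold lowK at h
    rw [fN_eq, fN_eq] at h
    obtain ⟨P, hP, h⟩ := pzL_sound H (hl p (by simp)) h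
    obtain ⟨e, he, h⟩ := expL_sound (y := tt X * tt p.1) (by
      apply div_hi (by norm_num)
      rw [mul_cast, Nat.cast_ofNat]
      unfold tt
      apply le_of_eq
      ring) h
    rw [fN_eq, fN_eq] at h
    obtain ⟨s, hs, h⟩ := lowK_sound H (fun q hq => hl q (by simp [hq])) h
    refine ⟨s, hs.trans ?_, h⟩
    rw [add_cast, ct_cons]
    have h1 : ((Nat.div (Nat.mul (Nat.mul e p.2) P) 1000000000000000000000000000000000000 : ℕ) : ℝ) ≤
        tt p.2 * Real.exp (-(tt X * tt p.1)) * PZ z (1 + tt p.1) * 1000000000000000000 := by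
      apply div_lo
      rw [mul_cast, mul_cast, Nat.cast_ofNat, div_le_iff₀ (by norm_num)]
      have e0 : (0 : ℝ) ≤ e := Nat.cast_nonneg e
      have P0 : (0 : ℝ) ≤ P := Nat.cast_nonneg P
      have W0 : (0 : ℝ) ≤ p.2 := Nat.cast_nonneg _
      have h2 : (e : ℝ) * P ≤ Real.exp (-(tt X * tt p.1)) * 1000000000000000000 *
          (PZ z (1 + tt p.1) * 1000000000000000000) := mul_le_mul he hP P0 (by positivity)
      calc (e : ℝ) * p.2 * P = p.2 * ((e : ℝ) * P) := by ring
        _ ≤ p.2 * (Real.exp (-(tt X * tt p.1)) * 1000000000000000000 *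
          (PZ z (1 + tt p.1) * 1000000000000000000)) := mul_le_mul_of_nonneg_left h2 W0
        _ = _ := by
          unfold tt
          ring
    have h3 : (tt p.2 * Real.exp (-(tt X * tt p.1)) * PZ z (1 + tt p.1) + ct z (tt X) l) *
        1000000000000000000 = tt p.2 * Real.exp (-(tt X * tt p.1)) * PZ z (1 + tt p.1) *
        1000000000000000000 + ct z (tt X) l * 1000000000000000000 := by ring
    linarith

/-- contributions from above -/
def upK (N : Nat) (ns ps : List (Nat × Iv)) (lgN : Iv) (X : Nat) :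
    List (Nat × Nat) → List (Nat × Nat) → Nat → (Nat → Bool) → Bool
  | [], _, acc, k => k acc
  | _ :: _, [], _, _ => false
  | p :: l, v :: c, acc, k => fN p.1 fun T => fN p.2 fun W =>
      pzU N ns ps lgN T v.1 v.2 fun P =>
      expU (Nat.div (Nat.mul X T) 1000000000000000000) fun e =>
      fN (Nat.succ (Nat.div (Nat.mul (Nat.mul e W) P) 1000000000000000000000000000000000000)) fun d =>
      fN (Nat.add acc d) fun acc' => upK N ns ps lgN X l c acc' k

theorem upK_sound {z N : ℕ} {ns ps : List (Nat × Iv)} {lgN lgz : Iv} (H : Tab z N ns ps lgN lgz)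
    {X : Nat} : ∀ {l c : List (Nat × Nat)} (_ : ∀ p ∈ l, 0 < p.1) {acc : Nat} {k : Nat → Bool},
    upK N ns ps lgN X l c acc k = true →
    ∃ s : ℕ, acc + ct z (tt X) l * 1000000000000000000 ≤ s ∧ k s = true
  | [], c, _, acc, k, h => ⟨acc, by simp [ct], by simpa [upK] using h⟩
  | p :: l, [], _, acc, k, h => by simp [upK] at h
  | p :: l, v :: c, hl, acc, k, h => by
    unfold upK at h
    rw [fN_eq, fN_eq] at h
    obtain ⟨P, hP, h⟩ := pzU_sound H (hl p (by simp)) h
    obtain ⟨e, he, h⟩ := expU_sound (y := tt X * tt p.1) (by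
      apply div_lo
      rw [mul_cast, Nat.cast_ofNat]
      unfold tt
      apply le_of_eq
      ring) h
    rw [fN_eq, fN_eq] at h
    obtain ⟨s, hs, h⟩ := upK_sound H (fun q hq => hl q (by simp [hq])) h
    refine ⟨s, le_trans ?_ hs, h⟩
    rw [add_cast, ct_cons]
    have h1 : tt p.2 * Real.exp (-(tt X * tt p.1)) * PZ z (1 + tt p.1) * 1000000000000000000 ≤
        ((Nat.succ (Nat.div (Nat.mul (Nat.mul e p.2) P) 1000000000000000000000000000000000000) : ℕ) : ℝ) := by
      apply div_hi (by norm_num)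
      rw [mul_cast, mul_cast, Nat.cast_ofNat, le_div_iff₀ (by norm_num)]
      have e0 : (0 : ℝ) ≤ e := Nat.cast_nonneg e
      have hp0 := PZ_nonneg z (1 + tt p.1)
      have W0 : (0 : ℝ) ≤ p.2 := Nat.cast_nonneg _
      have h2 : Real.exp (-(tt X * tt p.1)) * 1000000000000000000 *
          (PZ z (1 + tt p.1) * 1000000000000000000) ≤ (e : ℝ) * P := mul_le_mul he hP (by positivity) e0
      calc tt p.2 * Real.exp (-(tt X * tt p.1)) * PZ z (1 + tt p.1) * 1000000000000000000 *
            1000000000000000000000000000000000000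
          = p.2 * (Real.exp (-(tt X * tt p.1)) * 1000000000000000000 *
            (PZ z (1 + tt p.1) * 1000000000000000000)) := by
            unfold tt
            ring
        _ ≤ p.2 * ((e : ℝ) * P) := mul_le_mul_of_nonneg_left h2 W0
        _ = _ := by ring
    have h3 : (tt p.2 * Real.exp (-(tt X * tt p.1)) * PZ z (1 + tt p.1) + ct z (tt X) l) *
        1000000000000000000 = tt p.2 * Real.exp (-(tt X * tt p.1)) * PZ z (1 + tt p.1) *
        1000000000000000000 + ct z (tt X) l * 1000000000000000000 := by ring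
    linarith

/-- the sum over the small primes -/
def fsK (X : Nat) : List (Nat × Iv) → Iv → (Iv → Bool) → Bool
  | [], a, k => k a
  | p :: l, a, k => addK p.2 ⟨X, X⟩ fun y => invK y fun y => scK 1 p.1 y fun y => addK a y fun a' =>
      fsK X l a' k

theorem fsK_sound {X : Nat} : ∀ {l : List (Nat × Iv)} (_ : LogTab l) {a : Iv} {k : Iv → Bool} {x : ℝ},
    a.mem x → fsK X l a k = true →
    ∃ c : Iv, c.mem (x + (l.map fun p => fx (tt X) p.1).sum) ∧ k c = true
  | [], _, a, k, x, ha, h => ⟨a, by simpa using ha, h⟩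
  | p :: l, hl, a, k, x, ha, h => by
    unfold fsK at h
    have hp := hl p (by simp)
    have hX : (⟨X, X⟩ : Iv).mem (tt X) := by
      unfold tt
      constructor
      · rw [div_mul_cancel₀ _ (by norm_num)]
      · rw [div_mul_cancel₀ _ (by norm_num)]
    obtain ⟨y, hy, h⟩ := addK_sound hp.2 hX h
    obtain ⟨y, hy, h, _⟩ := invK_sound hy h
    obtain ⟨y, hy, h⟩ := scK_sound (by have := hp.1; omega) hy h
    obtain ⟨a', ha', h⟩ := addK_sound ha hy h
    obtain ⟨c, hc, h⟩ := fsK_sound (fun q hq => hl q (by simp [hq])) ha' h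
    refine ⟨c, ?_, h⟩
    rw [List.map_cons, List.sum_cons, ← add_assoc]
    have e : (Real.log p.1 + tt X)⁻¹ * (((1 : ℕ) : ℝ) / p.1) = fx (tt X) p.1 := by
      unfold fx
      rw [Nat.cast_one, one_div, one_div, mul_inv, mul_comm]
    rw [e] at hc
    exact hc

/-! ### the two checks -/

/-- the check for the lower bound -/
def lowC (z N : Nat) (ns ps : List (Nat × Iv)) (lgN lgz : Iv) (X : Nat) (r : List (ℕ × ℕ))
    (m : List ℕ) (c : List (Nat × Nat)) : Bool :=
  fsK X ps ⟨0, 0⟩ fun s => lowK z N ns ps lgN lgz X (nds r m) c s.lo fun t =>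
    Nat.ble 1000000000000000001 t

theorem lowC_sound {z N : ℕ} {ns ps : List (Nat × Iv)} {lgN lgz : Iv} (H : Tab z N ns ps lgN lgz)
    {X K : Nat} {r : List (ℕ × ℕ)} {m : List ℕ} {c : List (Nat × Nat)} (hr : okLo K r = true)
    (hm : incr m = true) (h : lowC z N ns ps lgN lgz X r m c = true) : 1 < TR (tt X) := by
  unfold lowC at h
  obtain ⟨s, hs, h⟩ := fsK_sound H.hps (x := 0) (by constructor <;> norm_num) h
  obtain ⟨t, ht, h⟩ := lowK_sound H (nds_pos_lo hr hm) h
  have h1 := ble_true h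
  have hz2 : 2 ≤ z := by have := H.hz; omega
  have hz1 : (1 : ℝ) < z := by
    have : (2 : ℝ) ≤ z := by exact_mod_cast hz2
    linarith
  have hX := tt_nonneg X
  have h2 := TR_ge hz2 hX (nds r m) (nds_pos_lo hr hm) (fun y hy =>
    nds_lo hr hm (by
      have := Real.log_pos hz1
      linarith))
  rw [zero_add, H.sum' fun n => fx (tt X) n] at hs
  have h3 := hs.1
  have h4 : (1000000000000000001 : ℝ) ≤ t := by exact_mod_cast h1
  nlinarith

/-- the check for the upper bound; `a` is the first point of the mesh, `W` the weight of the last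
node, `v` the logarithm of `∏ / τ` -/
def upC (N : Nat) (ns ps : List (Nat × Iv)) (lgN lgz : Iv) (X : Nat) (r : List (ℕ × ℕ))
    (a : Nat) (m : List ℕ) (W v : Nat) (c : List (Nat × Nat)) : Bool :=
  br (Nat.ble 1000000000000000000000000000000000000 (Nat.mul W (Nat.add lgz.lo X)))
  (fN (Nat.mul 2000000000 a) fun τ => br (Nat.ble 1 τ)
  (prodK τ ps one1 one1 fun p _ =>
  expU v fun e => br (Nat.ble (Nat.mul e p.hi) (Nat.mul 1000000000000000000 τ))
  (fsK X ps ⟨0, 0⟩ fun s =>
    fN (Nat.succ (Nat.div (Nat.mul τ (Nat.add (Nat.add 1000000000000000001 (Nat.div τ 2)) v))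
      1000000000000000000)) fun d =>
    fN (Nat.add s.hi d) fun s' =>
    upK N ns ps lgN X (nds r (a :: m) ++ [(2000000000 * m.getLastD a, W)]) c s' fun t =>
    Nat.ble t 999999999999999999) false) false) false

theorem upC_sound {z N : ℕ} {ns ps : List (Nat × Iv)} {lgN lgz : Iv} (H : Tab z N ns ps lgN lgz)
    {X K : Nat} {r : List (ℕ × ℕ)} {a : ℕ} {m : List ℕ} {W v : Nat} {c : List (Nat × Nat)}
    (hr : okUp K r = true) (hm : incr (a :: m) = true)
    (h : upC N ns ps lgN lgz X r a m W v c = true) : TR (tt X) < 1 := by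
  unfold upC at h
  obtain ⟨hW, h⟩ := br_f h
  rw [fN_eq] at h
  obtain ⟨hτ, h⟩ := br_f h
  have hz2 : 2 ≤ z := by have := H.hz; omega
  have hz1 : (1 : ℝ) < z := by
    have : (2 : ℝ) ≤ z := by exact_mod_cast hz2
    linarith
  have hX := tt_nonneg X
  have hτ' : 0 < 2000000000 * a := ble_true hτ
  have ha : 0 < a := by omega
  set τ : ℕ := Nat.mul 2000000000 a with hτd
  have hτ1 : 0 < τ := hτ'
  have htp := tt_pos hτ1
  obtain ⟨p, p', hp, _, h⟩ := prodK_sound H.hps zero_le_one zero_le_one one1_mem one1_mem h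
  rw [one_mul, H.prod fun n => 1 - (n : ℝ) ^ (-(1 + tt τ))] at hp
  set Pr : ℝ := ∏ q ∈ z.primesBelow, (1 - (q : ℝ) ^ (-(1 + tt τ))) with hPr
  have hPr0 : 0 < Pr := by
    rw [hPr]
    apply Finset.prod_pos
    intro q hq
    have h2 := (Nat.prime_of_mem_primesBelow hq).two_le
    have h3 : (q : ℝ) ^ (-(1 + tt τ)) < 1 := by
      apply Real.rpow_lt_one_of_one_lt_of_neg
      · have : (2 : ℝ) ≤ q := by exact_mod_cast h2
        linarith
      · linarith
    linarith
  obtain ⟨e, he, h⟩ := expU_sound (y := (v : ℝ) / 1000000000000000000) (by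
    rw [div_mul_cancel₀ _ (by norm_num)]) h
  obtain ⟨he2, h⟩ := br_f h
  obtain ⟨s, hs, h⟩ := fsK_sound H.hps (x := 0) (by constructor <;> norm_num) h
  rw [fN_eq, fN_eq] at h
  rw [zero_add, H.sum' fun n => fx (tt X) n] at hs
  -- the logarithm
  have hlog : Real.log (Pr / tt τ) ≤ (v : ℝ) / 1000000000000000000 := by
    have h2 : ((Nat.mul e p.hi : ℕ) : ℝ) ≤ ((Nat.mul 1000000000000000000 τ : ℕ) : ℝ) := by
      exact_mod_cast ble_true he2
    rw [mul_cast, mul_cast, Nat.cast_ofNat] at h2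
    have e0 : (0 : ℝ) ≤ e := Nat.cast_nonneg e
    have h3 : Real.exp (-((v : ℝ) / 1000000000000000000)) * 1000000000000000000 *
        (Pr * 1000000000000000000) ≤ (e : ℝ) * p.hi := mul_le_mul he hp.2 (by positivity) e0
    have h4 : Real.exp (-((v : ℝ) / 1000000000000000000)) * Pr ≤ tt τ := by
      unfold tt
      rw [le_div_iff₀ (by norm_num)]
      nlinarith
    rw [Real.exp_neg, inv_mul_eq_div, div_le_iff₀ (Real.exp_pos _)] at h4
    rw [Real.log_le_iff_le_exp (by positivity), div_le_iff₀ htp, mul_comm]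
    exact h4
  -- the last node
  set b : ℕ := m.getLastD a with hb
  have hbpos : 0 < b := by
    have key : ∀ (m : List ℕ) (a : ℕ), 0 < a → incr (a :: m) = true → 0 < m.getLastD a := by
      intro m
      induction m with
      | nil => intro a ha _; simpa using ha
      | cons x l ih =>
        intro a ha h
        rw [List.getLastD_cons]
        unfold incr at h
        rw [Bool.and_eq_true, decide_eq_true_eq] at h
        exact ih x (by omega) h.2
    exact key m a ha hm
  set l : List (ℕ × ℕ) := nds r (a :: m) ++ [(2000000000 * b, W)] with hl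
  have hlpos : ∀ p ∈ l, 0 < p.1 := by
    intro p hp
    rw [hl, List.mem_append] at hp
    rcases hp with hp | hp
    · exact nds_pos_up hr ha hm p hp
    · rw [List.mem_singleton] at hp
      rw [hp]
      show 0 < 2000000000 * b
      omega
  have hWr : 1 ≤ tt W * (Real.log z + tt X) := by
    have h2 : ((1000000000000000000000000000000000000 : ℕ) : ℝ) ≤ ((Nat.mul W (Nat.add lgz.lo X) : ℕ) : ℝ) := by
      exact_mod_cast ble_true hW
    rw [mul_cast, add_cast, Nat.cast_ofNat] at h2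
    have h3 := H.mz.1
    have h4 : (W : ℝ) * (lgz.lo + X) ≤ W * ((Real.log z + tt X) * 1000000000000000000) := by
      apply mul_le_mul_of_nonneg_left _ (Nat.cast_nonneg _)
      have : (X : ℝ) = tt X * 1000000000000000000 := by
        unfold tt
        rw [div_mul_cancel₀ _ (by norm_num)]
      rw [this]
      linarith
    unfold tt
    unfold tt at h4
    nlinarith
  have hq : ∀ y : ℝ, Real.log z + tt X ≤ y → Real.exp (-(y * tt τ)) / y ≤ es l y := by
    intro y hy
    have hlz := Real.log_pos hz1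
    have hy0 : 0 < y := by linarith
    have h2 := nds_up hr hm hy0
    rw [hl, es_append]
    have e1 : (2 * (a : ℝ) / 10 ^ 9) = tt τ := by
      unfold tt
      rw [hτd, mul_cast, Nat.cast_ofNat]
      norm_num
      ring
    have e2 : (2 * ((m.getLastD a : ℕ) : ℝ) / 10 ^ 9) = tt (2000000000 * b) := by
      unfold tt
      push_cast
      rw [hb]
      norm_num
      ring
    rw [e1, e2] at h2
    refine h2.trans (add_le_add le_rfl ?_)
    unfold es
    rw [List.map_cons, List.map_nil, List.sum_cons, List.sum_nil, add_zero, tt_eq, tt_eq,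
      div_le_iff₀ hy0]
    have h3 : 1 ≤ tt W * y := hWr.trans (mul_le_mul_of_nonneg_left hy (tt_nonneg W))
    have h4 := Real.exp_pos (-(y * tt (2000000000 * b)))
    nlinarith
  have hTR := TR_le hz2 hX htp l hlpos hq
  obtain ⟨t, ht, h⟩ := upK_sound H hlpos h
  have h1 := ble_true h
  rw [add_cast] at ht
  have hd : tt τ * (1 + tt τ / 2 + Real.log (Pr / tt τ)) * 1000000000000000000 ≤
      ((Nat.succ (Nat.div (Nat.mul τ (Nat.add (Nat.add 1000000000000000001 (Nat.div τ 2)) v))
      1000000000000000000) : ℕ) : ℝ) := by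
    apply div_hi (by norm_num)
    rw [mul_cast, add_cast, add_cast, Nat.cast_ofNat, Nat.cast_ofNat, le_div_iff₀ (by norm_num)]
    have h2 : (τ : ℝ) / 2 ≤ ((Nat.div τ 2 : ℕ) : ℝ) + 1 := by
      have := le_div_cast τ (b := 2) (by norm_num)
      exact_mod_cast this
    have h3 : (1 + tt τ / 2 + Real.log (Pr / tt τ)) * 1000000000000000000 ≤
        1000000000000000001 + ((Nat.div τ 2 : ℕ) : ℝ) + v := by
      have h4 : Real.log (Pr / tt τ) * 1000000000000000000 ≤ v := by
        rw [le_div_iff₀ (by norm_num)] at hlog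
        exact hlog
      have h5 : tt τ / 2 * 1000000000000000000 = (τ : ℝ) / 2 := by
        unfold tt
        ring
      nlinarith
    calc tt τ * (1 + tt τ / 2 + Real.log (Pr / tt τ)) * 1000000000000000000 * 1000000000000000000
        = τ * ((1 + tt τ / 2 + Real.log (Pr / tt τ)) * 1000000000000000000) := by
          have : (τ : ℝ) = tt τ * 1000000000000000000 := by
            unfold tt
            rw [div_mul_cancel₀ _ (by norm_num)]
          rw [this]
          ring
      _ ≤ τ * (1000000000000000001 + ((Nat.div τ 2 : ℕ) : ℝ) + v) :=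
          mul_le_mul_of_nonneg_left h3 (Nat.cast_nonneg _)
  have h6 := hs.2
  have h7 : (t : ℝ) ≤ 999999999999999999 := by exact_mod_cast h1
  rw [← hPr] at hTR
  nlinarith

end Pool.Agent.H27.XZ
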