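import Pool.Agent.H27.XZ.Data

/-!
# RunUp : the upper bound
-/

set_option autoImplicit false

open H40.PR

namespace Pool.Agent.H27.XZ

@[reducible] def mUp : List ℕ :=
  [50000, 350000, 1750000, 6500000, 22500000, 60000000, 150000000, 325000000, 650000000, 1250000000]

/-- the certificate: bounds for `log Gz z (1+t)` and `log Gz z (2(1+t))` at the nodes -/
@[reducible] def cUp : List (Nat × Nat) :=
  [(6798676490518432119, 272838385178253), (9100696920065585096, 273188150386940),
   (6858089837237398818, 272860801936127), (8645101460034011204, 273165706305945),
   (7001577349037300007, 272909752735455), (8057941979741139735, 273116708863403),
   (7238223143064913991, 272976610578923), (7584002567643353522, 273049816158541),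
   (4856526676012393192, 270518214601645), (6798676490518432119, 272838385178253),
   (4912822765935171216, 270666403642246), (6473376894363299223, 272688987934054),
   (5048114063446410265, 270990243277595), (5999733014533672641, 272363085777642),
   (5268848330078872921, 271433089557582), (5584627598316256630, 271918697960390),
   (3264543438300927799, 259952920223884), (4856526676012393192, 270518214601645),
   (3316095480394725440, 260617717328749), (4629304903934443525, 269827754844456),
   (3439306048135150119, 262075230234182), (4263136121397213574, 268326434279005),
   (3637868342962832369, 264078881246763), (3915113268107433218, 266290042042507),
   (2010450570864923079, 227128994514110), (3264543438300927799, 259952920223884),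
   (2054774322756143653, 229101711672173), (3107847255556358065, 257710168146603),
   (2160292542412912803, 233469584258823), (2835633564205236328, 252881443603770),
   (2328645127463810392, 239570951099387), (2558674888952549014, 246435736060438),
   (952366614312050104, 144436204357278), (2010450570864923079, 227128994514110),
   (987794560603453480, 148677574200471), (1876203523626823248, 220610037213626),
   (1073173352920655705, 158382412907624), (1642269239342057940, 207028822514026),
   (1211988556049863976, 172681601076635), (1405560716416977942, 189842020745756),
   (339627421626944937, 50524813227994), (952366614312050104, 144436204357278),
   (359207363895791207, 54023896880648), (876911891004328817, 134969691519959),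
   (407236379154790818, 62540091010171), (741294175611372648, 116426588296124),
   (487296129632750247, 76409076781583), (601303885001547108, 95193937907126),
   (58138079528861943, 4251363371916), (339627421626944937, 50524813227994),
   (64364743269699364, 4975073619037), (297832703808324551, 43032660338541),
   (80667241160775667, 7016820051150), (226544030655825859, 30340193817800),
   (110830134796333478, 11238924018006), (159409946996061681, 18863403670632),
   (3516732990792453, 38567288524), (58138079528861943, 4251363371916),
   (4166883774402629, 52010152157), (47828889856584321, 3133263807305),
   (6055478398479120, 99988517975), (31560539550997600, 1612751419942),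
   (10176848861347906, 244639686539), (18223403924843955, 653975621962), (33316685451509, 0),
   (3516732990792453, 38567288524), (44488436292681, 0), (2572389696258048, 22139735654),
   (83922055256373, 22979961), (1311722627987702, 6586474798), (201312907380593, 184087454),
   (531721900443170, 1240415190), (10679151158, 0), (33316685451509, 0), (17584882615, 0),
   (19578922226505, 0), (52874759604, 0), (6188680001272, 0), (242198184355, 0), (1305597298016, 0),
   (10679151158, 0)]

set_option maxRecDepth 100000 in
theorem up_check : upC 20 tN tP iN iz 803523700000000000 rUp 5000 mUp 142488062168456120 9100691147917787891 cUp = true := by
  decide +kernel

theorem TR_lt_one : TR (8035237 / 10 ^ 7) < 1 := by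
  have h := upC_sound tab (K := 14) (r := rUp) (a := 5000) (m := mUp) (by decide +kernel)
    (by decide +kernel) up_check
  have e : tt 803523700000000000 = 8035237 / 10 ^ 7 := by
    unfold tt
    norm_num
  rw [e] at h
  exact h

end Pool.Agent.H27.XZ
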